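import Mathlib

set_option autoImplicit false

namespace Pool.Agent.Y168.Bowl

open Finset

/-- the numbers `binom(2k, k) / 4^k` -/
noncomputable def bb : ℕ → ℝ
  | 0 => 1
  | k + 1 => bb k * ((2 * k + 1) / (2 * k + 2))

lemma bb_pos (k : ℕ) : 0 < bb k := by
  induction k with
  | zero => simp [bb]
  | succ k ih => simp only [bb]; positivity

lemma bb_succ (k : ℕ) : 2 * ((k : ℝ) + 1) * bb (k + 1) = (2 * k + 1) * bb k := by
  have h : (2 * (k : ℝ) + 2) ≠ 0 := by positivity
  simp only [bb]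
  field_simp

lemma bb_conv_succ (n : ℕ) :
    ∑ p ∈ antidiagonal (n + 1), bb p.1 * bb p.2 = ∑ p ∈ antidiagonal n, bb p.1 * bb p.2 := by
  set S1 := ∑ p ∈ antidiagonal (n + 1), bb p.1 * bb p.2 with hS1
  set S0 := ∑ p ∈ antidiagonal n, bb p.1 * bb p.2 with hS0
  -- weighted sums
  have key : ∀ k : ℕ, 2 * ∑ p ∈ antidiagonal k, (p.1 : ℝ) * (bb p.1 * bb p.2) =
      k * ∑ p ∈ antidiagonal k, bb p.1 * bb p.2 := by
    intro k
    have hsw : ∑ p ∈ antidiagonal k, (p.1 : ℝ) * (bb p.1 * bb p.2) =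
        ∑ p ∈ antidiagonal k, (p.2 : ℝ) * (bb p.1 * bb p.2) := by
      rw [← Finset.Nat.sum_antidiagonal_swap (n := k)
        (f := fun p : ℕ × ℕ => (p.1 : ℝ) * (bb p.1 * bb p.2))]
      refine Finset.sum_congr rfl fun p _ => ?_
      simp only [Prod.fst_swap, Prod.snd_swap]
      ring
    rw [two_mul]
    nth_rewrite 2 [hsw]
    rw [← Finset.sum_add_distrib, Finset.mul_sum]
    refine Finset.sum_congr rfl fun p hp => ?_
    have : (p.1 : ℝ) + p.2 = k := by
      have h5 : p.1 + p.2 = k := by simpa using hp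
      exact_mod_cast h5
    rw [← this]; ring
  have h1 := key (n + 1)
  have h0 := key n
  rw [Finset.Nat.sum_antidiagonal_succ] at h1
  simp only [Nat.cast_zero, zero_mul, zero_add] at h1
  have h2 : 2 * ∑ p ∈ antidiagonal n, ((p.1 + 1 : ℕ) : ℝ) * (bb (p.1 + 1) * bb p.2) =
      2 * ∑ p ∈ antidiagonal n, (p.1 : ℝ) * (bb p.1 * bb p.2) + S0 := by
    rw [hS0, Finset.mul_sum, Finset.mul_sum, ← Finset.sum_add_distrib]
    refine Finset.sum_congr rfl fun p _ => ?_
    have := bb_succ p.1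
    push_cast
    linear_combination (bb p.2) * this
  rw [h2, h0] at h1
  have hn : ((n : ℝ) + 1) ≠ 0 := by positivity
  have h3 : ((n : ℝ) + 1) * S1 = ((n : ℝ) + 1) * S0 := by
    push_cast at h1
    rw [← hS0, ← hS1] at h1
    linarith
  exact mul_left_cancel₀ hn h3

lemma bb_conv (n : ℕ) : ∑ p ∈ antidiagonal n, bb p.1 * bb p.2 = 1 := by
  induction n with
  | zero => simp [bb]
  | succ n ih => rw [bb_conv_succ, ih]

lemma eq_bb {a : ℕ → ℝ} (ha0 : a 0 = 1)
    (ha : ∀ n, ∑ p ∈ antidiagonal n, a p.1 * a p.2 = 1) (k : ℕ) : a k = bb k := by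
  set A : PowerSeries ℝ := PowerSeries.mk a with hA
  set B : PowerSeries ℝ := PowerSeries.mk bb with hB
  have h : A ^ 2 = B ^ 2 := by
    ext n
    rw [sq, sq, PowerSeries.coeff_mul, PowerSeries.coeff_mul]
    simp only [hA, hB, PowerSeries.coeff_mk]
    rw [ha, bb_conv]
  rcases sq_eq_sq_iff_eq_or_eq_neg.mp h with h | h
  · have := congrArg (PowerSeries.coeff k) h
    simpa [hA, hB] using this
  · exfalso
    have := congrArg (PowerSeries.coeff 0) h
    simp only [hA, hB, PowerSeries.coeff_mk, map_neg, ha0] at this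
    have hb : bb 0 = 1 := rfl
    rw [hb] at this
    norm_num at this

lemma bb_step {N d : ℕ} (h : 2 * (d + 1) ≤ N) :
    bb (d + 1) * bb (N - (d + 1)) < bb d * bb (N - d) := by
  obtain ⟨k, hk⟩ : ∃ k, N - d = k + 1 := ⟨N - d - 1, by omega⟩
  have hk' : N - (d + 1) = k := by omega
  have hdk : d < k := by omega
  rw [hk, hk']
  simp only [bb]
  have h1 := mul_pos (bb_pos d) (bb_pos k)
  have h2 : (2 * (d : ℝ) + 1) / (2 * d + 2) < (2 * (k : ℝ) + 1) / (2 * k + 2) := by
    rw [div_lt_div_iff₀ (by positivity) (by positivity)]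
    have : (d : ℝ) < k := by exact_mod_cast hdk
    nlinarith
  nlinarith [mul_lt_mul_of_pos_left h2 h1]

lemma bb_anti {N : ℕ} (d e : ℕ) (hde : d < e) (h : 2 * e ≤ N) :
    bb e * bb (N - e) < bb d * bb (N - d) := by
  induction e with
  | zero => omega
  | succ e ih =>
    have h1 := bb_step (N := N) (d := e) h
    rcases Nat.lt_succ_iff_lt_or_eq.mp hde with h2 | h2
    · exact h1.trans (ih h2 (by omega))
    · subst h2; exact h1

end Pool.Agent.Y168.Bowl
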