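import Mathlib
import Pool.Agent.Results.MP_eb4cdf_pr.InvertedBowl

set_option autoImplicit false

namespace Pool.Agent.Y168.Bowl

open MeasureTheory Filter Topology
open Pool.Agent.Results.MP_eb4cdf_pr.InvertedBowl

/-- departure times of the first job -/
noncomputable def PS (T : ℕ → ℕ → ℝ) (j : ℕ) : ℝ := ∑ k ∈ Finset.range j, T 1 (k + 1)

/-- departure times of the second job with unlimited buffers -/
noncomputable def ES (T : ℕ → ℕ → ℝ) : ℕ → ℝ
  | 0 => 0
  | j + 1 => max (ES T j) (PS T (j + 1)) + T 2 (j + 1)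

lemma PS_nonneg {T : ℕ → ℕ → ℝ} (hT : ∀ i j, 0 ≤ T i j) (j : ℕ) : 0 ≤ PS T j :=
  Finset.sum_nonneg fun k _ => hT 1 (k + 1)

lemma PS_succ (T : ℕ → ℕ → ℝ) (j : ℕ) : PS T (j + 1) = PS T j + T 1 (j + 1) :=
  Finset.sum_range_succ _ _

lemma PS_le_ES {T : ℕ → ℕ → ℝ} (hT : ∀ i j, 0 ≤ T i j) (j : ℕ) : PS T j ≤ ES T j := by
  cases j with
  | zero => simp [PS, ES]
  | succ j =>
    have h1 := le_max_right (ES T j) (PS T (j + 1))
    have h2 := hT 2 (j + 1)
    simp only [ES]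
    linarith

lemma ES_nonneg {T : ℕ → ℕ → ℝ} (hT : ∀ i j, 0 ≤ T i j) (j : ℕ) : 0 ≤ ES T j :=
  (PS_nonneg hT j).trans (PS_le_ES hT j)

lemma dep0 (T : ℕ → ℕ → ℝ) (m : ℕ) (r : Regime) (j : ℕ) : depart T m r 0 j = 0 := by
  cases r <;> simp only [depart]

lemma depz (T : ℕ → ℕ → ℝ) (m : ℕ) (r : Regime) (i : ℕ) : depart T m r i 0 = 0 := by
  cases i with
  | zero => exact dep0 T m r 0
  | succ i => cases r <;> simp only [depart]

lemma dep1 {T : ℕ → ℕ → ℝ} (hT : ∀ i j, 0 ≤ T i j) (m : ℕ) (r : Regime) (j : ℕ) :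
    depart T m r 1 j = PS T j := by
  induction j with
  | zero => rw [depz]; simp [PS]
  | succ j ih =>
    have hp := PS_nonneg hT j
    have ht := hT 1 (j + 1)
    have e : (1 : ℕ) = 0 + 1 := rfl
    cases r with
    | unlimited =>
      rw [e, depart, dep0, PS_succ]
      rw [show depart T m .unlimited (0 + 1) j = PS T j from ih, max_eq_left hp]
    | manufacturing b =>
      rw [e, depart, dep0, PS_succ, Nat.zero_sub, dep0, ite_self]
      rw [show depart T m (.manufacturing b) (0 + 1) j = PS T j from ih]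
      show max (max (PS T j + T 1 (j + 1)) (0 + T 1 (j + 1))) 0 = PS T j + T 1 (j + 1)
      rw [max_eq_left (show 0 + T 1 (j + 1) ≤ PS T j + T 1 (j + 1) by linarith),
        max_eq_left (by linarith)]
    | communications b =>
      rw [e, depart, dep0, PS_succ, Nat.zero_sub, dep0, ite_self]
      rw [show depart T m (.communications b) (0 + 1) j = PS T j from ih]
      show max (max (PS T j) 0) 0 + T 1 (j + 1) = PS T j + T 1 (j + 1)
      rw [max_eq_left hp, max_eq_left hp]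

lemma dep2_unl {T : ℕ → ℕ → ℝ} (hT : ∀ i j, 0 ≤ T i j) (m : ℕ) (j : ℕ) :
    depart T m .unlimited 2 j = ES T j := by
  induction j with
  | zero => rw [depz]; simp [ES]
  | succ j ih =>
    have e : (2 : ℕ) = 1 + 1 := rfl
    rw [e, depart, dep1 hT]
    rw [show depart T m .unlimited (1 + 1) j = ES T j from ih]
    rfl

lemma dep2_man {T : ℕ → ℕ → ℝ} (hT : ∀ i j, 0 ≤ T i j) (m b : ℕ) (hb : 0 < b) (j : ℕ) :
    depart T m (.manufacturing b) 2 j = ES T j := by
  induction j with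
  | zero => rw [depz]; simp [ES]
  | succ j ih =>
    have e : (2 : ℕ) = 1 + 1 := rfl
    have hb1 : 1 - b = 0 := by omega
    rw [e, depart, dep1 hT, hb1, dep0, ite_self]
    rw [show depart T m (.manufacturing b) (1 + 1) j = ES T j from ih]
    show max (max (ES T j + T 2 (j + 1)) (PS T (j + 1) + T 2 (j + 1))) 0 =
      max (ES T j) (PS T (j + 1)) + T 2 (j + 1)
    have h1 := ES_nonneg hT j
    have h2 := hT 2 (j + 1)
    rw [max_add_add_right, max_eq_left]
    have := le_max_left (ES T j) (PS T (j + 1))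
    linarith

lemma dep2_com {T : ℕ → ℕ → ℝ} (hT : ∀ i j, 0 ≤ T i j) (m b : ℕ) (hb : 0 < b) (j : ℕ) :
    depart T m (.communications b) 2 j = ES T j := by
  induction j with
  | zero => rw [depz]; simp [ES]
  | succ j ih =>
    have e : (2 : ℕ) = 1 + 1 := rfl
    have hb1 : 1 - b = 0 := by omega
    rw [e, depart, dep1 hT, hb1, dep0, ite_self]
    rw [show depart T m (.communications b) (1 + 1) j = ES T j from ih]
    show max (max (ES T j) (PS T (j + 1))) 0 + T 2 (j + 1) =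
      max (ES T j) (PS T (j + 1)) + T 2 (j + 1)
    have h1 := ES_nonneg hT j
    rw [max_eq_left (h1.trans (le_max_left _ _))]

lemma dep2_man0 {T : ℕ → ℕ → ℝ} (hT : ∀ i j, 0 ≤ T i j) (m : ℕ) (j : ℕ) :
    depart T m (.manufacturing 0) 2 (j + 1) =
      max (ES T (j + 1)) (if j + 1 < m then PS T (j + 2) else 0) := by
  induction j with
  | zero =>
    have e : (2 : ℕ) = 1 + 1 := rfl
    rw [e, depart, dep1 hT, Nat.sub_zero, dep1 hT]
    rw [depz]
    show max (max (0 + T 2 (0 + 1)) (PS T (0 + 1) + T 2 (0 + 1)))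
        (if 0 + 1 < m then PS T (0 + 2) else 0) =
      max (max (0 : ℝ) (PS T (0 + 1)) + T 2 (0 + 1)) (if 0 + 1 < m then PS T (0 + 2) else 0)
    rw [max_add_add_right]
  | succ j ih =>
    have e : (2 : ℕ) = 1 + 1 := rfl
    rw [e, depart, dep1 hT, Nat.sub_zero, dep1 hT]
    rw [show depart T m (.manufacturing 0) (1 + 1) (j + 1) =
      max (ES T (j + 1)) (if j + 1 < m then PS T (j + 2) else 0) from ih]
    have hES : ES T (j + 1 + 1) = max (ES T (j + 1)) (PS T (j + 1 + 1)) + T 2 (j + 1 + 1) := rfl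
    rw [hES]
    congr 1
    rw [max_add_add_right]
    show max (max (ES T (j + 1)) (if j + 1 < m then PS T (j + 1 + 1) else 0))
      (PS T (j + 1 + 1)) + T (1 + 1) (j + 1 + 1) = _
    congr 1
    have h2 := PS_nonneg hT (j + 1 + 1)
    rw [max_assoc]
    congr 1
    apply max_eq_right
    split_ifs
    · exact le_rfl
    · exact h2

lemma dep2 {T : ℕ → ℕ → ℝ} (hT : ∀ i j, 0 ≤ T i j) (N : ℕ) (r : Regime) (hr : Covered r) :
    depart T (N + 1) r 2 (N + 1) = ES T (N + 1) := by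
  cases r with
  | unlimited => exact dep2_unl hT _ _
  | manufacturing b =>
    rcases Nat.eq_zero_or_pos b with hb | hb
    · subst hb
      rw [dep2_man0 hT, if_neg (lt_irrefl _), max_eq_left (ES_nonneg hT _)]
    · exact dep2_man hT _ b hb _
  | communications b =>
    have hb : 0 < b := by
      rcases Nat.eq_zero_or_pos b with h | h
      · subst h; exact absurd rfl hr
      · exact h
    exact dep2_com hT _ b hb _

/-- the length of the path changing jobs at station `c + 1` -/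
noncomputable def VS (T : ℕ → ℕ → ℝ) (m c : ℕ) : ℝ :=
  ∑ i ∈ Finset.range m, ((if i ≤ c then T 1 (i + 1) else 0) + (if c ≤ i then T 2 (i + 1) else 0))

lemma VS_succ_lt (T : ℕ → ℕ → ℝ) {m c : ℕ} (h : c < m) :
    VS T (m + 1) c = VS T m c + T 2 (m + 1) := by
  unfold VS
  rw [Finset.sum_range_succ, if_neg (by omega), if_pos (by omega), zero_add]

lemma VS_succ_self (T : ℕ → ℕ → ℝ) (m : ℕ) : VS T (m + 1) m = PS T (m + 1) + T 2 (m + 1) := by
  unfold VS
  rw [Finset.sum_range_succ, if_pos le_rfl, if_pos le_rfl, PS_succ]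
  have : ∑ i ∈ Finset.range m, ((if i ≤ m then T 1 (i + 1) else 0) +
      (if m ≤ i then T 2 (i + 1) else 0)) = PS T m := by
    unfold PS
    refine Finset.sum_congr rfl fun i hi => ?_
    have := Finset.mem_range.mp hi
    rw [if_pos (by omega), if_neg (by omega), add_zero]
  rw [this]; ring

lemma VS_le_ES (T : ℕ → ℕ → ℝ) (m : ℕ) : ∀ c < m, VS T m c ≤ ES T m := by
  induction m with
  | zero => intro c hc; omega
  | succ m ih =>
    intro c hc
    have hES : ES T (m + 1) = max (ES T m) (PS T (m + 1)) + T 2 (m + 1) := rfl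
    rw [hES]
    rcases Nat.lt_succ_iff_lt_or_eq.mp hc with h | h
    · rw [VS_succ_lt T h]
      have := ih c h
      have := le_max_left (ES T m) (PS T (m + 1))
      linarith
    · subst h
      rw [VS_succ_self]
      have := le_max_right (ES T c) (PS T (c + 1))
      linarith

lemma exists_VS {T : ℕ → ℕ → ℝ} (hT : ∀ i j, 0 ≤ T i j) (m : ℕ) :
    ∃ c < m + 1, ES T (m + 1) = VS T (m + 1) c := by
  induction m with
  | zero =>
    refine ⟨0, by norm_num, ?_⟩
    rw [VS_succ_self]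
    have hES : ES T (0 + 1) = max 0 (PS T (0 + 1)) + T 2 (0 + 1) := rfl
    rw [hES, max_eq_right (PS_nonneg hT _)]
  | succ m ih =>
    obtain ⟨c, hc, h⟩ := ih
    have hES : ES T (m + 1 + 1) = max (ES T (m + 1)) (PS T (m + 1 + 1)) + T 2 (m + 1 + 1) := rfl
    rcases max_choice (ES T (m + 1)) (PS T (m + 1 + 1)) with h' | h'
    · exact ⟨c, by omega, by rw [hES, h', VS_succ_lt T hc, h]⟩
    · exact ⟨m + 1, by omega, by rw [hES, h', VS_succ_self]⟩

/-- the work of path `c` at station `j` -/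
def ww {N : ℕ} (x : Fin 2 → Fin (N + 1) → ℝ) (c j : Fin (N + 1)) : ℝ :=
  (if j ≤ c then x 0 j else 0) + (if c ≤ j then x 1 j else 0)

/-- the weighted length of path `c` -/
noncomputable def VV {N : ℕ} (x : Fin 2 → Fin (N + 1) → ℝ) (u : Fin (N + 1) → ℝ)
    (c : Fin (N + 1)) : ℝ := ∑ j, ww x c j * u j

/-- the largest weighted length of a path -/
noncomputable def ZZ {N : ℕ} (x : Fin 2 → Fin (N + 1) → ℝ) (u : Fin (N + 1) → ℝ) : ℝ :=
  Finset.univ.sup' Finset.univ_nonempty (VV x u)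

lemma VV_le_ZZ {N : ℕ} (x : Fin 2 → Fin (N + 1) → ℝ) (u : Fin (N + 1) → ℝ) (c : Fin (N + 1)) :
    VV x u c ≤ ZZ x u := Finset.le_sup' _ (Finset.mem_univ c)

lemma ZZ_le {N : ℕ} {x : Fin 2 → Fin (N + 1) → ℝ} {u : Fin (N + 1) → ℝ} {B : ℝ}
    (h : ∀ c, VV x u c ≤ B) : ZZ x u ≤ B := Finset.sup'_le _ _ fun c _ => h c

lemma exists_ZZ {N : ℕ} (x : Fin 2 → Fin (N + 1) → ℝ) (u : Fin (N + 1) → ℝ) :
    ∃ c, ZZ x u = VV x u c := by
  obtain ⟨c, _, hc⟩ := Finset.exists_mem_eq_sup' Finset.univ_nonempty (VV x u)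
  exact ⟨c, hc⟩

lemma VS_occ {N : ℕ} (x : Fin 2 → Fin (N + 1) → ℝ) (s : Fin (N + 1) → ℝ) (c : Fin (N + 1)) :
    VS (occ x s) (N + 1) c = VV x (fun j => (s j)⁻¹) c := by
  unfold VS VV
  rw [← Fin.sum_univ_eq_sum_range (fun i => ((if i ≤ (c : ℕ) then occ x s 1 (i + 1) else 0) +
    (if (c : ℕ) ≤ i then occ x s 2 (i + 1) else 0))) (N + 1)]
  refine Finset.sum_congr rfl fun j _ => ?_
  have e1 : occ x s 1 ((j : ℕ) + 1) = x 0 j * (s j)⁻¹ := by
    unfold occ
    rw [dif_pos ⟨⟨le_rfl, by norm_num⟩, by omega, by omega⟩, div_eq_mul_inv]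
    rfl
  have e2 : occ x s 2 ((j : ℕ) + 1) = x 1 j * (s j)⁻¹ := by
    unfold occ
    rw [dif_pos ⟨⟨by norm_num, by norm_num⟩, by omega, by omega⟩, div_eq_mul_inv]
    rfl
  rw [e1, e2]
  unfold ww
  by_cases h1 : j ≤ c
  · by_cases h2 : c ≤ j
    · rw [if_pos (show (j : ℕ) ≤ c from h1), if_pos (show (c : ℕ) ≤ j from h2), if_pos h1,
        if_pos h2]
      ring
    · rw [if_pos (show (j : ℕ) ≤ c from h1), if_neg (show ¬ (c : ℕ) ≤ j from h2), if_pos h1,
        if_neg h2]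
      ring
  · by_cases h2 : c ≤ j
    · rw [if_neg (show ¬ (j : ℕ) ≤ c from h1), if_pos (show (c : ℕ) ≤ j from h2), if_neg h1,
        if_pos h2]
      ring
    · rw [if_neg (show ¬ (j : ℕ) ≤ c from h1), if_neg (show ¬ (c : ℕ) ≤ j from h2), if_neg h1,
        if_neg h2]
      ring

lemma occ_nonneg {N : ℕ} {x : Fin 2 → Fin (N + 1) → ℝ} (hx : ∀ i j, 0 ≤ x i j)
    {s : Fin (N + 1) → ℝ} (hs : ∀ j, 0 < s j) (i j : ℕ) : 0 ≤ occ x s i j := by
  unfold occ
  split_ifs
  · exact div_nonneg (hx _ _) (hs _).le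
  · exact le_rfl

lemma depart_eq_ZZ {N : ℕ} (r : Regime) (hr : Covered r) (x : Fin 2 → Fin (N + 1) → ℝ)
    (hx : ∀ i j, 0 ≤ x i j) (s : Fin (N + 1) → ℝ) (hs : ∀ j, 0 < s j) :
    depart (occ x s) (N + 1) r 2 (N + 1) = ZZ x (fun j => (s j)⁻¹) := by
  have hT := occ_nonneg hx hs
  rw [dep2 hT N r hr]
  apply le_antisymm
  · obtain ⟨c, hc, h⟩ := exists_VS hT N
    rw [h]
    have := VS_occ x s ⟨c, hc⟩
    simp only at this
    rw [this]
    exact VV_le_ZZ _ _ _
  · refine ZZ_le fun c => ?_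
    rw [← VS_occ]
    exact VS_le_ES _ _ _ c.2

end Pool.Agent.Y168.Bowl
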