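import Mathlib
import Pool.Agent.Y168.Bowl.DepM
import Pool.Agent.Y168.Bowl.Arc

set_option autoImplicit false

namespace Pool.Agent.Y168.Bowl

open MeasureTheory Filter Topology ProbabilityTheory Finset

/-- the law of the array of works of two jobs at `N + 1` stations -/
noncomputable def PN (μ : Measure ℝ) (N : ℕ) : Measure (Fin 2 → Fin (N + 1) → ℝ) :=
  Measure.pi fun _ : Fin 2 => Measure.pi fun _ : Fin (N + 1) => μ

instance instPN (μ : Measure ℝ) [IsProbabilityMeasure μ] (N : ℕ) :
    IsProbabilityMeasure (PN μ N) := by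
  unfold PN; infer_instance

lemma reindex {ι ι' : Type*} [Fintype ι] [Fintype ι'] (κ : Measure ℝ) [IsProbabilityMeasure κ]
    {f : ι' → ι} (hf : Function.Injective f) :
    MeasurePreserving (fun (e : ι → ℝ) i => e (f i)) (Measure.pi fun _ : ι => κ)
      (Measure.pi fun _ : ι' => κ) := by
  have hm : Measurable (fun (e : ι → ℝ) i => e (f i)) :=
    measurable_pi_lambda _ fun i => measurable_pi_apply _
  refine ⟨hm, ?_⟩
  have h := (iIndepFun_pi (μ := fun _ : ι => κ) (X := fun _ => (id : ℝ → ℝ))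
    (fun _ => aemeasurable_id)).precomp hf
  have h2 := h.map_fun_eq_pi_map (fun i => (measurable_pi_apply _).aemeasurable)
  have h3 : ∀ i, (Measure.pi fun _ : ι => κ).map (fun e : ι → ℝ => e (f i)) = κ := fun i =>
    (measurePreserving_eval (fun _ : ι => κ) (f i)).map_eq
  simpa [h3] using h2

/-- the law of the difference of two independent variables -/
noncomputable def dl (ν : Measure ℝ) : Measure ℝ := (ν.prod ν).map (fun z => z.1 - z.2)

instance instdl (ν : Measure ℝ) [IsProbabilityMeasure ν] : IsProbabilityMeasure (dl ν) :=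
  Measure.isProbabilityMeasure_map (by fun_prop)

/-- the differences -/
def GG {N : ℕ} (x : Fin 2 → Fin (N + 1) → ℝ) (j : Fin N) : ℝ := x 0 j.succ - x 1 j.castSucc

lemma mp_GG (ν : Measure ℝ) [IsProbabilityMeasure ν] (N : ℕ) :
    MeasurePreserving (GG (N := N)) (PN ν N) (Measure.pi fun _ : Fin N => dl ν) := by
  have h1 : MeasurePreserving (MeasurableEquiv.piFinTwo (fun _ => Fin (N + 1) → ℝ)) (PN ν N)
      ((Measure.pi fun _ : Fin (N + 1) => ν).prod (Measure.pi fun _ : Fin (N + 1) => ν)) :=
    measurePreserving_piFinTwo (fun _ => Measure.pi fun _ : Fin (N + 1) => ν)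
  have h2 := (reindex ν (Fin.succ_injective N)).prod (reindex ν (Fin.castSucc_injective N))
  have h3 := MeasurePreserving.symm _
    (measurePreserving_arrowProdEquivProdArrow ℝ ℝ (Fin N) (fun _ => ν) (fun _ => ν))
  have h4 : MeasurePreserving (fun z : ℝ × ℝ => z.1 - z.2) (ν.prod ν) (dl ν) :=
    ⟨by fun_prop, rfl⟩
  have h5 := measurePreserving_pi (fun _ : Fin N => ν.prod ν) (fun _ : Fin N => dl ν)
    (fun _ => h4)
  exact h5.comp (h3.comp (h2.comp h1))

/-- extension by zero -/
noncomputable def xt {N : ℕ} (e : Fin N → ℝ) (j : ℕ) : ℝ := if h : j < N then e ⟨j, h⟩ else 0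

lemma xt_of_lt {N : ℕ} (e : Fin N → ℝ) {j : ℕ} (h : j < N) : xt e j = e ⟨j, h⟩ := dif_pos h

/-- all partial sums negative -/
def Neg (k : ℕ) : Set (Fin k → ℝ) := {e | ∀ l, 1 ≤ l → l ≤ k → ∑ i ∈ range l, xt e i < 0}

/-- all partial sums positive -/
def Pos (k : ℕ) : Set (Fin k → ℝ) := {e | ∀ l, 1 ≤ l → l ≤ k → 0 < ∑ i ∈ range l, xt e i}

lemma meas_xt (N j : ℕ) : Measurable (fun e : Fin N → ℝ => xt e j) := by
  unfold xt
  by_cases h : j < N
  · simp only [dif_pos h]; exact measurable_pi_apply _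
  · simp only [dif_neg h]; exact measurable_const

lemma meas_Neg (k : ℕ) : MeasurableSet (Neg k) := by
  have : Neg k = ⋂ l, ⋂ (_ : 1 ≤ l), ⋂ (_ : l ≤ k),
      {e : Fin k → ℝ | ∑ i ∈ range l, xt e i < 0} := by
    ext e; simp [Neg]
  rw [this]
  exact MeasurableSet.iInter fun l => MeasurableSet.iInter fun _ => MeasurableSet.iInter fun _ =>
    measurableSet_lt (Finset.measurable_fun_sum _ fun i _ => meas_xt k i) measurable_const

lemma meas_Pos (k : ℕ) : MeasurableSet (Pos k) := by
  have : Pos k = ⋂ l, ⋂ (_ : 1 ≤ l), ⋂ (_ : l ≤ k),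
      {e : Fin k → ℝ | 0 < ∑ i ∈ range l, xt e i} := by
    ext e; simp [Pos]
  rw [this]
  exact MeasurableSet.iInter fun l => MeasurableSet.iInter fun _ => MeasurableSet.iInter fun _ =>
    measurableSet_lt measurable_const (Finset.measurable_fun_sum _ fun i _ => meas_xt k i)

lemma mp_neg (ν : Measure ℝ) [IsProbabilityMeasure ν] :
    MeasurePreserving (fun t : ℝ => -t) (dl ν) (dl ν) := by
  refine ⟨measurable_neg, ?_⟩
  unfold dl
  rw [Measure.map_map measurable_neg (by fun_prop)]
  conv_rhs => rw [← Measure.prod_swap, Measure.map_map (by fun_prop) measurable_swap]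
  congr 1
  ext z
  simp

lemma Pos_eq_Neg (ν : Measure ℝ) [IsProbabilityMeasure ν] (k : ℕ) :
    (Measure.pi fun _ : Fin k => dl ν) (Pos k) = (Measure.pi fun _ : Fin k => dl ν) (Neg k) := by
  have h := measurePreserving_pi (fun _ : Fin k => dl ν) (fun _ : Fin k => dl ν)
    (fun _ => mp_neg ν)
  rw [← h.measure_preimage (meas_Neg k).nullMeasurableSet]
  congr 1
  ext e
  have : ∀ l, ∑ i ∈ range l, xt (fun i => -e i) i = -∑ i ∈ range l, xt e i := by
    intro l
    rw [← Finset.sum_neg_distrib]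
    refine Finset.sum_congr rfl fun i _ => ?_
    unfold xt
    split_ifs <;> simp
  simp only [Pos, Neg, Set.mem_preimage, Set.mem_ofPred_eq, this, neg_lt_zero]

/-- the probability that all partial sums are negative -/
noncomputable def aa (ν : Measure ℝ) (k : ℕ) : ℝ := (Measure.pi fun _ : Fin k => dl ν).real (Neg k)

lemma aa_zero (ν : Measure ℝ) [IsProbabilityMeasure ν] : aa ν 0 = 1 := by
  have : Neg 0 = Set.univ := by
    ext e
    simp only [Neg, Set.mem_ofPred_eq, Set.mem_univ, iff_true]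
    intro l h1 h2; omega
  rw [aa, this]; simp

/-- the walk is strictly maximal at index `c` -/
def BB {N : ℕ} (c : ℕ) : Set (Fin N → ℝ) :=
  {e | (∀ l, 1 ≤ l → l ≤ c → 0 < ∑ j ∈ Ico (c - l) c, xt e j) ∧
    (∀ l, 1 ≤ l → c + l ≤ N → ∑ j ∈ Ico c (c + l), xt e j < 0)}

lemma BB_prob (ν : Measure ℝ) [IsProbabilityMeasure ν] {N c d : ℕ} (h : c + d = N) :
    (Measure.pi fun _ : Fin N => dl ν) (BB c) =
      (Measure.pi fun _ : Fin c => dl ν) (Neg c) * (Measure.pi fun _ : Fin d => dl ν) (Neg d) := by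
  set f : Fin c ⊕ Fin d → Fin N := Sum.elim (fun i => ⟨c - 1 - i, by omega⟩)
    (fun j => ⟨c + j, by omega⟩) with hf
  have hfi : Function.Injective f := by
    rintro (i | i) (j | j) hij
    · have h1 : c - 1 - (i : ℕ) = c - 1 - j := congrArg Fin.val hij
      congr 1; ext; omega
    · have h1 : c - 1 - (i : ℕ) = c + j := congrArg Fin.val hij
      omega
    · have h1 : c + (i : ℕ) = c - 1 - j := congrArg Fin.val hij
      omega
    · have h1 : c + (i : ℕ) = c + j := congrArg Fin.val hij
      congr 1; ext; omega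
  have m1 := reindex (dl ν) hfi
  have m2 := measurePreserving_sumPiEquivProdPi (X := fun _ : Fin c ⊕ Fin d => ℝ)
    (fun _ => dl ν)
  have m3 := m2.comp m1
  have hset : BB c = ((MeasurableEquiv.sumPiEquivProdPi (fun _ : Fin c ⊕ Fin d => ℝ)) ∘
      (fun (e : Fin N → ℝ) i => e (f i))) ⁻¹' (Pos c ×ˢ Neg d) := by
    ext e
    have e1 : ∀ l ≤ c, ∑ i ∈ range l, xt (fun i : Fin c => e (f (Sum.inl i))) i =
        ∑ j ∈ Ico (c - l) c, xt e j := by
      intro l
      induction l with
      | zero => intro _; simp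
      | succ l ih =>
        intro hl
        rw [Finset.sum_range_succ, ih (by omega),
          Finset.sum_eq_sum_Ico_succ_bot (show c - (l + 1) < c by omega)]
        have e2 : c - (l + 1) + 1 = c - l := by omega
        rw [e2, xt_of_lt _ (show l < c by omega), xt_of_lt e (show c - (l + 1) < N by omega)]
        have e3 : f (Sum.inl ⟨l, by omega⟩) = ⟨c - (l + 1), by omega⟩ := by
          ext; simp only [hf, Sum.elim_inl]; omega
        rw [e3, add_comm]
    have e2 : ∀ l ≤ d, ∑ i ∈ range l, xt (fun i : Fin d => e (f (Sum.inr i))) i =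
        ∑ j ∈ Ico c (c + l), xt e j := by
      intro l
      induction l with
      | zero => intro _; simp
      | succ l ih =>
        intro hl
        rw [Finset.sum_range_succ, ih (by omega), ← add_assoc,
          Finset.sum_Ico_succ_top (by omega)]
        rw [xt_of_lt _ (show l < d by omega), xt_of_lt e (show c + l < N by omega)]
        rfl
    constructor
    · rintro ⟨h1, h2⟩
      refine Set.mem_preimage.mpr ⟨fun l hl hlc => ?_, fun l hl hld => ?_⟩
      · show 0 < ∑ i ∈ range l, xt (fun i : Fin c => e (f (Sum.inl i))) i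
        rw [e1 l hlc]; exact h1 l hl hlc
      · show ∑ i ∈ range l, xt (fun i : Fin d => e (f (Sum.inr i))) i < 0
        rw [e2 l hld]; exact h2 l hl (by omega)
    · rintro ⟨h1, h2⟩
      refine ⟨fun l hl hlc => ?_, fun l hl hld => ?_⟩
      · rw [← e1 l hlc]; exact h1 l hl hlc
      · rw [← e2 l (by omega)]; exact h2 l hl (by omega)
  rw [hset, m3.measure_preimage ((meas_Pos c).prod (meas_Neg d)).nullMeasurableSet,
    Measure.prod_prod, Pos_eq_Neg]

lemma meas_BB (N c : ℕ) : MeasurableSet (BB (N := N) c) := by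
  have : BB (N := N) c = (⋂ l, ⋂ (_ : 1 ≤ l), ⋂ (_ : l ≤ c),
      {e : Fin N → ℝ | 0 < ∑ j ∈ Ico (c - l) c, xt e j}) ∩
      ⋂ l, ⋂ (_ : 1 ≤ l), ⋂ (_ : c + l ≤ N),
      {e : Fin N → ℝ | ∑ j ∈ Ico c (c + l), xt e j < 0} := by
    ext e; simp [BB]
  rw [this]
  refine MeasurableSet.inter ?_ ?_
  · exact MeasurableSet.iInter fun l => MeasurableSet.iInter fun _ => MeasurableSet.iInter fun _ =>
      measurableSet_lt measurable_const (Finset.measurable_fun_sum _ fun i _ => meas_xt N i)
  · exact MeasurableSet.iInter fun l => MeasurableSet.iInter fun _ => MeasurableSet.iInter fun _ =>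
      measurableSet_lt (Finset.measurable_fun_sum _ fun i _ => meas_xt N i) measurable_const

/-! ### Relation with the paths -/

/-- the unweighted length of path `c` -/
noncomputable def V1 {N : ℕ} (x : Fin 2 → Fin (N + 1) → ℝ) (c : Fin (N + 1)) : ℝ :=
  ∑ j, ww x c j

lemma V1_step {N : ℕ} (x : Fin 2 → Fin (N + 1) → ℝ) (k : ℕ) (h : k + 1 < N + 1) :
    V1 x ⟨k + 1, h⟩ = V1 x ⟨k, by omega⟩ + xt (GG x) k := by
  have hk : k < N := by omega
  rw [xt_of_lt _ hk]
  unfold V1 GG
  have h1 : ∀ j : Fin (N + 1), ww x ⟨k + 1, h⟩ j = ww x ⟨k, by omega⟩ j +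
      ((if j = ⟨k + 1, h⟩ then x 0 j else 0) - (if j = ⟨k, by omega⟩ then x 1 j else 0)) := by
    intro j
    unfold ww
    simp only [Fin.le_def, Fin.ext_iff]
    rcases lt_trichotomy (j : ℕ) k with hj | hj | hj
    · rw [if_pos (by omega), if_neg (by omega), if_pos (by omega), if_neg (by omega),
        if_neg (by omega), if_neg (by omega)]
      ring
    · rw [if_pos (by omega), if_neg (by omega), if_pos (by omega), if_pos (by omega),
        if_neg (by omega), if_pos (by omega)]
      ring
    · by_cases hj2 : (j : ℕ) = k + 1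
      · rw [if_pos (by omega), if_pos (by omega), if_neg (by omega), if_pos (by omega),
          if_pos (by omega), if_neg (by omega)]
        ring
      · rw [if_neg (by omega), if_pos (by omega), if_neg (by omega), if_pos (by omega),
          if_neg (by omega), if_neg (by omega)]
        ring
  rw [Finset.sum_congr rfl fun j _ => h1 j, Finset.sum_add_distrib, Finset.sum_sub_distrib,
    Finset.sum_ite_eq', Finset.sum_ite_eq', if_pos (Finset.mem_univ _),
    if_pos (Finset.mem_univ _)]
  rfl

lemma V1_diff {N : ℕ} (x : Fin 2 → Fin (N + 1) → ℝ) (c : Fin (N + 1)) (l : ℕ)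
    (h : (c : ℕ) + l < N + 1) :
    V1 x ⟨c + l, h⟩ = V1 x c + ∑ j ∈ Ico (c : ℕ) (c + l), xt (GG x) j := by
  induction l with
  | zero => simp
  | succ l ih =>
    show V1 x ⟨(c : ℕ) + l + 1, h⟩ = V1 x c + ∑ j ∈ Ico (c : ℕ) (c + l + 1), xt (GG x) j
    rw [Finset.sum_Ico_succ_top (by omega), ← add_assoc, ← ih (by omega)]
    exact V1_step x (c + l) (by omega)

/-- path `c` is strictly the longest -/
def AA {N : ℕ} (c : Fin (N + 1)) : Set (Fin 2 → Fin (N + 1) → ℝ) :=
  {x | ∀ c', c' ≠ c → V1 x c' < V1 x c}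

lemma AA_eq {N : ℕ} (c : Fin (N + 1)) : AA c = (GG (N := N)) ⁻¹' (BB (c : ℕ)) := by
  ext x
  constructor
  · intro h
    refine ⟨fun l hl hlc => ?_, fun l hl hlN => ?_⟩
    · have hc' : (c : ℕ) - l < N + 1 := by omega
      have h1 := V1_diff x ⟨(c : ℕ) - l, hc'⟩ l (by simp only; omega)
      have h2 : (⟨(⟨(c : ℕ) - l, hc'⟩ : Fin (N + 1)) + l, by simp only; omega⟩ : Fin (N + 1)) =
          c := by
        ext; simp only; omega
      rw [h2] at h1
      have h3 : (c : ℕ) - l + l = c := by omega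
      simp only [h3] at h1
      have h4 := h ⟨(c : ℕ) - l, hc'⟩ (by
        intro hcon
        have := congrArg Fin.val hcon
        simp only at this
        omega)
      linarith
    · have h1 := V1_diff x c l (by omega)
      have h4 := h ⟨(c : ℕ) + l, by omega⟩ (by
        intro hcon
        have := congrArg Fin.val hcon
        simp only at this
        omega)
      linarith
  · rintro ⟨h1, h2⟩ c' hc'
    rcases lt_trichotomy (c' : ℕ) c with hlt | heq | hgt
    · have h3 := V1_diff x c' ((c : ℕ) - c') (by omega)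
      have h4 : (⟨(c' : ℕ) + ((c : ℕ) - c'), by omega⟩ : Fin (N + 1)) = c := by
        ext; simp only; omega
      rw [h4] at h3
      have h5 : (c' : ℕ) + ((c : ℕ) - c') = c := by omega
      rw [h5] at h3
      have h6 := h1 ((c : ℕ) - c') (by omega) (by omega)
      have h7 : (c : ℕ) - ((c : ℕ) - c') = c' := by omega
      rw [h7] at h6
      linarith
    · exact absurd (Fin.ext heq) hc'
    · have h3 := V1_diff x c ((c' : ℕ) - c) (by omega)
      have h4 : (⟨(c : ℕ) + ((c' : ℕ) - c), by omega⟩ : Fin (N + 1)) = c' := by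
        ext; simp only; omega
      rw [h4] at h3
      have h6 := h2 ((c' : ℕ) - c) (by omega) (by omega)
      linarith

lemma meas_AA {N : ℕ} (ν : Measure ℝ) [IsProbabilityMeasure ν] (c : Fin (N + 1)) :
    MeasurableSet (AA c) := by
  rw [AA_eq]
  exact (mp_GG ν N).measurable (meas_BB N c)

lemma AA_prob {N : ℕ} (ν : Measure ℝ) [IsProbabilityMeasure ν] (c : Fin (N + 1)) :
    (PN ν N).real (AA c) = aa ν c * aa ν (N - c) := by
  rw [Measure.real, AA_eq, (mp_GG ν N).measure_preimage (meas_BB N c).nullMeasurableSet,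
    BB_prob ν (show (c : ℕ) + (N - c) = N by omega), ENNReal.toReal_mul]
  rfl

end Pool.Agent.Y168.Bowl
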