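import Mathlib
import Pool.Agent.Y168.Bowl.Walk

set_option autoImplicit false

namespace Pool.Agent.Y168.Bowl

open MeasureTheory Filter Topology ProbabilityTheory Finset

lemma dl_null {ν : Measure ℝ} [IsProbabilityMeasure ν] (hν : ∀ a, ν {a} = 0) (a : ℝ) :
    dl ν {a} = 0 := by
  have hm : Measurable (fun z : ℝ × ℝ => z.1 - z.2) := by fun_prop
  rw [dl, Measure.map_apply hm (measurableSet_singleton a),
    Measure.prod_apply_symm (hm (measurableSet_singleton a))]
  have h : ∀ y, ν ((fun x => (x, y)) ⁻¹' ((fun z : ℝ × ℝ => z.1 - z.2) ⁻¹' {a})) = 0 := by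
    intro y
    refine measure_mono_null (t := {a + y}) ?_ (hν _)
    intro t ht
    have ht' : t - y = a := ht
    rw [Set.mem_singleton_iff]
    linarith
  simp [h]

lemma tie_null {κ : Measure ℝ} [IsProbabilityMeasure κ] (hκ : ∀ a, κ {a} = 0) {N c c' : ℕ}
    (h1 : c < c') (h2 : c' ≤ N) :
    (Measure.pi fun _ : Fin N => κ) {e | ∑ j ∈ Ico c c', xt e j = 0} = 0 := by
  obtain ⟨n, rfl⟩ : ∃ n, N = n + 1 := ⟨N - 1, by omega⟩
  set i : Fin (n + 1) := ⟨c, by omega⟩ with hi
  have hE := measurePreserving_piFinSuccAbove (fun _ : Fin (n + 1) => κ) i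
  have hE' := MeasurePreserving.symm _ hE
  have hS : MeasurableSet {e : Fin (n + 1) → ℝ | ∑ j ∈ Ico c c', xt e j = 0} :=
    measurableSet_eq_fun (Finset.measurable_fun_sum _ fun j _ => meas_xt (n + 1) j)
      measurable_const
  rw [← hE'.measure_preimage hS.nullMeasurableSet, Measure.prod_apply_symm (hE'.measurable hS)]
  have h : ∀ y : Fin n → ℝ, κ ((fun x => (x, y)) ⁻¹'
      ((MeasurableEquiv.piFinSuccAbove (fun _ : Fin (n + 1) => ℝ) i).symm ⁻¹'
        {e : Fin (n + 1) → ℝ | ∑ j ∈ Ico c c', xt e j = 0})) = 0 := by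
    intro y
    refine measure_mono_null (t := {-(∑ j ∈ Ico (c + 1) c',
      xt (i.insertNth (α := fun _ => ℝ) 0 y) j)}) ?_ (hκ _)
    intro t ht
    have ht' : ∑ j ∈ Ico c c', xt (i.insertNth (α := fun _ => ℝ) t y) j = 0 := ht
    rw [Finset.sum_eq_sum_Ico_succ_bot h1] at ht'
    have e1 : xt (i.insertNth (α := fun _ => ℝ) t y) c = t := by
      rw [xt_of_lt _ (show c < n + 1 by omega)]
      exact Fin.insertNth_apply_same (α := fun _ => ℝ) i t y
    have e2 : ∑ j ∈ Ico (c + 1) c', xt (i.insertNth (α := fun _ => ℝ) t y) j =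
        ∑ j ∈ Ico (c + 1) c', xt (i.insertNth (α := fun _ => ℝ) 0 y) j := by
      refine Finset.sum_congr rfl fun j hj => ?_
      have hj' := Finset.mem_Ico.mp hj
      have hjn : j < n + 1 := by omega
      have hne : (⟨j, hjn⟩ : Fin (n + 1)) ≠ i := by
        intro hcon
        have := congrArg Fin.val hcon
        simp only [hi] at this
        omega
      obtain ⟨k, hk⟩ := Fin.exists_succAbove_eq hne
      rw [xt_of_lt _ hjn, xt_of_lt _ hjn, ← hk, Fin.insertNth_apply_succAbove,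
        Fin.insertNth_apply_succAbove]
    rw [e1, e2] at ht'
    rw [Set.mem_singleton_iff]
    linarith
  simp only [h, lintegral_zero]

lemma ae_distinct {ν : Measure ℝ} [IsProbabilityMeasure ν] (hν : ∀ a, ν {a} = 0) (N : ℕ) :
    ∀ᵐ x ∂PN ν N, ∀ c c' : Fin (N + 1), c < c' → V1 x c ≠ V1 x c' := by
  rw [ae_all_iff]; intro c
  rw [ae_all_iff]; intro c'
  by_cases h : c < c'
  · have h0 : PN ν N ((GG (N := N)) ⁻¹' {e | ∑ j ∈ Ico (c : ℕ) c', xt e j = 0}) = 0 := by
      have hS : MeasurableSet {e : Fin N → ℝ | ∑ j ∈ Ico (c : ℕ) c', xt e j = 0} :=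
        measurableSet_eq_fun (Finset.measurable_fun_sum _ fun j _ => meas_xt N j)
          measurable_const
      rw [(mp_GG ν N).measure_preimage hS.nullMeasurableSet]
      exact tie_null (dl_null hν) h (by omega)
    have h1 : ∀ᵐ x ∂PN ν N, x ∉ (GG (N := N)) ⁻¹' {e | ∑ j ∈ Ico (c : ℕ) c', xt e j = 0} :=
      measure_eq_zero_iff_ae_notMem.mp h0
    filter_upwards [h1] with x hx _ heq
    apply hx
    have hlt : (c : ℕ) < c' := h
    have h3 := V1_diff x c ((c' : ℕ) - c) (by omega)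
    have h4 : (⟨(c : ℕ) + ((c' : ℕ) - c), by omega⟩ : Fin (N + 1)) = c' := by
      ext; simp only; omega
    have h5 : (c : ℕ) + ((c' : ℕ) - c) = c' := by omega
    rw [h4, h5] at h3
    show ∑ j ∈ Ico (c : ℕ) c', xt (GG x) j = 0
    linarith
  · exact Eventually.of_forall fun x h' => absurd h' h

lemma ae_mem {ν : Measure ℝ} [IsProbabilityMeasure ν] (hν : ∀ a, ν {a} = 0) (N : ℕ) :
    ∀ᵐ x ∂PN ν N, ∃ c : Fin (N + 1), x ∈ AA c := by
  filter_upwards [ae_distinct hν N] with x hx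
  obtain ⟨c, hc⟩ := Finite.exists_max (V1 x)
  refine ⟨c, fun c' hc' => lt_of_le_of_ne (hc c') ?_⟩
  rcases lt_or_gt_of_ne hc' with h | h
  · exact hx c' c h
  · exact (hx c c' h).symm

lemma AA_disj {N : ℕ} : Pairwise (Function.onFun Disjoint (AA (N := N))) := by
  intro c c' hne
  refine Set.disjoint_left.mpr fun x h1 h2 => ?_
  have a1 := h1 c' (Ne.symm hne)
  have a2 := h2 c hne
  linarith

lemma sum_AA {ν : Measure ℝ} [IsProbabilityMeasure ν] (hν : ∀ a, ν {a} = 0) (N : ℕ) :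
    ∑ c : Fin (N + 1), (PN ν N).real (AA c) = 1 := by
  have h1 := measure_iUnion (μ := PN ν N) (AA_disj (N := N)) (fun c => meas_AA ν c)
  have h2 : PN ν N (⋃ c : Fin (N + 1), AA c) = 1 := by
    have h3 : PN ν N (⋃ c : Fin (N + 1), AA c) = PN ν N Set.univ := by
      refine measure_congr (Filter.eventuallyEq_univ.mpr ?_)
      filter_upwards [ae_mem hν N] with x hx
      exact Set.mem_iUnion.mpr hx
    rw [h3, measure_univ]
  rw [h2, tsum_fintype] at h1
  have h4 := congrArg ENNReal.toReal h1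
  rw [ENNReal.toReal_one, ENNReal.toReal_sum (fun c _ => measure_ne_top _ _)] at h4
  exact h4.symm

lemma aa_eq_bb {ν : Measure ℝ} [IsProbabilityMeasure ν] (hν : ∀ a, ν {a} = 0) (k : ℕ) :
    aa ν k = bb k := by
  refine eq_bb (aa_zero ν) (fun N => ?_) k
  rw [Finset.Nat.sum_antidiagonal_eq_sum_range_succ (fun i j => aa ν i * aa ν j) N,
    Finset.sum_range]
  rw [← sum_AA hν N]
  refine Finset.sum_congr rfl fun c _ => ?_
  rw [AA_prob]

lemma AA_prob_eq {ν : Measure ℝ} [IsProbabilityMeasure ν] (hν : ∀ a, ν {a} = 0) {N : ℕ}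
    (c : Fin (N + 1)) : (PN ν N).real (AA c) = bb c * bb (N - c) := by
  rw [AA_prob, aa_eq_bb hν, aa_eq_bb hν]

/-- the path probabilities decrease strictly towards the middle -/
lemma AA_anti {ν : Measure ℝ} [IsProbabilityMeasure ν] (hν : ∀ a, ν {a} = 0) {N : ℕ}
    {i j : Fin (N + 1)} (h : min (i : ℕ) (N - i) < min (j : ℕ) (N - j)) :
    (PN ν N).real (AA j) < (PN ν N).real (AA i) := by
  have key : ∀ k : Fin (N + 1), (PN ν N).real (AA k) =
      bb (min (k : ℕ) (N - k)) * bb (N - min (k : ℕ) (N - k)) := by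
    intro k
    rw [AA_prob_eq hν]
    rcases le_total (k : ℕ) (N - k) with h1 | h1
    · rw [min_eq_left h1]
    · rw [min_eq_right h1]
      have : N - (N - (k : ℕ)) = k := by omega
      rw [this, mul_comm]
  rw [key i, key j]
  exact bb_anti _ _ h (by omega)

end Pool.Agent.Y168.Bowl
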