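import Mathlib
import Pool.Agent.Results.MP_eb4cdf_pr.InvertedBowl

set_option autoImplicit false

namespace Pool.Agent.Y168.Bowl

open MeasureTheory Filter Topology
open Pool.Agent.Results.MP_eb4cdf_pr.InvertedBowl

/-- Total work along the three monotone lattice paths from (job `1`, station `1`) to
(job `2`, station `3`); path `c` changes from job `1` to job `2` at station `c + 1`.
Here `x i j` is the work of job `i + 1` at station `j + 1`. -/
noncomputable def pathWork (x : Fin 2 → Fin 3 → ℝ) : Fin 3 → ℝ :=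
  ![x 0 0 + x 1 0 + x 1 1 + x 1 2, x 0 0 + x 0 1 + x 1 1 + x 1 2, x 0 0 + x 0 1 + x 0 2 + x 1 2]

/-- The part of the work of path `c` that is done at the middle station. -/
noncomputable def midWork (x : Fin 2 → Fin 3 → ℝ) : Fin 3 → ℝ :=
  ![x 1 1, x 0 1 + x 1 1, x 0 1]

/-- The largest total work of a path. -/
noncomputable def maxWork (x : Fin 2 → Fin 3 → ℝ) : ℝ :=
  max (max (pathWork x 0) (pathWork x 1)) (pathWork x 2)

/-- `midWork x c` if path `c` has the largest total work, and `0` otherwise. -/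
noncomputable def critTerm (x : Fin 2 → Fin 3 → ℝ) (c : Fin 3) : ℝ :=
  if pathWork x c = maxWork x then midWork x c else 0

/-- For nonnegative works: the largest amount of work of the middle station along a path of
largest total work. -/
noncomputable def critMid (x : Fin 2 → Fin 3 → ℝ) : ℝ :=
  max (max (critTerm x 0) (critTerm x 1)) (critTerm x 2)

/-- sum of all works -/
noncomputable def tot (x : Fin 2 → Fin 3 → ℝ) : ℝ :=
  x 0 0 + x 0 1 + x 0 2 + x 1 0 + x 1 1 + x 1 2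

lemma L_eq (x : Fin 2 → Fin 3 → ℝ) (α β : ℝ) :
    L x α β α = max (max (α * (pathWork x 0 - midWork x 0) + β * midWork x 0)
      (α * (pathWork x 1 - midWork x 1) + β * midWork x 1))
      (α * (pathWork x 2 - midWork x 2) + β * midWork x 2) := by
  simp only [L, pathWork, midWork, Matrix.cons_val_zero, Matrix.cons_val_one, Matrix.cons_val]
  rw [← max_add_add_left, ← max_add_add_left]
  congr 1
  · congr 1 <;> ring
  · ring

lemma le_maxWork (x : Fin 2 → Fin 3 → ℝ) (c : Fin 3) : pathWork x c ≤ maxWork x := by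
  fin_cases c
  · exact (le_max_left _ _).trans (le_max_left _ _)
  · exact (le_max_right _ _).trans (le_max_left _ _)
  · exact le_max_right _ _

lemma maxWork_eq_L (x : Fin 2 → Fin 3 → ℝ) : maxWork x = L x 1 1 1 := by
  rw [L_eq]; simp [maxWork]

lemma midWork_nonneg {x : Fin 2 → Fin 3 → ℝ} (hx : ∀ i j, 0 ≤ x i j) (c : Fin 3) :
    0 ≤ midWork x c := by
  fin_cases c
  · exact hx 1 1
  · exact add_nonneg (hx 0 1) (hx 1 1)
  · exact hx 0 1

lemma midWork_le_pathWork {x : Fin 2 → Fin 3 → ℝ} (hx : ∀ i j, 0 ≤ x i j) (c : Fin 3) :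
    midWork x c ≤ pathWork x c := by
  have h1 := hx 0 0; have h2 := hx 0 1; have h3 := hx 0 2
  have h4 := hx 1 0; have h5 := hx 1 1; have h6 := hx 1 2
  fin_cases c
  · show x 1 1 ≤ x 0 0 + x 1 0 + x 1 1 + x 1 2; linarith
  · show x 0 1 + x 1 1 ≤ x 0 0 + x 0 1 + x 1 1 + x 1 2; linarith
  · show x 0 1 ≤ x 0 0 + x 0 1 + x 0 2 + x 1 2; linarith

lemma pathWork_le_tot {x : Fin 2 → Fin 3 → ℝ} (hx : ∀ i j, 0 ≤ x i j) (c : Fin 3) :
    pathWork x c ≤ tot x := by
  have h1 := hx 0 0; have h2 := hx 0 1; have h3 := hx 0 2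
  have h4 := hx 1 0; have h5 := hx 1 1; have h6 := hx 1 2
  unfold tot
  fin_cases c
  · show x 0 0 + x 1 0 + x 1 1 + x 1 2 ≤ _; linarith
  · show x 0 0 + x 0 1 + x 1 1 + x 1 2 ≤ _; linarith
  · show x 0 0 + x 0 1 + x 0 2 + x 1 2 ≤ _; linarith

lemma exists_max (x : Fin 2 → Fin 3 → ℝ) : ∃ c, pathWork x c = maxWork x := by
  unfold maxWork
  rcases max_choice (max (pathWork x 0) (pathWork x 1)) (pathWork x 2) with h | h
  · rcases max_choice (pathWork x 0) (pathWork x 1) with h' | h'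
    · exact ⟨0, by rw [h, h']⟩
    · exact ⟨1, by rw [h, h']⟩
  · exact ⟨2, h.symm⟩

lemma critTerm_le (x : Fin 2 → Fin 3 → ℝ) (c : Fin 3) : critTerm x c ≤ critMid x := by
  fin_cases c
  · exact (le_max_left _ _).trans (le_max_left _ _)
  · exact (le_max_right _ _).trans (le_max_left _ _)
  · exact le_max_right _ _

lemma critMid_ge {x : Fin 2 → Fin 3 → ℝ} {c : Fin 3} (hc : pathWork x c = maxWork x) :
    midWork x c ≤ critMid x := by
  have := critTerm_le x c
  rwa [critTerm, if_pos hc] at this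

lemma exists_crit {x : Fin 2 → Fin 3 → ℝ} (hx : ∀ i j, 0 ≤ x i j) :
    ∃ c, pathWork x c = maxWork x ∧ midWork x c = critMid x := by
  have h0 : ∃ c, critTerm x c = critMid x := by
    unfold critMid
    rcases max_choice (max (critTerm x 0) (critTerm x 1)) (critTerm x 2) with h | h
    · rcases max_choice (critTerm x 0) (critTerm x 1) with h' | h'
      · exact ⟨0, by rw [h, h']⟩
      · exact ⟨1, by rw [h, h']⟩
    · exact ⟨2, h.symm⟩
  obtain ⟨c, hc⟩ := h0
  by_cases h : pathWork x c = maxWork x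
  · exact ⟨c, h, by rw [← hc, critTerm, if_pos h]⟩
  · rw [critTerm, if_neg h] at hc
    obtain ⟨d, hd⟩ := exists_max x
    refine ⟨d, hd, le_antisymm (critMid_ge hd) ?_⟩
    rw [← hc]
    exact midWork_nonneg hx d

lemma critMid_nonneg {x : Fin 2 → Fin 3 → ℝ} (hx : ∀ i j, 0 ≤ x i j) : 0 ≤ critMid x := by
  obtain ⟨c, _, h⟩ := exists_crit hx
  rw [← h]; exact midWork_nonneg hx c

lemma critMid_le {x : Fin 2 → Fin 3 → ℝ} (hx : ∀ i j, 0 ≤ x i j) : critMid x ≤ tot x := by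
  obtain ⟨c, _, h⟩ := exists_crit hx
  rw [← h]; exact (midWork_le_pathWork hx c).trans (pathWork_le_tot hx c)

lemma maxWork_nonneg {x : Fin 2 → Fin 3 → ℝ} (hx : ∀ i j, 0 ≤ x i j) : 0 ≤ maxWork x :=
  ((midWork_nonneg hx 0).trans (midWork_le_pathWork hx 0)).trans (le_maxWork x 0)

lemma maxWork_le {x : Fin 2 → Fin 3 → ℝ} (hx : ∀ i j, 0 ≤ x i j) : maxWork x ≤ tot x := by
  obtain ⟨c, hc⟩ := exists_max x
  rw [← hc]; exact pathWork_le_tot hx c

/-- value of a path at the speeds `1/(3-ε), (1-ε)/(3-ε), 1/(3-ε)` -/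
lemma val_eq {ε : ℝ} (hε : ε < 1) (T W : ℝ) :
    (3 - ε) * (T - W) + (3 - ε) / (1 - ε) * W =
      3 * T + ε * (3 * W - T) + 2 * ε ^ 2 / (1 - ε) * W := by
  have h : (1 - ε) ≠ 0 := by linarith
  field_simp
  ring

/-- The subgradient inequality at equal speeds. -/
lemma L_ge_sub {x : Fin 2 → Fin 3 → ℝ} (hx : ∀ i j, 0 ≤ x i j) {ε : ℝ} (hε : ε < 1) :
    3 * maxWork x + ε * (3 * critMid x - maxWork x) ≤ L x (3 - ε) ((3 - ε) / (1 - ε)) (3 - ε) := by
  obtain ⟨c, hc, hw⟩ := exists_crit hx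
  have h1 : 0 ≤ 2 * ε ^ 2 / (1 - ε) * midWork x c :=
    mul_nonneg (div_nonneg (by positivity) (by linarith)) (midWork_nonneg hx c)
  have h2 := val_eq hε (pathWork x c) (midWork x c)
  rw [hc, hw] at h2
  rw [hw] at h1
  have h3 : (3 - ε) * (pathWork x c - midWork x c) + (3 - ε) / (1 - ε) * midWork x c ≤
      L x (3 - ε) ((3 - ε) / (1 - ε)) (3 - ε) := by
    rw [L_eq]
    fin_cases c
    · exact (le_max_left _ _).trans (le_max_left _ _)
    · exact (le_max_right _ _).trans (le_max_left _ _)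
    · exact le_max_right _ _
  rw [hc, hw] at h3
  linarith

lemma L_le_of {x : Fin 2 → Fin 3 → ℝ} {α β B : ℝ}
    (h : ∀ c, α * (pathWork x c - midWork x c) + β * midWork x c ≤ B) : L x α β α ≤ B := by
  rw [L_eq]
  exact max_le (max_le (h 0) (h 1)) (h 2)

/-- crude upper bound for the increment -/
lemma L_le_crude {x : Fin 2 → Fin 3 → ℝ} (hx : ∀ i j, 0 ≤ x i j) {ε : ℝ} (h0 : 0 ≤ ε)
    (hε : ε ≤ 1 / 2) :
    L x (3 - ε) ((3 - ε) / (1 - ε)) (3 - ε) ≤ 3 * maxWork x + ε * (5 * tot x) := by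
  refine L_le_of fun c => ?_
  rw [val_eq (by linarith)]
  have h1 := le_maxWork x c
  have h2 := midWork_nonneg hx c
  have h3 := midWork_le_pathWork hx c
  have h4 := pathWork_le_tot hx c
  have h5 : 2 * ε ^ 2 / (1 - ε) ≤ 2 * ε := by
    rw [div_le_iff₀ (by linarith)]
    nlinarith
  have h6 := mul_le_mul_of_nonneg_right h5 h2
  have h7 : ε * (3 * midWork x c - pathWork x c) ≤ ε * (3 * tot x) :=
    mul_le_mul_of_nonneg_left (by linarith) h0
  have h8 : 2 * ε * midWork x c ≤ ε * (2 * tot x) := by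
    have := mul_le_mul_of_nonneg_left (h3.trans h4) h0
    linarith
  linarith

/-- the sharp upper bound for small `ε` -/
lemma L_le_sharp {x : Fin 2 → Fin 3 → ℝ} (hx : ∀ i j, 0 ≤ x i j) :
    ∀ᶠ ε : ℝ in 𝓝[>] 0, L x (3 - ε) ((3 - ε) / (1 - ε)) (3 - ε) ≤
      3 * maxWork x + ε * (3 * critMid x - maxWork x) + ε * (4 * ε * tot x) := by
  have hc : ∀ c : Fin 3, ∀ᶠ ε : ℝ in 𝓝[>] 0,
      3 * pathWork x c + ε * (3 * midWork x c - pathWork x c) ≤
        3 * maxWork x + ε * (3 * critMid x - maxWork x) := by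
    intro c
    by_cases h : pathWork x c = maxWork x
    · filter_upwards [self_mem_nhdsWithin] with ε hε
      have h1 := critMid_ge h
      rw [h]
      have := mul_le_mul_of_nonneg_left h1 (le_of_lt (show (0:ℝ) < ε from hε))
      linarith
    · have hlt : pathWork x c < maxWork x := lt_of_le_of_ne (le_maxWork x c) h
      have hcont : Tendsto (fun ε : ℝ => 3 * pathWork x c +
          ε * (3 * midWork x c - pathWork x c) - (3 * maxWork x +
            ε * (3 * critMid x - maxWork x))) (𝓝[>] 0)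
          (𝓝 (3 * pathWork x c + 0 * (3 * midWork x c - pathWork x c) - (3 * maxWork x +
            0 * (3 * critMid x - maxWork x)))) := by
        refine tendsto_nhdsWithin_of_tendsto_nhds ?_
        exact Continuous.tendsto (f := fun ε : ℝ => 3 * pathWork x c +
          ε * (3 * midWork x c - pathWork x c) - (3 * maxWork x +
            ε * (3 * critMid x - maxWork x))) (by fun_prop) 0
      have h0 : 3 * pathWork x c + 0 * (3 * midWork x c - pathWork x c) - (3 * maxWork x +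
            0 * (3 * critMid x - maxWork x)) < 0 := by linarith
      filter_upwards [hcont.eventually_lt_const h0] with ε hε
      linarith
  have hsmall : ∀ᶠ ε : ℝ in 𝓝[>] 0, ε < 1 / 2 :=
    tendsto_nhdsWithin_of_tendsto_nhds (f := fun ε : ℝ => ε) (fun _ h => h)
      |>.eventually_lt_const (by norm_num)
  filter_upwards [hc 0, hc 1, hc 2, hsmall, self_mem_nhdsWithin] with ε h0 h1 h2 hs hpos
  have hpos' : (0 : ℝ) < ε := hpos
  refine L_le_of fun c => ?_
  rw [val_eq (by linarith)]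
  have h3 : 3 * pathWork x c + ε * (3 * midWork x c - pathWork x c) ≤
        3 * maxWork x + ε * (3 * critMid x - maxWork x) := by
    fin_cases c
    · exact h0
    · exact h1
    · exact h2
  have h4 := midWork_nonneg hx c
  have h5 := (midWork_le_pathWork hx c).trans (pathWork_le_tot hx c)
  have h6 : 2 * ε ^ 2 / (1 - ε) ≤ 4 * ε ^ 2 := by
    rw [div_le_iff₀ (by linarith)]
    nlinarith [sq_nonneg ε]
  have h7 := mul_le_mul_of_nonneg_right h6 h4
  have h8 := mul_le_mul_of_nonneg_left h5 (show 0 ≤ 4 * ε ^ 2 by positivity)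
  have h9 : ε * (4 * ε * tot x) = 4 * ε ^ 2 * tot x := by ring
  linarith

lemma L_rev (x : Fin 2 → Fin 3 → ℝ) (α β γ : ℝ) :
    L (fun i j => x (Fin.rev i) (Fin.rev j)) α β γ = L x γ β α := by
  have e0 : Fin.rev (0 : Fin 2) = 1 := rfl
  have e1 : Fin.rev (1 : Fin 2) = 0 := rfl
  have f0 : Fin.rev (0 : Fin 3) = 2 := rfl
  have f1 : Fin.rev (1 : Fin 3) = 1 := rfl
  have f2 : Fin.rev (2 : Fin 3) = 0 := rfl
  simp only [L, e0, e1, f0, f1, f2]
  generalize x 0 0 = a; generalize x 0 1 = b; generalize x 0 2 = c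
  generalize x 1 0 = d; generalize x 1 1 = e; generalize x 1 2 = f
  have : max (max (c * α + b * β) (e * β + b * β)) (e * β + d * γ) =
      max (max (d * γ + e * β) (b * β + e * β)) (b * β + c * α) := by
    rw [max_comm (max (d * γ + e * β) (b * β + e * β)), max_comm (d * γ + e * β), ← max_assoc]
    congr 1
    · congr 1 <;> ring
    · ring
  rw [this]; ring

/-- bounds -/
lemma L_le_tot {x : Fin 2 → Fin 3 → ℝ} (hx : ∀ i j, 0 ≤ x i j) {α β γ C : ℝ}
    (hα : α ≤ C) (hβ : β ≤ C) (hγ : γ ≤ C) (hC : 0 ≤ C) : L x α β γ ≤ C * tot x := by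
  unfold L tot
  have a00 := mul_le_mul_of_nonneg_left hα (hx 0 0)
  have a12 := mul_le_mul_of_nonneg_left hγ (hx 1 2)
  have a10 := mul_le_mul_of_nonneg_left hα (hx 1 0)
  have a11 := mul_le_mul_of_nonneg_left hβ (hx 1 1)
  have a01 := mul_le_mul_of_nonneg_left hβ (hx 0 1)
  have a02 := mul_le_mul_of_nonneg_left hγ (hx 0 2)
  have p1 := mul_nonneg (hx 1 0) hC
  have p2 := mul_nonneg (hx 1 1) hC
  have p3 := mul_nonneg (hx 0 1) hC
  have p4 := mul_nonneg (hx 0 2) hC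
  have : max (max (x 1 0 * α + x 1 1 * β) (x 0 1 * β + x 1 1 * β)) (x 0 1 * β + x 0 2 * γ) ≤
      x 1 0 * C + x 1 1 * C + x 0 1 * C + x 0 2 * C := by
    refine max_le (max_le ?_ ?_) ?_ <;> linarith
  linarith

lemma L_nonneg {x : Fin 2 → Fin 3 → ℝ} (hx : ∀ i j, 0 ≤ x i j) {α β γ : ℝ}
    (hα : 0 ≤ α) (hβ : 0 ≤ β) (hγ : 0 ≤ γ) : 0 ≤ L x α β γ := by
  unfold L
  have a00 := mul_nonneg (hx 0 0) hα
  have a12 := mul_nonneg (hx 1 2) hγ
  have a11 := mul_nonneg (hx 1 1) hβ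
  have a01 := mul_nonneg (hx 0 1) hβ
  have : 0 ≤ max (max (x 1 0 * α + x 1 1 * β) (x 0 1 * β + x 1 1 * β))
      (x 0 1 * β + x 0 2 * γ) :=
    le_max_of_le_left (le_max_of_le_right (add_nonneg a01 a11))
  linarith

lemma L_ge_one {x : Fin 2 → Fin 3 → ℝ} (hx : ∀ i j, 0 ≤ x i j) {s : Fin 3 → ℝ}
    (hs : ∀ j, 0 < s j) (j : Fin 3) :
    ![x 0 0, x 0 1, x 1 2] j * (s j)⁻¹ ≤ L x (s 0)⁻¹ (s 1)⁻¹ (s 2)⁻¹ := by
  have p0 : 0 < (s 0)⁻¹ := inv_pos.mpr (hs 0)
  have p1 : 0 < (s 1)⁻¹ := inv_pos.mpr (hs 1)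
  have p2 : 0 < (s 2)⁻¹ := inv_pos.mpr (hs 2)
  have a0 := mul_nonneg (hx 0 0) p0.le
  have a1 := mul_nonneg (hx 0 1) p1.le
  have a2 := mul_nonneg (hx 0 2) p2.le
  have a3 := mul_nonneg (hx 1 2) p2.le
  have b := le_max_right (max (x 1 0 * (s 0)⁻¹ + x 1 1 * (s 1)⁻¹)
    (x 0 1 * (s 1)⁻¹ + x 1 1 * (s 1)⁻¹)) (x 0 1 * (s 1)⁻¹ + x 0 2 * (s 2)⁻¹)
  simp only [L]
  fin_cases j
  · show x 0 0 * (s 0)⁻¹ ≤ _; linarith
  · show x 0 1 * (s 1)⁻¹ ≤ _; linarith
  · show x 1 2 * (s 2)⁻¹ ≤ _; linarith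

end Pool.Agent.Y168.Bowl
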