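import Mathlib
import Pool.Agent.Y168.Bowl.Det

set_option autoImplicit false

namespace Pool.Agent.Y168.Bowl

open MeasureTheory Filter Topology
open Pool.Agent.Results.MP_eb4cdf_pr.InvertedBowl

/-- the law of the array of works of two jobs at three stations -/
noncomputable def PP (μ : Measure ℝ) : Measure (Fin 2 → Fin 3 → ℝ) :=
  Measure.pi fun _ : Fin 2 => Measure.pi fun _ : Fin 3 => μ

instance instPP (μ : Measure ℝ) [IsProbabilityMeasure μ] : IsProbabilityMeasure (PP μ) := by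
  unfold PP; infer_instance

lemma mp (μ : Measure ℝ) [IsProbabilityMeasure μ] (i : Fin 2) (j : Fin 3) :
    MeasurePreserving (fun x : Fin 2 → Fin 3 → ℝ => x i j) (PP μ) μ :=
  (measurePreserving_eval (fun _ : Fin 3 => μ) j).comp
    (measurePreserving_eval (fun _ : Fin 2 => Measure.pi fun _ : Fin 3 => μ) i)

lemma ae_nn {μ : Measure ℝ} [IsProbabilityMeasure μ] (h0 : ∀ᵐ x ∂μ, 0 ≤ x) :
    ∀ᵐ x ∂PP μ, ∀ i j, 0 ≤ x i j := by
  rw [ae_all_iff]; intro i
  rw [ae_all_iff]; intro j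
  exact (mp μ i j).quasiMeasurePreserving.ae h0

lemma int_coord {μ : Measure ℝ} [IsProbabilityMeasure μ] (h1 : Integrable (fun x : ℝ => x) μ)
    (i : Fin 2) (j : Fin 3) : Integrable (fun x : Fin 2 → Fin 3 → ℝ => x i j) (PP μ) :=
  (mp μ i j).integrable_comp_of_integrable h1

lemma int_tot {μ : Measure ℝ} [IsProbabilityMeasure μ] (h1 : Integrable (fun x : ℝ => x) μ) :
    Integrable tot (PP μ) := by
  unfold tot
  have h := int_coord h1
  exact (((((h 0 0).add (h 0 1)).add (h 0 2)).add (h 1 0)).add (h 1 1)).add (h 1 2)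

lemma meas_L (α β γ : ℝ) : Measurable (fun x : Fin 2 → Fin 3 → ℝ => L x α β γ) := by
  unfold L; fun_prop

lemma int_L {μ : Measure ℝ} [IsProbabilityMeasure μ] (h0 : ∀ᵐ x ∂μ, 0 ≤ x)
    (h1 : Integrable (fun x : ℝ => x) μ) {α β γ : ℝ} (hα : 0 ≤ α) (hβ : 0 ≤ β) (hγ : 0 ≤ γ) :
    Integrable (fun x => L x α β γ) (PP μ) := by
  refine Integrable.mono' ((int_tot h1).const_mul (α + β + γ))
    (meas_L α β γ).aestronglyMeasurable ?_
  filter_upwards [ae_nn h0] with x hx
  rw [Real.norm_of_nonneg (L_nonneg hx hα hβ hγ)]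
  exact L_le_tot hx (by linarith) (by linarith) (by linarith) (by linarith)

lemma meas_pathWork (c : Fin 3) : Measurable (fun x => pathWork x c) := by
  fin_cases c
  · show Measurable (fun x : Fin 2 → Fin 3 → ℝ => x 0 0 + x 1 0 + x 1 1 + x 1 2); fun_prop
  · show Measurable (fun x : Fin 2 → Fin 3 → ℝ => x 0 0 + x 0 1 + x 1 1 + x 1 2); fun_prop
  · show Measurable (fun x : Fin 2 → Fin 3 → ℝ => x 0 0 + x 0 1 + x 0 2 + x 1 2); fun_prop

lemma meas_midWork (c : Fin 3) : Measurable (fun x => midWork x c) := by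
  fin_cases c
  · show Measurable (fun x : Fin 2 → Fin 3 → ℝ => x 1 1); fun_prop
  · show Measurable (fun x : Fin 2 → Fin 3 → ℝ => x 0 1 + x 1 1); fun_prop
  · show Measurable (fun x : Fin 2 → Fin 3 → ℝ => x 0 1); fun_prop

lemma meas_maxWork : Measurable maxWork :=
  ((meas_pathWork 0).max (meas_pathWork 1)).max (meas_pathWork 2)

lemma meas_critTerm (c : Fin 3) : Measurable (fun x => critTerm x c) :=
  Measurable.ite (measurableSet_eq_fun (meas_pathWork c) meas_maxWork) (meas_midWork c)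
    measurable_const

lemma meas_critMid : Measurable critMid :=
  ((meas_critTerm 0).max (meas_critTerm 1)).max (meas_critTerm 2)

lemma int_maxWork {μ : Measure ℝ} [IsProbabilityMeasure μ] (h0 : ∀ᵐ x ∂μ, 0 ≤ x)
    (h1 : Integrable (fun x : ℝ => x) μ) : Integrable maxWork (PP μ) := by
  refine Integrable.mono' (int_tot h1) meas_maxWork.aestronglyMeasurable ?_
  filter_upwards [ae_nn h0] with x hx
  rw [Real.norm_of_nonneg (maxWork_nonneg hx)]
  exact maxWork_le hx

lemma int_critMid {μ : Measure ℝ} [IsProbabilityMeasure μ] (h0 : ∀ᵐ x ∂μ, 0 ≤ x)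
    (h1 : Integrable (fun x : ℝ => x) μ) : Integrable critMid (PP μ) := by
  refine Integrable.mono' (int_tot h1) meas_critMid.aestronglyMeasurable ?_
  filter_upwards [ae_nn h0] with x hx
  rw [Real.norm_of_nonneg (critMid_nonneg hx)]
  exact critMid_le hx

/-- the expected makespan in the covered regimes -/
noncomputable def FF (μ : Measure ℝ) (s : Fin 3 → ℝ) : ℝ :=
  ∫ x, L x (s 0)⁻¹ (s 1)⁻¹ (s 2)⁻¹ ∂PP μ

lemma exp_eq {μ : Measure ℝ} [IsProbabilityMeasure μ] (h0 : ∀ᵐ x ∂μ, 0 ≤ x) (r : Regime)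
    (hr : Covered r) (s : Fin 3 → ℝ) (hs : ∀ j, 0 < s j) :
    expMakespan μ r 2 3 s = FF μ s := by
  refine integral_congr_ae ?_
  filter_upwards [ae_nn h0] with x hx
  exact depart_eq r hr x hx s hs

lemma FF_conv {μ : Measure ℝ} [IsProbabilityMeasure μ] (h0 : ∀ᵐ x ∂μ, 0 ≤ x)
    (h1 : Integrable (fun x : ℝ => x) μ) {t : ℝ} (ht : 0 ≤ t) (ht1 : t ≤ 1) {p q : Fin 3 → ℝ}
    (hp : ∀ j, 0 < p j) (hq : ∀ j, 0 < q j) :
    FF μ (fun j => t * p j + (1 - t) * q j) ≤ t * FF μ p + (1 - t) * FF μ q := by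
  unfold FF
  have hpos : ∀ j, 0 ≤ (t * p j + (1 - t) * q j)⁻¹ := fun j =>
    inv_nonneg.mpr (add_nonneg (mul_nonneg ht (hp j).le)
      (mul_nonneg (by linarith) (hq j).le))
  have i1 := int_L h0 h1 (hpos 0) (hpos 1) (hpos 2)
  have i2 := int_L h0 h1 (inv_nonneg.mpr (hp 0).le) (inv_nonneg.mpr (hp 1).le)
    (inv_nonneg.mpr (hp 2).le)
  have i3 := int_L h0 h1 (inv_nonneg.mpr (hq 0).le) (inv_nonneg.mpr (hq 1).le)
    (inv_nonneg.mpr (hq 2).le)
  rw [← integral_const_mul, ← integral_const_mul, ← integral_add (i2.const_mul t)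
    (i3.const_mul (1 - t))]
  refine integral_mono_ae i1 ((i2.const_mul t).add (i3.const_mul (1 - t))) ?_
  filter_upwards [ae_nn h0] with x hx
  exact L_conv x hx ht ht1 (inv_conv ht ht1 (hp 0) (hq 0)) (inv_conv ht ht1 (hp 1) (hq 1))
      (inv_conv ht ht1 (hp 2) (hq 2))

lemma map_rev {X : Type*} [MeasurableSpace X] (n : ℕ) (κ : Measure X) [SigmaFinite κ] :
    MeasurePreserving (fun (x : Fin n → X) j => x (Fin.rev j)) (Measure.pi fun _ => κ)
      (Measure.pi fun _ => κ) := by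
  have hm : Measurable (fun (x : Fin n → X) j => x (Fin.rev j)) :=
    measurable_pi_lambda _ (fun j => measurable_pi_apply _)
  refine ⟨hm, (Measure.pi_eq fun s hs => ?_).symm⟩
  rw [Measure.map_apply hm (MeasurableSet.univ_pi hs)]
  have : (fun (x : Fin n → X) j => x (Fin.rev j)) ⁻¹' (Set.univ.pi s) =
      Set.univ.pi (fun j => s (Fin.rev j)) := by
    ext x
    simp only [Set.mem_preimage, Set.mem_univ_pi]
    exact ⟨fun h j => by simpa using h (Fin.rev j), fun h j => by simpa using h (Fin.rev j)⟩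
  rw [this, Measure.pi_pi]
  exact Equiv.prod_comp Fin.revPerm (fun j => κ (s j))

lemma mp_rev (μ : Measure ℝ) [IsProbabilityMeasure μ] :
    MeasurePreserving (fun (x : Fin 2 → Fin 3 → ℝ) i j => x (Fin.rev i) (Fin.rev j))
      (PP μ) (PP μ) :=
  (measurePreserving_pi (fun _ : Fin 2 => Measure.pi fun _ : Fin 3 => μ)
    (fun _ : Fin 2 => Measure.pi fun _ : Fin 3 => μ) (fun _ => map_rev 3 μ)).comp
    (map_rev 2 (Measure.pi fun _ : Fin 3 => μ))

lemma FF_rev (μ : Measure ℝ) [IsProbabilityMeasure μ] (s : Fin 3 → ℝ) :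
    FF μ (fun j => s (Fin.rev j)) = FF μ s := by
  have f0 : Fin.rev (0 : Fin 3) = 2 := rfl
  have f1 : Fin.rev (1 : Fin 3) = 1 := rfl
  have f2 : Fin.rev (2 : Fin 3) = 0 := rfl
  unfold FF
  simp only [f0, f1, f2]
  calc ∫ x, L x (s 2)⁻¹ (s 1)⁻¹ (s 0)⁻¹ ∂PP μ
      = ∫ x, L x (s 2)⁻¹ (s 1)⁻¹ (s 0)⁻¹ ∂(Measure.map
        (fun (x : Fin 2 → Fin 3 → ℝ) i j => x (Fin.rev i) (Fin.rev j)) (PP μ)) := by
        rw [(mp_rev μ).map_eq]
    _ = ∫ x, L (fun i j => x (Fin.rev i) (Fin.rev j)) (s 2)⁻¹ (s 1)⁻¹ (s 0)⁻¹ ∂PP μ :=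
        integral_map (mp_rev μ).measurable.aemeasurable
          (meas_L _ _ _).aestronglyMeasurable
    _ = _ := by simp only [L_rev]

/-- the symmetric allocations, parametrised so that the outer inverse speed is `3 - ε` -/
noncomputable def sE (ε : ℝ) : Fin 3 → ℝ := ![1 / (3 - ε), (1 - ε) / (3 - ε), 1 / (3 - ε)]

lemma sE_pos {ε : ℝ} (hε : ε < 1) (j : Fin 3) : 0 < sE ε j := by
  have h3 : 0 < 3 - ε := by linarith
  have h1 : 0 < 1 - ε := by linarith
  fin_cases j
  · show 0 < 1 / (3 - ε); positivity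
  · show 0 < (1 - ε) / (3 - ε); positivity
  · show 0 < 1 / (3 - ε); positivity

lemma sE_mem {ε : ℝ} (hε : ε < 1) : sE ε ∈ allocations 3 := by
  refine ⟨sE_pos hε, ?_⟩
  have h3 : (3 - ε) ≠ 0 := by linarith
  rw [Fin.sum_univ_three]
  show 1 / (3 - ε) + (1 - ε) / (3 - ε) + 1 / (3 - ε) = 1
  field_simp
  ring

lemma FF_sE (μ : Measure ℝ) (ε : ℝ) :
    FF μ (sE ε) = ∫ x, L x (3 - ε) ((3 - ε) / (1 - ε)) (3 - ε) ∂PP μ := by
  unfold FF
  have e0 : (sE ε 0)⁻¹ = 3 - ε := by
    show (1 / (3 - ε))⁻¹ = _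
    rw [one_div, inv_inv]
  have e1 : (sE ε 1)⁻¹ = (3 - ε) / (1 - ε) := by
    show ((1 - ε) / (3 - ε))⁻¹ = _
    rw [inv_div]
  have e2 : (sE ε 2)⁻¹ = 3 - ε := by
    show (1 / (3 - ε))⁻¹ = _
    rw [one_div, inv_inv]
  rw [e0, e1, e2]

lemma FF_sE0 (μ : Measure ℝ) : FF μ (sE 0) = 3 * ∫ x, maxWork x ∂PP μ := by
  rw [FF_sE, ← integral_const_mul]
  congr 1
  ext x
  rw [maxWork_eq_L, ← L_smul x (by norm_num : (0 : ℝ) ≤ 3)]
  norm_num

lemma int_Lε {μ : Measure ℝ} [IsProbabilityMeasure μ] (h0 : ∀ᵐ x ∂μ, 0 ≤ x)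
    (h1 : Integrable (fun x : ℝ => x) μ) {ε : ℝ} (hε : ε < 1) :
    Integrable (fun x => L x (3 - ε) ((3 - ε) / (1 - ε)) (3 - ε)) (PP μ) :=
  int_L h0 h1 (by linarith) (div_nonneg (by linarith) (by linarith)) (by linarith)

lemma FF_ge_sub {μ : Measure ℝ} [IsProbabilityMeasure μ] (h0 : ∀ᵐ x ∂μ, 0 ≤ x)
    (h1 : Integrable (fun x : ℝ => x) μ) {ε : ℝ} (hε : ε < 1) :
    3 * ∫ x, maxWork x ∂PP μ + ε * (3 * ∫ x, critMid x ∂PP μ - ∫ x, maxWork x ∂PP μ) ≤
      FF μ (sE ε) := by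
  rw [FF_sE]
  have i1 := int_maxWork h0 h1
  have i2 := int_critMid h0 h1
  have : 3 * ∫ x, maxWork x ∂PP μ + ε * (3 * ∫ x, critMid x ∂PP μ - ∫ x, maxWork x ∂PP μ) =
      ∫ x, (3 * maxWork x + ε * (3 * critMid x - maxWork x)) ∂PP μ := by
    have j1 : Integrable (fun x => 3 * maxWork x) (PP μ) := i1.const_mul 3
    have j2 : Integrable (fun x => 3 * critMid x - maxWork x) (PP μ) := (i2.const_mul 3).sub i1
    have j3 : Integrable (fun x => ε * (3 * critMid x - maxWork x)) (PP μ) := j2.const_mul ε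
    rw [integral_add j1 j3, integral_const_mul, integral_const_mul,
      integral_sub (i2.const_mul 3) i1, integral_const_mul]
  rw [this]
  refine integral_mono_ae ((i1.const_mul 3).add (((i2.const_mul 3).sub i1).const_mul ε))
    (int_Lε h0 h1 hε) ?_
  filter_upwards [ae_nn h0] with x hx
  exact L_ge_sub hx hε

lemma tendsto_quot {μ : Measure ℝ} [IsProbabilityMeasure μ] (h0 : ∀ᵐ x ∂μ, 0 ≤ x)
    (h1 : Integrable (fun x : ℝ => x) μ) :
    Tendsto (fun ε : ℝ => ∫ x, (L x (3 - ε) ((3 - ε) / (1 - ε)) (3 - ε) - 3 * maxWork x) / ε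
      ∂PP μ) (𝓝[>] 0) (𝓝 (∫ x, (3 * critMid x - maxWork x) ∂PP μ)) := by
  have hsmall : ∀ᶠ ε : ℝ in 𝓝[>] 0, ε < 1 / 2 :=
    tendsto_nhdsWithin_of_tendsto_nhds (f := fun ε : ℝ => ε) (fun _ h => h)
      |>.eventually_lt_const (by norm_num)
  refine tendsto_integral_filter_of_dominated_convergence (fun x => 5 * tot x) ?_ ?_
    ((int_tot h1).const_mul 5) ?_
  · refine Eventually.of_forall fun ε => ?_
    exact (((meas_L _ _ _).sub (meas_maxWork.const_mul 3)).div_const ε).aestronglyMeasurable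
  · filter_upwards [hsmall, self_mem_nhdsWithin] with ε hs hpos
    have hpos' : (0 : ℝ) < ε := hpos
    filter_upwards [ae_nn h0] with x hx
    have a1 := L_le_crude hx hpos'.le hs.le
    have a2 := L_ge_sub hx (show ε < 1 by linarith)
    have a3 := maxWork_le hx
    have a4 := critMid_nonneg hx
    have a5 := maxWork_nonneg hx
    rw [Real.norm_eq_abs, abs_le]
    constructor
    · rw [le_div_iff₀ hpos']
      have : (-(5 * tot x)) * ε ≤ ε * (3 * critMid x - maxWork x) := by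
        have := mul_le_mul_of_nonneg_left
          (show -(5 * tot x) ≤ 3 * critMid x - maxWork x by linarith) hpos'.le
        linarith
      linarith
    · rw [div_le_iff₀ hpos']
      linarith
  · filter_upwards [ae_nn h0] with x hx
    have hup : Tendsto (fun ε : ℝ => (3 * critMid x - maxWork x) + 4 * ε * tot x) (𝓝[>] 0)
        (𝓝 (3 * critMid x - maxWork x)) := by
      have : Tendsto (fun ε : ℝ => (3 * critMid x - maxWork x) + 4 * ε * tot x) (𝓝[>] 0)
        (𝓝 ((3 * critMid x - maxWork x) + 4 * 0 * tot x)) := by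
        refine tendsto_nhdsWithin_of_tendsto_nhds ?_
        exact Continuous.tendsto (f := fun ε : ℝ => (3 * critMid x - maxWork x) +
          4 * ε * tot x) (by fun_prop) 0
      simpa using this
    refine tendsto_of_tendsto_of_tendsto_of_le_of_le' tendsto_const_nhds hup ?_ ?_
    · filter_upwards [hsmall, self_mem_nhdsWithin] with ε hs hpos
      have hpos' : (0 : ℝ) < ε := hpos
      rw [le_div_iff₀ hpos']
      have a2 := L_ge_sub hx (show ε < 1 by linarith)
      linarith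
    · filter_upwards [L_le_sharp hx, self_mem_nhdsWithin] with ε hs hpos
      have hpos' : (0 : ℝ) < ε := hpos
      rw [div_le_iff₀ hpos']
      linarith

/-- If the criterion fails then some symmetric allocation with slower middle station is
strictly better than equal speeds. -/
lemma exists_better {μ : Measure ℝ} [IsProbabilityMeasure μ] (h0 : ∀ᵐ x ∂μ, 0 ≤ x)
    (h1 : Integrable (fun x : ℝ => x) μ)
    (h : 3 * ∫ x, critMid x ∂PP μ < ∫ x, maxWork x ∂PP μ) :
    ∃ ε : ℝ, 0 < ε ∧ ε < 1 ∧ FF μ (sE ε) < FF μ (sE 0) := by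
  have i1 := int_maxWork h0 h1
  have i2 := int_critMid h0 h1
  have hneg : ∫ x, (3 * critMid x - maxWork x) ∂PP μ < 0 := by
    rw [integral_sub (i2.const_mul 3) i1, integral_const_mul]
    linarith
  have hsmall : ∀ᶠ ε : ℝ in 𝓝[>] 0, ε < 1 / 2 :=
    tendsto_nhdsWithin_of_tendsto_nhds (f := fun ε : ℝ => ε) (fun _ h => h)
      |>.eventually_lt_const (by norm_num)
  obtain ⟨ε, hε, hs, hpos⟩ := (((tendsto_quot h0 h1).eventually_lt_const hneg).and
    (hsmall.and self_mem_nhdsWithin)).exists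
  have hpos' : (0 : ℝ) < ε := hpos
  refine ⟨ε, hpos', by linarith, ?_⟩
  rw [integral_div, integral_sub (int_Lε h0 h1 (by linarith)) (i1.const_mul 3),
    integral_const_mul, div_lt_iff₀ hpos'] at hε
  rw [FF_sE0, FF_sE]
  linarith

/-! ### Existence of an optimal allocation -/

lemma FF_ge_one {μ : Measure ℝ} [IsProbabilityMeasure μ] (h0 : ∀ᵐ x ∂μ, 0 ≤ x)
    (h1 : Integrable (fun x : ℝ => x) μ) {s : Fin 3 → ℝ} (hs : ∀ j, 0 < s j) (j : Fin 3) :
    (∫ x, x ∂μ) * (s j)⁻¹ ≤ FF μ s := by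
  have hi : ∀ j : Fin 3, Integrable (fun x : Fin 2 → Fin 3 → ℝ => ![x 0 0, x 0 1, x 1 2] j)
      (PP μ) := by
    intro j
    fin_cases j
    · exact int_coord h1 0 0
    · exact int_coord h1 0 1
    · exact int_coord h1 1 2
  have hc : ∀ (i : Fin 2) (j : Fin 3), ∫ x, x i j ∂PP μ = ∫ x, x ∂μ := by
    intro i j
    have := (mp μ i j).map_eq
    calc ∫ x, x i j ∂PP μ = ∫ y, y ∂(Measure.map (fun x : Fin 2 → Fin 3 → ℝ => x i j) (PP μ)) :=
          (integral_map (f := fun y : ℝ => y) (mp μ i j).measurable.aemeasurable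
            measurable_id.aestronglyMeasurable).symm
      _ = _ := by rw [this]
  have hval : ∀ j : Fin 3, ∫ x : Fin 2 → Fin 3 → ℝ, ![x 0 0, x 0 1, x 1 2] j ∂PP μ =
      ∫ x, x ∂μ := by
    intro j
    fin_cases j
    · exact hc 0 0
    · exact hc 0 1
    · exact hc 1 2
  rw [← hval j, ← integral_mul_const]
  refine integral_mono_ae ((hi j).mul_const _) (int_L h0 h1 (inv_nonneg.mpr (hs 0).le)
    (inv_nonneg.mpr (hs 1).le) (inv_nonneg.mpr (hs 2).le)) ?_
  filter_upwards [ae_nn h0] with x hx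
  exact L_ge_one hx hs j

lemma FF_nonneg {μ : Measure ℝ} [IsProbabilityMeasure μ] (h0 : ∀ᵐ x ∂μ, 0 ≤ x)
    {s : Fin 3 → ℝ} (hs : ∀ j, 0 < s j) : 0 ≤ FF μ s := by
  refine integral_nonneg_of_ae ?_
  filter_upwards [ae_nn h0] with x hx
  exact L_nonneg hx (inv_nonneg.mpr (hs 0).le) (inv_nonneg.mpr (hs 1).le)
    (inv_nonneg.mpr (hs 2).le)

lemma exists_opt_FF {μ : Measure ℝ} [IsProbabilityMeasure μ] (h0 : ∀ᵐ x ∂μ, 0 ≤ x)
    (h1 : Integrable (fun x : ℝ => x) μ) :
    ∃ s ∈ allocations 3, ∀ s' ∈ allocations 3, FF μ s ≤ FF μ s' := by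
  have hm : 0 ≤ ∫ x, x ∂μ := integral_nonneg_of_ae h0
  rcases eq_or_lt_of_le hm with hm0 | hmpos
  · -- all works vanish almost surely
    have hz : ∀ᵐ x ∂μ, x = 0 := by
      have := (integral_eq_zero_iff_of_nonneg_ae h0 h1).mp hm0.symm
      filter_upwards [this] with x hx using hx
    have hzz : ∀ᵐ x ∂PP μ, ∀ i j, x i j = 0 := by
      rw [ae_all_iff]; intro i
      rw [ae_all_iff]; intro j
      exact (mp μ i j).quasiMeasurePreserving.ae hz
    have hF : ∀ s, FF μ s = 0 := by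
      intro s
      unfold FF
      rw [← integral_zero (μ := PP μ) (α := Fin 2 → Fin 3 → ℝ) (G := ℝ)]
      refine integral_congr_ae ?_
      filter_upwards [hzz] with x hx
      simp [L, hx]
    exact ⟨sE 0, sE_mem (by norm_num), fun s' _ => by rw [hF, hF]⟩
  · set m1 := ∫ x, x ∂μ with hm1
    set B := FF μ (sE 0) with hB
    have hBnn : 0 ≤ B := FF_nonneg h0 (sE_pos (by norm_num))
    set η : ℝ := min (1 / 3) (m1 / (B + 1)) with hη
    have hηpos : 0 < η := lt_min (by norm_num) (by positivity)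
    have hη3 : η ≤ 1 / 3 := min_le_left _ _
    set K : Set (Fin 3 → ℝ) := Set.Icc (fun _ => η) (fun _ => 1) ∩ {s | ∑ j, s j = 1} with hK
    have hKc : IsCompact K := isCompact_Icc.inter_right
      (isClosed_eq (by fun_prop) continuous_const)
    have hsE : ∀ j, sE 0 j = 1 / 3 := by
      intro j
      fin_cases j
      · show 1 / (3 - (0:ℝ)) = 1 / 3; norm_num
      · show (1 - (0:ℝ)) / (3 - 0) = 1 / 3; norm_num
      · show 1 / (3 - (0:ℝ)) = 1 / 3; norm_num
    have hKe : sE 0 ∈ K := ⟨⟨fun j => by rw [hsE]; exact hη3, fun j => by rw [hsE]; norm_num⟩,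
      (sE_mem (by norm_num)).2⟩
    have hKpos : ∀ s ∈ K, ∀ j, 0 < s j := fun s hs j => by
      have := hs.1.1 j
      simp only at this
      linarith
    have hcont : ContinuousOn (FF μ) K := by
      refine continuousOn_of_dominated (bound := fun x => η⁻¹ * tot x) ?_ ?_
        ((int_tot h1).const_mul _) ?_
      · intro s _
        exact (meas_L _ _ _).aestronglyMeasurable
      · intro s hs
        have hinv : ∀ j, (s j)⁻¹ ≤ η⁻¹ := fun j => by
          have := hs.1.1 j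
          simp only at this
          exact inv_anti₀ hηpos this
        filter_upwards [ae_nn h0] with x hx
        rw [Real.norm_of_nonneg (L_nonneg hx (inv_nonneg.mpr (hKpos s hs 0).le)
          (inv_nonneg.mpr (hKpos s hs 1).le) (inv_nonneg.mpr (hKpos s hs 2).le))]
        exact L_le_tot hx (hinv 0) (hinv 1) (hinv 2) (inv_nonneg.mpr hηpos.le)
      · refine Eventually.of_forall fun x => ?_
        have hinv : ∀ j : Fin 3, ContinuousOn (fun s : Fin 3 → ℝ => (s j)⁻¹) K := fun j =>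
          (continuous_apply j).continuousOn.inv₀ (fun s hs => (hKpos s hs j).ne')
        have g0 := hinv 0
        have g1 := hinv 1
        have g2 := hinv 2
        unfold L
        fun_prop
    obtain ⟨s0, hs0, hmin⟩ := hKc.exists_isMinOn ⟨sE 0, hKe⟩ hcont
    refine ⟨s0, ⟨hKpos s0 hs0, hs0.2⟩, fun s' hs' => ?_⟩
    by_cases h : s' ∈ K
    · exact hmin h
    · have hle1 : ∀ j, s' j ≤ 1 := fun j => by
        rw [← hs'.2]
        exact Finset.single_le_sum (fun i _ => (hs'.1 i).le) (Finset.mem_univ j)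
      have : ∃ j, s' j < η := by
        by_contra hcon
        push Not at hcon
        exact h ⟨⟨hcon, hle1⟩, hs'.2⟩
      obtain ⟨j, hj⟩ := this
      have g1 : FF μ s0 ≤ B := hmin hKe
      have g2 := FF_ge_one h0 h1 hs'.1 j
      have g3 : B + 1 ≤ m1 * (s' j)⁻¹ := by
        have g4 : s' j ≤ m1 / (B + 1) := hj.le.trans (min_le_right _ _)
        rw [le_div_iff₀ (by linarith)] at g4
        rw [← div_eq_mul_inv, le_div_iff₀ (hs'.1 j)]
        linarith
      linarith

/-! ### The criterion -/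

/-- bowl-shaped allocations are not optimal if the criterion fails -/
lemma not_bowl {μ : Measure ℝ} [IsProbabilityMeasure μ] (h0 : ∀ᵐ x ∂μ, 0 ≤ x)
    (h1 : Integrable (fun x : ℝ => x) μ)
    (h : 3 * ∫ x, critMid x ∂PP μ < ∫ x, maxWork x ∂PP μ) {s : Fin 3 → ℝ}
    (hs : s ∈ allocations 3) (hopt : ∀ s' ∈ allocations 3, FF μ s ≤ FF μ s')
    (hb : BowlShaped s) : False := by
  obtain ⟨ε, hε0, hε1, hlt⟩ := exists_better h0 h1 h
  obtain ⟨hpos, hsum⟩ := hs
  obtain ⟨hsym, hmono⟩ := hb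
  have h20 : s 2 = s 0 := (hsym 2)
  have h01 : s 0 ≤ s 1 := hmono 0 1 (by decide) (by decide)
  have hsum' : s 0 + s 1 + s 2 = 1 := by rw [← hsum, Fin.sum_univ_three]
  have ha : s 0 ≤ 1 / 3 := by linarith
  have hs1 : s 1 = 1 - 2 * s 0 := by linarith
  set a := s 0 with hadef
  set b : ℝ := 1 / (3 - ε) with hbdef
  have hb3 : 1 / 3 < b := by
    rw [hbdef]
    exact one_div_lt_one_div_of_lt (by linarith) (by linarith)
  have hb1 : (1 - ε) / (3 - ε) = 1 - 2 * b := by
    rw [hbdef]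
    have : (3 - ε) ≠ 0 := by linarith
    field_simp
    ring
  set t : ℝ := (b - 1 / 3) / (b - a) with ht
  have hden : 0 < b - a := by linarith
  have ht0 : 0 < t := div_pos (by linarith) hden
  have ht1 : t ≤ 1 := by
    rw [ht, div_le_one hden]; linarith
  have hta : t * (b - a) = b - 1 / 3 := by
    rw [ht]; exact div_mul_cancel₀ _ hden.ne'
  have hcomb : sE 0 = fun j => t * s j + (1 - t) * sE ε j := by
    ext j
    fin_cases j
    · show 1 / (3 - (0:ℝ)) = t * s 0 + (1 - t) * b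
      rw [← hadef]
      linarith
    · show (1 - (0:ℝ)) / (3 - 0) = t * s 1 + (1 - t) * ((1 - ε) / (3 - ε))
      rw [hs1, hb1]
      linarith
    · show 1 / (3 - (0:ℝ)) = t * s 2 + (1 - t) * b
      rw [h20]
      linarith
  have hc := FF_conv h0 h1 ht0.le ht1 hpos (sE_pos hε1)
  rw [← hcomb] at hc
  have hle := hopt (sE ε) (sE_mem hε1)
  have h3 : t * FF μ s ≤ t * FF μ (sE ε) := mul_le_mul_of_nonneg_left hle ht0.le
  linarith

/-- some optimal allocation is bowl-shaped if the criterion holds -/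
lemma exists_bowl {μ : Measure ℝ} [IsProbabilityMeasure μ] (h0 : ∀ᵐ x ∂μ, 0 ≤ x)
    (h1 : Integrable (fun x : ℝ => x) μ)
    (h : ∫ x, maxWork x ∂PP μ ≤ 3 * ∫ x, critMid x ∂PP μ) :
    ∃ s ∈ allocations 3, (∀ s' ∈ allocations 3, FF μ s ≤ FF μ s') ∧ BowlShaped s := by
  obtain ⟨s, hs, hopt⟩ := exists_opt_FF h0 h1
  have hrev : ∀ j, 0 < s (Fin.rev j) := fun j => hs.1 _
  have hc := FF_conv h0 h1 (by norm_num : (0:ℝ) ≤ 1 / 2) (by norm_num) hs.1 hrev
  rw [FF_rev] at hc
  set u : Fin 3 → ℝ := fun j => 1 / 2 * s j + (1 - 1 / 2) * s (Fin.rev j) with hu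
  have hupos : ∀ j, 0 < u j := fun j => by
    have := hs.1 j
    have := hrev j
    simp only [hu]
    linarith
  have f0 : Fin.rev (0 : Fin 3) = 2 := rfl
  have f1 : Fin.rev (1 : Fin 3) = 1 := rfl
  have f2 : Fin.rev (2 : Fin 3) = 0 := rfl
  have hsum' : s 0 + s 1 + s 2 = 1 := by rw [← hs.2, Fin.sum_univ_three]
  have u0 : u 0 = (s 0 + s 2) / 2 := by simp only [hu, f0]; ring
  have u1 : u 1 = s 1 := by simp only [hu, f1]; ring
  have u2 : u 2 = (s 0 + s 2) / 2 := by simp only [hu, f2]; ring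
  have husum : ∑ j, u j = 1 := by rw [Fin.sum_univ_three, u0, u1, u2]; linarith
  have huopt : ∀ s' ∈ allocations 3, FF μ u ≤ FF μ s' := fun s' hs' => by
    have := hopt s' hs'
    linarith
  have hbowl : ∀ w : Fin 3 → ℝ, w 0 = w 2 → w 0 ≤ w 1 → BowlShaped w := by
    intro w hw hw1
    refine ⟨fun j => ?_, fun i j hij hj => ?_⟩
    · fin_cases j
      · exact hw
      · rfl
      · exact hw.symm
    · have hj2 : (j : ℕ) < 2 := by omega
      have hi2 : (i : ℕ) ≤ j := hij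
      fin_cases i <;> fin_cases j
      · exact le_rfl
      · exact hw1
      · exact absurd hj2 (by decide)
      · exact absurd hi2 (by decide)
      · exact le_rfl
      · exact absurd hj2 (by decide)
      · exact absurd hi2 (by decide)
      · exact absurd hi2 (by decide)
      · exact absurd hj2 (by decide)
  by_cases hcase : u 0 ≤ u 1
  · exact ⟨u, ⟨hupos, husum⟩, huopt, hbowl u (by rw [u0, u2]) hcase⟩
  · push Not at hcase
    -- the middle station is strictly slower: equal speeds are at least as good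
    have hsu : u 0 + u 1 + u 2 = 1 := by rw [← husum, Fin.sum_univ_three]
    have h02 : u 0 = u 2 := by rw [u0, u2]
    have ha3 : 1 / 3 < u 0 := by linarith
    have hp1 := hupos 1
    have hp0 := hupos 0
    set ε : ℝ := 3 - 1 / u 0 with hε
    have hε0 : 0 ≤ ε := by
      have : 1 / u 0 ≤ 3 := by
        rw [div_le_iff₀ hp0]; linarith
      linarith
    have hε1 : ε < 1 := by
      have : 2 < 1 / u 0 := by
        rw [lt_div_iff₀ hp0]; linarith
      linarith
    have h3ε : 3 - ε = 1 / u 0 := by rw [hε]; ring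
    have hueq : u = sE ε := by
      ext j
      fin_cases j
      · show u 0 = 1 / (3 - ε)
        rw [h3ε, one_div_one_div]
      · show u 1 = (1 - ε) / (3 - ε)
        rw [h3ε, hε, div_div_eq_mul_div, div_one]
        have : (1 - (3 - 1 / u 0)) * u 0 = 1 - 2 * u 0 := by
          field_simp
          ring
        rw [this]; linarith
      · show u 2 = 1 / (3 - ε)
        rw [h3ε, one_div_one_div, h02]
    have hge := FF_ge_sub h0 h1 hε1
    rw [← hueq] at hge
    have hle : FF μ (sE 0) ≤ FF μ u := by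
      rw [FF_sE0]
      have := mul_nonneg hε0 (show 0 ≤ 3 * ∫ x, critMid x ∂PP μ - ∫ x, maxWork x ∂PP μ by
        linarith)
      linarith
    refine ⟨sE 0, sE_mem (by norm_num), fun s' hs' => hle.trans (huopt s' hs'),
      hbowl _ rfl ?_⟩
    show 1 / (3 - (0:ℝ)) ≤ (1 - 0) / (3 - 0)
    norm_num

end Pool.Agent.Y168.Bowl
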