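import Mathlib
import Pool.Agent.Y168.Bowl.Crit

set_option autoImplicit false

namespace Pool.Agent.Y168.Bowl

open MeasureTheory Filter Topology ProbabilityTheory
open Pool.Agent.Results.MP_eb4cdf_pr.InvertedBowl

/-- the law of `M + Y` when `Y` has law `ν` -/
noncomputable def shiftLaw (ν : Measure ℝ) (M : ℝ) : Measure ℝ := ν.map (fun y => M + y)

lemma meas_shift (M : ℝ) : Measurable (fun y : ℝ => M + y) := measurable_const_add M

instance instShift (ν : Measure ℝ) [IsProbabilityMeasure ν] (M : ℝ) :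
    IsProbabilityMeasure (shiftLaw ν M) :=
  Measure.isProbabilityMeasure_map (meas_shift M).aemeasurable

lemma shift_nn {ν : Measure ℝ} [IsProbabilityMeasure ν] (h0 : ∀ᵐ x ∂ν, 0 ≤ x) {M : ℝ}
    (hM : 0 ≤ M) : ∀ᵐ x ∂shiftLaw ν M, 0 ≤ x := by
  have hm : MeasurableSet {x : ℝ | 0 ≤ x} := measurableSet_Ici
  rw [shiftLaw, ae_map_iff (meas_shift M).aemeasurable hm]
  filter_upwards [h0] with x hx
  exact add_nonneg hM hx

lemma shift_int {ν : Measure ℝ} [IsProbabilityMeasure ν] (h1 : Integrable (fun x : ℝ => x) ν)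
    (M : ℝ) : Integrable (fun x : ℝ => x) (shiftLaw ν M) := by
  rw [shiftLaw, integrable_map_measure (by fun_prop) (meas_shift M).aemeasurable]
  exact (integrable_const M).add h1

lemma mp_shift (ν : Measure ℝ) [IsProbabilityMeasure ν] (M : ℝ) :
    MeasurePreserving (fun (x : Fin 2 → Fin 3 → ℝ) i j => M + x i j) (PP ν)
      (PP (shiftLaw ν M)) := by
  have h : MeasurePreserving (fun y : ℝ => M + y) ν (shiftLaw ν M) := ⟨meas_shift M, rfl⟩
  exact measurePreserving_pi (fun _ : Fin 2 => Measure.pi fun _ : Fin 3 => ν)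
    (fun _ : Fin 2 => Measure.pi fun _ : Fin 3 => shiftLaw ν M)
    (fun _ => measurePreserving_pi (fun _ : Fin 3 => ν) (fun _ : Fin 3 => shiftLaw ν M)
      (fun _ => h))

lemma integral_shift (ν : Measure ℝ) [IsProbabilityMeasure ν] (M : ℝ)
    {f : (Fin 2 → Fin 3 → ℝ) → ℝ} (hf : Measurable f) :
    ∫ x, f x ∂PP (shiftLaw ν M) = ∫ x, f (fun i j => M + x i j) ∂PP ν := by
  rw [← (mp_shift ν M).map_eq]
  exact integral_map (mp_shift ν M).measurable.aemeasurable hf.aestronglyMeasurable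

lemma pathWork_shift (M : ℝ) (x : Fin 2 → Fin 3 → ℝ) (c : Fin 3) :
    pathWork (fun i j => M + x i j) c = 4 * M + pathWork x c := by
  fin_cases c
  · show (M + x 0 0) + (M + x 1 0) + (M + x 1 1) + (M + x 1 2) =
      4 * M + (x 0 0 + x 1 0 + x 1 1 + x 1 2); ring
  · show (M + x 0 0) + (M + x 0 1) + (M + x 1 1) + (M + x 1 2) =
      4 * M + (x 0 0 + x 0 1 + x 1 1 + x 1 2); ring
  · show (M + x 0 0) + (M + x 0 1) + (M + x 0 2) + (M + x 1 2) =
      4 * M + (x 0 0 + x 0 1 + x 0 2 + x 1 2); ring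

lemma maxWork_shift (M : ℝ) (x : Fin 2 → Fin 3 → ℝ) :
    maxWork (fun i j => M + x i j) = 4 * M + maxWork x := by
  unfold maxWork
  rw [pathWork_shift, pathWork_shift, pathWork_shift, max_add_add_left, max_add_add_left]

/-- the event that the path changing jobs at the middle station has the largest total work -/
def KK : Set (Fin 2 → Fin 3 → ℝ) := {x | x 1 0 ≤ x 0 1 ∧ x 0 2 ≤ x 1 1}

lemma meas_KK : MeasurableSet KK := by
  have m : ∀ i j, Measurable (fun x : Fin 2 → Fin 3 → ℝ => x i j) := by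
    intro i j; fun_prop
  exact (measurableSet_le (m 1 0) (m 0 1)).inter (measurableSet_le (m 0 2) (m 1 1))

lemma mem_KK_iff (x : Fin 2 → Fin 3 → ℝ) : x ∈ KK ↔ pathWork x 1 = maxWork x := by
  have e0 : pathWork x 0 = x 0 0 + x 1 0 + x 1 1 + x 1 2 := rfl
  have e1 : pathWork x 1 = x 0 0 + x 0 1 + x 1 1 + x 1 2 := rfl
  have e2 : pathWork x 2 = x 0 0 + x 0 1 + x 0 2 + x 1 2 := rfl
  constructor
  · rintro ⟨ha, hb⟩
    refine le_antisymm (le_maxWork x 1) (max_le (max_le ?_ le_rfl) ?_)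
    · rw [e0, e1]; linarith
    · rw [e1, e2]; linarith
  · intro h
    have h0 := le_maxWork x 0
    have h2 := le_maxWork x 2
    rw [← h] at h0 h2
    rw [e0, e1] at h0
    rw [e1, e2] at h2
    exact ⟨by linarith, by linarith⟩

lemma critMid_shift_lower {M : ℝ} (hM : 0 ≤ M) {x : Fin 2 → Fin 3 → ℝ}
    (hx : ∀ i j, 0 ≤ x i j) :
    M + M * KK.indicator (fun _ => (1 : ℝ)) x ≤ critMid (fun i j => M + x i j) := by
  have h01 := hx 0 1
  have h11 := hx 1 1
  by_cases h : x ∈ KK
  · rw [Set.indicator_of_mem h]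
    have h' : pathWork (fun i j => M + x i j) 1 = maxWork (fun i j => M + x i j) := by
      rw [pathWork_shift, maxWork_shift, (mem_KK_iff x).mp h]
    have := critMid_ge h'
    have e : midWork (fun i j => M + x i j) 1 = (M + x 0 1) + (M + x 1 1) := rfl
    rw [e] at this
    linarith
  · rw [Set.indicator_of_notMem h]
    obtain ⟨c, hc⟩ := exists_max (fun i j => M + x i j)
    have h2 := critMid_ge hc
    have h3 : M ≤ midWork (fun i j => M + x i j) c := by
      fin_cases c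
      · show M ≤ M + x 1 1; linarith
      · show M ≤ (M + x 0 1) + (M + x 1 1); linarith
      · show M ≤ M + x 0 1; linarith
    linarith

lemma critMid_shift_upper {M : ℝ} (hM : 0 ≤ M) {x : Fin 2 → Fin 3 → ℝ}
    (hx : ∀ i j, 0 ≤ x i j) :
    critMid (fun i j => M + x i j) ≤ M + M * KK.indicator (fun _ => (1 : ℝ)) x + tot x := by
  have h00 := hx 0 0
  have h01 := hx 0 1
  have h02 := hx 0 2
  have h10 := hx 1 0
  have h11 := hx 1 1
  have h12 := hx 1 2
  have ht : x 0 1 + x 1 1 ≤ tot x := by unfold tot; linarith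
  obtain ⟨c, hc, hw⟩ := exists_crit (x := fun i j => M + x i j)
    (fun i j => add_nonneg hM (hx i j))
  rw [← hw]
  by_cases h : x ∈ KK
  · rw [Set.indicator_of_mem h]
    fin_cases c
    · show M + x 1 1 ≤ _; linarith
    · show (M + x 0 1) + (M + x 1 1) ≤ _; linarith
    · show M + x 0 1 ≤ _; linarith
  · rw [Set.indicator_of_notMem h]
    fin_cases c
    · show M + x 1 1 ≤ _; linarith
    · exfalso
      apply h
      rw [mem_KK_iff]
      have hc' : pathWork (fun i j => M + x i j) 1 = maxWork (fun i j => M + x i j) := hc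
      rw [pathWork_shift, maxWork_shift] at hc'
      linarith
    · show M + x 0 1 ≤ _; linarith

/-! ### The probability of the event -/

lemma indep (ν : Measure ℝ) [IsProbabilityMeasure ν] :
    iIndepFun (fun (p : Fin 2 × Fin 3) (x : Fin 2 → Fin 3 → ℝ) => x p.1 p.2) (PP ν) := by
  have hm : ∀ p : Fin 2 × Fin 3, Measurable (fun x : Fin 2 → Fin 3 → ℝ => x p.1 p.2) :=
    fun p => (measurable_pi_apply p.2).comp (measurable_pi_apply p.1)
  rw [iIndepFun_iff_map_fun_eq_pi_map (fun p => (hm p).aemeasurable)]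
  have hmap : ∀ p : Fin 2 × Fin 3,
      (PP ν).map (fun x : Fin 2 → Fin 3 → ℝ => x p.1 p.2) = ν := fun p => (mp ν p.1 p.2).map_eq
  simp only [hmap]
  refine (Measure.pi_eq fun s hs => ?_).symm
  rw [Measure.map_apply (measurable_pi_lambda _ hm) (MeasurableSet.univ_pi hs)]
  have : (fun (x : Fin 2 → Fin 3 → ℝ) (p : Fin 2 × Fin 3) => x p.1 p.2) ⁻¹' (Set.univ.pi s) =
      Set.univ.pi (fun i => Set.univ.pi (fun j => s (i, j))) := by
    ext x
    simp only [Set.mem_preimage, Set.mem_univ_pi, Prod.forall]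
  rw [this, PP, Measure.pi_pi]
  simp only [Measure.pi_pi]
  rw [Fintype.prod_prod_type]

/-- the set of pairs whose second coordinate is at most the first -/
def GE : Set (ℝ × ℝ) := {z | z.2 ≤ z.1}

lemma meas_GE : MeasurableSet GE := measurableSet_le measurable_snd measurable_fst

lemma pair_law (ν : Measure ℝ) [IsProbabilityMeasure ν] {p q : Fin 2 × Fin 3} (hpq : p ≠ q) :
    (PP ν).map (fun x : Fin 2 → Fin 3 → ℝ => (x p.1 p.2, x q.1 q.2)) = ν.prod ν := by
  have h := (indep ν).indepFun hpq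
  have hm : ∀ p : Fin 2 × Fin 3, Measurable (fun x : Fin 2 → Fin 3 → ℝ => x p.1 p.2) :=
    fun p => (measurable_pi_apply p.2).comp (measurable_pi_apply p.1)
  have h2 := (indepFun_iff_map_prod_eq_prod_map_map (hm p).aemeasurable
    (hm q).aemeasurable).mp h
  rw [h2, (mp ν p.1 p.2).map_eq, (mp ν q.1 q.2).map_eq]

lemma KK_prob (ν : Measure ℝ) [IsProbabilityMeasure ν] :
    (PP ν).real KK = ((ν.prod ν).real GE) ^ 2 := by
  have hm : ∀ p : Fin 2 × Fin 3, Measurable (fun x : Fin 2 → Fin 3 → ℝ => x p.1 p.2) :=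
    fun p => (measurable_pi_apply p.2).comp (measurable_pi_apply p.1)
  have hind := (indep ν).indepFun_prodMk_prodMk hm (0, 1) (1, 0) (1, 1) (0, 2)
    (by decide) (by decide) (by decide) (by decide)
  have h1 := hind.measure_inter_preimage_eq_mul GE GE meas_GE meas_GE
  have hK : KK = (fun x : Fin 2 → Fin 3 → ℝ => (x 0 1, x 1 0)) ⁻¹' GE ∩
      (fun x : Fin 2 → Fin 3 → ℝ => (x 1 1, x 0 2)) ⁻¹' GE := rfl
  have e1 : PP ν ((fun x : Fin 2 → Fin 3 → ℝ => (x 0 1, x 1 0)) ⁻¹' GE) = (ν.prod ν) GE := by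
    rw [← pair_law ν (p := (0, 1)) (q := (1, 0)) (by decide),
      Measure.map_apply ((hm (0, 1)).prodMk (hm (1, 0))) meas_GE]
  have e2 : PP ν ((fun x : Fin 2 → Fin 3 → ℝ => (x 1 1, x 0 2)) ⁻¹' GE) = (ν.prod ν) GE := by
    rw [← pair_law ν (p := (1, 1)) (q := (0, 2)) (by decide),
      Measure.map_apply ((hm (1, 1)).prodMk (hm (0, 2))) meas_GE]
  have h2 : PP ν KK = (ν.prod ν) GE * (ν.prod ν) GE := by
    rw [hK]
    exact h1.trans (congrArg₂ (· * ·) e1 e2)
  rw [Measure.real, h2, ENNReal.toReal_mul, sq]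
  rfl

lemma GE_prob (ν : Measure ℝ) [IsProbabilityMeasure ν] :
    (ν.prod ν).real GE = (1 + (ν.prod ν).real {z : ℝ × ℝ | z.1 = z.2}) / 2 := by
  set LE : Set (ℝ × ℝ) := {z | z.1 ≤ z.2} with hLE
  have hmLE : MeasurableSet LE := measurableSet_le measurable_fst measurable_snd
  have h1 : (ν.prod ν).real LE = (ν.prod ν).real GE := by
    have hs : (ν.prod ν).map Prod.swap = ν.prod ν := Measure.prod_swap
    have : (ν.prod ν) GE = (ν.prod ν) LE := by
      conv_lhs => rw [← hs]
      rw [Measure.map_apply measurable_swap meas_GE]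
      rfl
    rw [Measure.real, Measure.real, this]
  have h2 := measureReal_union_add_inter (μ := ν.prod ν) (s := LE) (t := GE) meas_GE
  have h3 : LE ∪ GE = Set.univ := by
    ext z
    simp only [Set.mem_union, Set.mem_univ, iff_true]
    exact le_total z.1 z.2
  have h4 : LE ∩ GE = {z : ℝ × ℝ | z.1 = z.2} := by
    ext z
    exact ⟨fun h => le_antisymm h.1 h.2, fun h => ⟨le_of_eq h, ge_of_eq h⟩⟩
  rw [h3, h4, h1] at h2
  have h5 : (ν.prod ν).real Set.univ = 1 := by simp
  rw [h5] at h2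
  linarith

/-! ### The criterion for large shifts -/

lemma int_ind (ν : Measure ℝ) [IsProbabilityMeasure ν] :
    Integrable (KK.indicator (fun _ => (1 : ℝ))) (PP ν) :=
  (integrable_const (1 : ℝ)).indicator meas_KK

lemma integral_ind (ν : Measure ℝ) [IsProbabilityMeasure ν] :
    ∫ x, KK.indicator (fun _ => (1 : ℝ)) x ∂PP ν = (PP ν).real KK := by
  rw [integral_indicator meas_KK]
  simp

lemma crit_lower {ν : Measure ℝ} [IsProbabilityMeasure ν] (h0 : ∀ᵐ x ∂ν, 0 ≤ x)
    (h1 : Integrable (fun x : ℝ => x) ν) {M : ℝ} (hM : 0 ≤ M) :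
    M * (1 + (PP ν).real KK) ≤ ∫ x, critMid x ∂PP (shiftLaw ν M) := by
  have hi : Integrable (fun x => critMid (fun i j => M + x i j)) (PP ν) :=
    (mp_shift ν M).integrable_comp_of_integrable
      (int_critMid (shift_nn h0 hM) (shift_int h1 M))
  rw [integral_shift ν M meas_critMid]
  have : M * (1 + (PP ν).real KK) =
      ∫ x, (M + M * KK.indicator (fun _ => (1 : ℝ)) x) ∂PP ν := by
    rw [integral_add (integrable_const M) ((int_ind ν).const_mul M), integral_const_mul,
      integral_ind]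
    simp
    ring
  rw [this]
  refine integral_mono_ae ((integrable_const M).add ((int_ind ν).const_mul M)) hi ?_
  filter_upwards [ae_nn h0] with x hx
  exact critMid_shift_lower hM hx

lemma crit_upper {ν : Measure ℝ} [IsProbabilityMeasure ν] (h0 : ∀ᵐ x ∂ν, 0 ≤ x)
    (h1 : Integrable (fun x : ℝ => x) ν) {M : ℝ} (hM : 0 ≤ M) :
    ∫ x, critMid x ∂PP (shiftLaw ν M) ≤ M * (1 + (PP ν).real KK) + ∫ x, tot x ∂PP ν := by
  have hi : Integrable (fun x => critMid (fun i j => M + x i j)) (PP ν) :=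
    (mp_shift ν M).integrable_comp_of_integrable
      (int_critMid (shift_nn h0 hM) (shift_int h1 M))
  rw [integral_shift ν M meas_critMid]
  have j1 : Integrable (fun x => M + M * KK.indicator (fun _ => (1 : ℝ)) x) (PP ν) :=
    (integrable_const M).add ((int_ind ν).const_mul M)
  have : M * (1 + (PP ν).real KK) + ∫ x, tot x ∂PP ν =
      ∫ x, (M + M * KK.indicator (fun _ => (1 : ℝ)) x + tot x) ∂PP ν := by
    rw [integral_add j1 (int_tot h1),
      integral_add (integrable_const M) ((int_ind ν).const_mul M), integral_const_mul,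
      integral_ind]
    simp
    ring
  rw [this]
  refine integral_mono_ae hi (j1.add (int_tot h1)) ?_
  filter_upwards [ae_nn h0] with x hx
  exact critMid_shift_upper hM hx

lemma max_shift {ν : Measure ℝ} [IsProbabilityMeasure ν] (h0 : ∀ᵐ x ∂ν, 0 ≤ x)
    (h1 : Integrable (fun x : ℝ => x) ν) (M : ℝ) :
    ∫ x, maxWork x ∂PP (shiftLaw ν M) = 4 * M + ∫ x, maxWork x ∂PP ν := by
  rw [integral_shift ν M meas_maxWork]
  simp only [maxWork_shift]
  rw [integral_add (integrable_const _) (int_maxWork h0 h1)]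
  simp

lemma shift_dichotomy {ν : Measure ℝ} [IsProbabilityMeasure ν] (h0 : ∀ᵐ x ∂ν, 0 ≤ x)
    (h1 : Integrable (fun x : ℝ => x) ν) :
    ∃ M0 : ℝ, 0 ≤ M0 ∧ ∀ M, M0 ≤ M →
      ((1 + (ν.prod ν).real {z : ℝ × ℝ | z.1 = z.2}) ^ 2 < 4 / 3 →
        3 * ∫ x, critMid x ∂PP (shiftLaw ν M) < ∫ x, maxWork x ∂PP (shiftLaw ν M)) ∧
      (4 / 3 < (1 + (ν.prod ν).real {z : ℝ × ℝ | z.1 = z.2}) ^ 2 →
        ∫ x, maxWork x ∂PP (shiftLaw ν M) ≤ 3 * ∫ x, critMid x ∂PP (shiftLaw ν M)) := by
  set p := (ν.prod ν).real {z : ℝ × ℝ | z.1 = z.2} with hp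
  have hK : (PP ν).real KK = ((1 + p) / 2) ^ 2 := by rw [KK_prob, GE_prob]
  set k := (PP ν).real KK with hk
  set T := ∫ x, tot x ∂PP ν with hT
  set D := ∫ x, maxWork x ∂PP ν with hD
  have hD0 : 0 ≤ D := by
    refine integral_nonneg_of_ae ?_
    filter_upwards [ae_nn h0] with x hx using maxWork_nonneg hx
  have hT0 : 0 ≤ T := by
    refine integral_nonneg_of_ae ?_
    filter_upwards [ae_nn h0] with x hx using (maxWork_nonneg hx).trans (maxWork_le hx)
  refine ⟨max (3 * T / |1 - 3 * k| + 1) (D / |1 - 3 * k|), ?_, fun M hM => ⟨fun h => ?_,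
    fun h => ?_⟩⟩
  · exact le_max_of_le_right (div_nonneg hD0 (abs_nonneg _))
  · have hk1 : 0 < 1 - 3 * k := by
      rw [hK]; nlinarith
    rw [abs_of_pos hk1] at hM
    have hM1 : 3 * T / (1 - 3 * k) + 1 ≤ M := (le_max_left _ _).trans hM
    have hM0 : 0 ≤ M := by
      have : 0 ≤ 3 * T / (1 - 3 * k) := div_nonneg (by linarith) hk1.le
      linarith
    have hlt : 3 * T < M * (1 - 3 * k) := by
      rw [← div_lt_iff₀ hk1]
      linarith
    have hu := crit_upper h0 h1 hM0
    rw [max_shift h0 h1]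
    rw [← hk, ← hT] at hu
    rw [← hD]
    nlinarith
  · have hk1 : 0 < 3 * k - 1 := by
      rw [hK]; nlinarith
    have habs : |1 - 3 * k| = 3 * k - 1 := by
      rw [abs_sub_comm, abs_of_pos hk1]
    rw [habs] at hM
    have hM1 : D / (3 * k - 1) ≤ M := (le_max_right _ _).trans hM
    have hM0 : 0 ≤ M := (div_nonneg hD0 hk1.le).trans hM1
    have hle : D ≤ M * (3 * k - 1) := by
      rwa [div_le_iff₀ hk1] at hM1
    have hl := crit_lower h0 h1 hM0
    rw [max_shift h0 h1]
    rw [← hk] at hl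
    rw [← hD]
    nlinarith

end Pool.Agent.Y168.Bowl
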