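import Mathlib
import Pool.Agent.Y168.Bowl.Prob
import Pool.Agent.Y168.Bowl.Shift

set_option autoImplicit false

namespace Pool.Agent.Y168.Bowl

open MeasureTheory Filter Topology ProbabilityTheory Finset
open Pool.Agent.Results.MP_eb4cdf_pr.InvertedBowl

/-- shifted array -/
def XM {N : ℕ} (M : ℝ) (y : Fin 2 → Fin (N + 1) → ℝ) : Fin 2 → Fin (N + 1) → ℝ :=
  fun i j => M + y i j

/-- total work -/
noncomputable def tt {N : ℕ} (y : Fin 2 → Fin (N + 1) → ℝ) : ℝ := ∑ j, (y 0 j + y 1 j)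

lemma mpN (μ : Measure ℝ) [IsProbabilityMeasure μ] (N : ℕ) (i : Fin 2) (j : Fin (N + 1)) :
    MeasurePreserving (fun x : Fin 2 → Fin (N + 1) → ℝ => x i j) (PN μ N) μ :=
  (measurePreserving_eval (fun _ : Fin (N + 1) => μ) j).comp
    (measurePreserving_eval (fun _ : Fin 2 => Measure.pi fun _ : Fin (N + 1) => μ) i)

lemma ae_nnN {μ : Measure ℝ} [IsProbabilityMeasure μ] (h0 : ∀ᵐ x ∂μ, 0 ≤ x) (N : ℕ) :
    ∀ᵐ x ∂PN μ N, ∀ i j, 0 ≤ x i j := by
  rw [ae_all_iff]; intro i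
  rw [ae_all_iff]; intro j
  exact (mpN μ N i j).quasiMeasurePreserving.ae h0

lemma int_coordN {μ : Measure ℝ} [IsProbabilityMeasure μ] (h1 : Integrable (fun x : ℝ => x) μ)
    (N : ℕ) (i : Fin 2) (j : Fin (N + 1)) :
    Integrable (fun x : Fin 2 → Fin (N + 1) → ℝ => x i j) (PN μ N) :=
  (mpN μ N i j).integrable_comp_of_integrable h1

lemma int_tt {μ : Measure ℝ} [IsProbabilityMeasure μ] (h1 : Integrable (fun x : ℝ => x) μ)
    (N : ℕ) : Integrable (tt (N := N)) (PN μ N) := by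
  unfold tt
  exact integrable_finsetSum _ fun j _ => (int_coordN h1 N 0 j).add (int_coordN h1 N 1 j)

lemma meas_ww {N : ℕ} (c j : Fin (N + 1)) :
    Measurable (fun x : Fin 2 → Fin (N + 1) → ℝ => ww x c j) := by
  unfold ww
  have m : ∀ i, Measurable (fun x : Fin 2 → Fin (N + 1) → ℝ => x i j) := by
    intro i; fun_prop
  by_cases h1 : j ≤ c
  · by_cases h2 : c ≤ j
    · simp only [if_pos h1, if_pos h2]; exact (m 0).add (m 1)
    · simp only [if_pos h1, if_neg h2]; exact (m 0).add measurable_const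
  · by_cases h2 : c ≤ j
    · simp only [if_neg h1, if_pos h2]; exact measurable_const.add (m 1)
    · simp only [if_neg h1, if_neg h2]; exact measurable_const

lemma meas_VV {N : ℕ} (u : Fin (N + 1) → ℝ) (c : Fin (N + 1)) :
    Measurable (fun x : Fin 2 → Fin (N + 1) → ℝ => VV x u c) := by
  unfold VV
  exact Finset.measurable_fun_sum _ fun j _ => (meas_ww c j).mul_const _

lemma meas_ZZ {N : ℕ} (u : Fin (N + 1) → ℝ) :
    Measurable (fun x : Fin 2 → Fin (N + 1) → ℝ => ZZ x u) := by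
  have h := Finset.measurable_sup' (s := (Finset.univ : Finset (Fin (N + 1))))
    Finset.univ_nonempty (f := fun c (x : Fin 2 → Fin (N + 1) → ℝ) => VV x u c)
    (fun c _ => meas_VV u c)
  have e : (fun x : Fin 2 → Fin (N + 1) → ℝ => ZZ x u) = Finset.univ.sup' Finset.univ_nonempty
      (fun c (x : Fin 2 → Fin (N + 1) → ℝ) => VV x u c) := by
    ext x
    rw [Finset.sup'_apply]
    rfl
  rw [e]; exact h

lemma meas_XM {N : ℕ} (M : ℝ) : Measurable (XM (N := N) M) := by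
  unfold XM
  exact measurable_pi_lambda _ fun i => measurable_pi_lambda _ fun j => by fun_prop

lemma ww_nonneg {N : ℕ} {x : Fin 2 → Fin (N + 1) → ℝ} (hx : ∀ i j, 0 ≤ x i j)
    (c j : Fin (N + 1)) : 0 ≤ ww x c j := by
  unfold ww
  have h0 := hx 0 j
  have h1 := hx 1 j
  split_ifs <;> linarith

lemma ww_le {N : ℕ} {x : Fin 2 → Fin (N + 1) → ℝ} (hx : ∀ i j, 0 ≤ x i j)
    (c j : Fin (N + 1)) : ww x c j ≤ x 0 j + x 1 j := by
  unfold ww
  have h0 := hx 0 j
  have h1 := hx 1 j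
  split_ifs <;> linarith

lemma term_le_tt {N : ℕ} {x : Fin 2 → Fin (N + 1) → ℝ} (hx : ∀ i j, 0 ≤ x i j)
    (c j : Fin (N + 1)) : ww x c j ≤ tt x :=
  (ww_le hx c j).trans (Finset.single_le_sum (f := fun j => x 0 j + x 1 j)
    (fun i _ => add_nonneg (hx 0 i) (hx 1 i)) (Finset.mem_univ j))

lemma ww_shift {N : ℕ} (M : ℝ) (y : Fin 2 → Fin (N + 1) → ℝ) (c j : Fin (N + 1)) :
    ww (XM M y) c j = M + (if j = c then M else 0) + ww y c j := by
  unfold ww XM
  rcases lt_trichotomy j c with h | h | h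
  · rw [if_pos h.le, if_neg (not_le.mpr h), if_pos h.le, if_neg (not_le.mpr h),
      if_neg (ne_of_lt h)]
    ring
  · subst h
    simp only [le_refl, if_true]
    ring
  · rw [if_neg (not_le.mpr h), if_pos h.le, if_neg (not_le.mpr h), if_pos h.le,
      if_neg (ne_of_gt h)]
    ring

lemma V1_shift {N : ℕ} (M : ℝ) (y : Fin 2 → Fin (N + 1) → ℝ) (c : Fin (N + 1)) :
    V1 (XM M y) c = (N + 2) * M + V1 y c := by
  unfold V1
  simp only [ww_shift]
  rw [Finset.sum_add_distrib, Finset.sum_add_distrib, Finset.sum_ite_eq',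
    if_pos (Finset.mem_univ _)]
  simp only [Finset.sum_const, Finset.card_univ, Fintype.card_fin, nsmul_eq_mul]
  push_cast
  ring

lemma AA_shift {N : ℕ} (M : ℝ) {y : Fin 2 → Fin (N + 1) → ℝ} {c : Fin (N + 1)} (h : y ∈ AA c) :
    XM M y ∈ AA c := by
  intro c' hc'
  rw [V1_shift, V1_shift]
  have := h c' hc'
  linarith

lemma tt_shift {N : ℕ} (M : ℝ) (y : Fin 2 → Fin (N + 1) → ℝ) :
    tt (XM M y) = 2 * (N + 1) * M + tt y := by
  unfold tt XM
  have : ∀ j, (M + y 0 j) + (M + y 1 j) = 2 * M + (y 0 j + y 1 j) := fun j => by ring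
  simp only [this]
  rw [Finset.sum_add_distrib]
  simp only [Finset.sum_const, Finset.card_univ, Fintype.card_fin, nsmul_eq_mul]
  push_cast
  ring

lemma ZZ_nonneg {N : ℕ} {x : Fin 2 → Fin (N + 1) → ℝ} (hx : ∀ i j, 0 ≤ x i j)
    {u : Fin (N + 1) → ℝ} (hu : ∀ j, 0 ≤ u j) : 0 ≤ ZZ x u :=
  (Finset.sum_nonneg fun j _ => mul_nonneg (ww_nonneg hx 0 j) (hu j)).trans (VV_le_ZZ x u 0)

lemma ZZ_le_tt {N : ℕ} {x : Fin 2 → Fin (N + 1) → ℝ} (hx : ∀ i j, 0 ≤ x i j)
    {u : Fin (N + 1) → ℝ} {C : ℝ} (hC : 0 ≤ C) (hu : ∀ j, u j ≤ C) : ZZ x u ≤ C * tt x := by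
  refine ZZ_le fun c => ?_
  unfold VV tt
  rw [Finset.mul_sum]
  refine Finset.sum_le_sum fun j _ => ?_
  have h1 := ww_nonneg hx c j
  have h2 := ww_le hx c j
  have h3 := mul_le_mul_of_nonneg_left (hu j) h1
  have h4 := mul_le_mul_of_nonneg_left h2 hC
  linarith

/-- the expected makespan of the shifted law, in the covered regimes -/
noncomputable def FN (ν : Measure ℝ) (N : ℕ) (M : ℝ) (s : Fin (N + 1) → ℝ) : ℝ :=
  ∫ y, ZZ (XM M y) (fun j => (s j)⁻¹) ∂PN ν N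

lemma int_ZZ {ν : Measure ℝ} [IsProbabilityMeasure ν] (h0 : ∀ᵐ x ∂ν, 0 ≤ x)
    (h1 : Integrable (fun x : ℝ => x) ν) {N : ℕ} {M : ℝ} (hM : 0 ≤ M) {u : Fin (N + 1) → ℝ}
    (hu : ∀ j, 0 ≤ u j) : Integrable (fun y => ZZ (XM M y) u) (PN ν N) := by
  have hi : Integrable (fun y => (∑ j, u j) * tt (XM M y)) (PN ν N) := by
    simp only [tt_shift]
    exact ((integrable_const _).add (int_tt h1 N)).const_mul _
  refine Integrable.mono' hi ((meas_ZZ u).comp (meas_XM M)).aestronglyMeasurable ?_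
  filter_upwards [ae_nnN h0 N] with y hy
  have hx : ∀ i j, 0 ≤ XM M y i j := fun i j => add_nonneg hM (hy i j)
  show ‖ZZ (XM M y) u‖ ≤ _
  rw [Real.norm_of_nonneg (ZZ_nonneg hx hu)]
  exact ZZ_le_tt hx (Finset.sum_nonneg fun j _ => hu j) fun j =>
    Finset.single_le_sum (f := u) (fun i _ => hu i) (Finset.mem_univ j)

lemma mp_XM (ν : Measure ℝ) [IsProbabilityMeasure ν] (N : ℕ) (M : ℝ) :
    MeasurePreserving (XM (N := N) M) (PN ν N) (PN (shiftLaw ν M) N) := by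
  have h : MeasurePreserving (fun y : ℝ => M + y) ν (shiftLaw ν M) := ⟨meas_shift M, rfl⟩
  exact measurePreserving_pi (fun _ : Fin 2 => Measure.pi fun _ : Fin (N + 1) => ν)
    (fun _ : Fin 2 => Measure.pi fun _ : Fin (N + 1) => shiftLaw ν M)
    (fun _ => measurePreserving_pi (fun _ : Fin (N + 1) => ν)
      (fun _ : Fin (N + 1) => shiftLaw ν M) (fun _ => h))

lemma exp_eqN {ν : Measure ℝ} [IsProbabilityMeasure ν] (h0 : ∀ᵐ x ∂ν, 0 ≤ x) {N : ℕ} {M : ℝ}
    (hM : 0 ≤ M) (r : Regime) (hr : Covered r) (s : Fin (N + 1) → ℝ) (hs : ∀ j, 0 < s j) :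
    expMakespan (shiftLaw ν M) r 2 (N + 1) s = FN ν N M s := by
  have h1 : expMakespan (shiftLaw ν M) r 2 (N + 1) s =
      ∫ x, ZZ x (fun j => (s j)⁻¹) ∂PN (shiftLaw ν M) N := by
    refine integral_congr_ae ?_
    filter_upwards [ae_nnN (shift_nn h0 hM) N] with x hx
    exact depart_eq_ZZ r hr x hx s hs
  rw [h1, ← (mp_XM ν N M).map_eq]
  exact integral_map (mp_XM ν N M).measurable.aemeasurable (meas_ZZ _).aestronglyMeasurable

/-! ### Work along the critical path -/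

/-- the work at station `j` along the critical path -/
noncomputable def QQ {N : ℕ} (M : ℝ) (j : Fin (N + 1)) (y : Fin 2 → Fin (N + 1) → ℝ) : ℝ :=
  M + M * (AA j).indicator (fun _ => (1 : ℝ)) y +
    ∑ c, (AA c).indicator (fun y => ww y c j) y

lemma sel_ind {N : ℕ} {y : Fin 2 → Fin (N + 1) → ℝ} {c j : Fin (N + 1)} (h : y ∈ AA c)
    (f : Fin (N + 1) → ℝ) : (AA j).indicator (fun _ => f j) y = if j = c then f j else 0 := by
  by_cases hj : j = c
  · subst hj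
    rw [Set.indicator_of_mem h, if_pos rfl]
  · rw [if_neg hj, Set.indicator_of_notMem]
    intro h'
    exact Set.disjoint_left.mp (AA_disj hj) h' h

lemma sel_sum {N : ℕ} {y : Fin 2 → Fin (N + 1) → ℝ} {c : Fin (N + 1)} (h : y ∈ AA c)
    (j : Fin (N + 1)) : ∑ c, (AA c).indicator (fun y => ww y c j) y = ww y c j := by
  rw [Finset.sum_eq_single c]
  · exact Set.indicator_of_mem h _
  · intro c' _ hne
    refine Set.indicator_of_notMem ?_ _
    intro h'
    exact Set.disjoint_left.mp (AA_disj hne) h' h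
  · intro hcon; exact absurd (Finset.mem_univ _) hcon

lemma QQ_eq {N : ℕ} (M : ℝ) {y : Fin 2 → Fin (N + 1) → ℝ} {c : Fin (N + 1)} (h : y ∈ AA c)
    (j : Fin (N + 1)) : QQ M j y = ww (XM M y) c j := by
  unfold QQ
  rw [sel_sum h, ww_shift]
  have := sel_ind (j := j) h (fun _ => (1 : ℝ))
  rw [this]
  split_ifs <;> ring

lemma int_sel {ν : Measure ℝ} [IsProbabilityMeasure ν] (h0 : ∀ᵐ x ∂ν, 0 ≤ x)
    (h1 : Integrable (fun x : ℝ => x) ν) {N : ℕ} (j : Fin (N + 1)) :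
    Integrable (fun y => ∑ c, (AA c).indicator (fun y => ww y c j) y) (PN ν N) := by
  refine integrable_finsetSum _ fun c _ => ?_
  have hi : Integrable (fun y : Fin 2 → Fin (N + 1) → ℝ => ww y c j) (PN ν N) := by
    refine Integrable.mono' (int_tt h1 N) (meas_ww c j).aestronglyMeasurable ?_
    filter_upwards [ae_nnN h0 N] with y hy
    rw [Real.norm_of_nonneg (ww_nonneg hy c j)]
    exact term_le_tt hy c j
  exact hi.indicator (meas_AA ν c)

/-- remainder of the expected work -/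
noncomputable def rr (ν : Measure ℝ) (N : ℕ) (j : Fin (N + 1)) : ℝ :=
  ∫ y, ∑ c, (AA c).indicator (fun y => ww y c j) y ∂PN ν N

/-- expected work at station `j` along the critical path -/
noncomputable def WW (ν : Measure ℝ) (N : ℕ) (M : ℝ) (j : Fin (N + 1)) : ℝ :=
  M + M * (PN ν N).real (AA j) + rr ν N j

lemma int_QQ {ν : Measure ℝ} [IsProbabilityMeasure ν] (h0 : ∀ᵐ x ∂ν, 0 ≤ x)
    (h1 : Integrable (fun x : ℝ => x) ν) {N : ℕ} (M : ℝ) (j : Fin (N + 1)) :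
    Integrable (QQ M j) (PN ν N) :=
  ((integrable_const M).add (((integrable_const (1 : ℝ)).indicator (meas_AA ν j)).const_mul M)).add
    (int_sel h0 h1 j)

lemma integral_QQ {ν : Measure ℝ} [IsProbabilityMeasure ν] (h0 : ∀ᵐ x ∂ν, 0 ≤ x)
    (h1 : Integrable (fun x : ℝ => x) ν) {N : ℕ} (M : ℝ) (j : Fin (N + 1)) :
    ∫ y, QQ M j y ∂PN ν N = WW ν N M j := by
  have i1 : Integrable (fun y => M * (AA j).indicator (fun _ => (1 : ℝ)) y) (PN ν N) :=
    ((integrable_const (1 : ℝ)).indicator (meas_AA ν j)).const_mul M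
  have i2 : Integrable (fun y => M + M * (AA j).indicator (fun _ => (1 : ℝ)) y) (PN ν N) :=
    (integrable_const M).add i1
  unfold QQ WW rr
  rw [integral_add i2 (int_sel h0 h1 j), integral_add (integrable_const M) i1,
    integral_const_mul, integral_indicator (meas_AA ν j)]
  simp

lemma rr_bounds {ν : Measure ℝ} [IsProbabilityMeasure ν] (h0 : ∀ᵐ x ∂ν, 0 ≤ x)
    (h1 : Integrable (fun x : ℝ => x) ν) (hν : ∀ a, ν {a} = 0) {N : ℕ} (j : Fin (N + 1)) :
    0 ≤ rr ν N j ∧ rr ν N j ≤ ∫ y, tt y ∂PN ν N := by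
  constructor
  · refine integral_nonneg_of_ae ?_
    filter_upwards [ae_nnN h0 N, ae_mem hν N] with y hy ⟨c, hc⟩
    show 0 ≤ ∑ c, (AA c).indicator (fun y => ww y c j) y
    rw [sel_sum hc]
    exact ww_nonneg hy c j
  · refine integral_mono_ae (int_sel h0 h1 j) (int_tt h1 N) ?_
    filter_upwards [ae_nnN h0 N, ae_mem hν N] with y hy ⟨c, hc⟩
    show ∑ c, (AA c).indicator (fun y => ww y c j) y ≤ tt y
    rw [sel_sum hc]
    exact term_le_tt hy c j

lemma FN_ge {ν : Measure ℝ} [IsProbabilityMeasure ν] (h0 : ∀ᵐ x ∂ν, 0 ≤ x)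
    (h1 : Integrable (fun x : ℝ => x) ν) (hν : ∀ a, ν {a} = 0) {N : ℕ} {M : ℝ} (hM : 0 ≤ M)
    {s : Fin (N + 1) → ℝ} (hs : ∀ j, 0 < s j) :
    ∑ j, (s j)⁻¹ * WW ν N M j ≤ FN ν N M s := by
  have hi : ∀ j : Fin (N + 1), Integrable (fun y => (s j)⁻¹ * QQ M j y) (PN ν N) := fun j =>
    (int_QQ h0 h1 M j).const_mul _
  have : ∑ j, (s j)⁻¹ * WW ν N M j = ∫ y, ∑ j, (s j)⁻¹ * QQ M j y ∂PN ν N := by
    rw [integral_finsetSum _ fun j _ => hi j]
    refine Finset.sum_congr rfl fun j _ => ?_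
    rw [integral_const_mul, integral_QQ h0 h1]
  rw [this]
  refine integral_mono_ae (integrable_finsetSum _ fun j _ => hi j)
    (int_ZZ h0 h1 hM fun j => (inv_pos.mpr (hs j)).le) ?_
  filter_upwards [ae_mem hν N] with y ⟨c, hc⟩
  show ∑ j, (s j)⁻¹ * QQ M j y ≤ ZZ (XM M y) (fun j => (s j)⁻¹)
  have h3 := VV_le_ZZ (XM M y) (fun j => (s j)⁻¹) c
  have h4 : ∑ j, (s j)⁻¹ * QQ M j y = VV (XM M y) (fun j => (s j)⁻¹) c := by
    unfold VV
    refine Finset.sum_congr rfl fun j _ => ?_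
    rw [QQ_eq M hc, mul_comm]
  rw [h4]; exact h3

/-- the largest length for constant weights -/
lemma ZZ_const {N : ℕ} {x : Fin 2 → Fin (N + 1) → ℝ} {c : Fin (N + 1)} (h : x ∈ AA c) {t : ℝ}
    (ht : 0 ≤ t) : ZZ x (fun _ => t) = t * V1 x c := by
  have hv : ∀ c, VV x (fun _ => t) c = t * V1 x c := by
    intro c
    unfold VV V1
    rw [Finset.mul_sum]
    exact Finset.sum_congr rfl fun j _ => mul_comm _ _
  apply le_antisymm
  · refine ZZ_le fun c' => ?_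
    rw [hv]
    refine mul_le_mul_of_nonneg_left ?_ ht
    by_cases hc : c' = c
    · rw [hc]
    · exact (h c' hc).le
  · rw [← hv c]; exact VV_le_ZZ _ _ _

lemma FN_eq {ν : Measure ℝ} [IsProbabilityMeasure ν] (h0 : ∀ᵐ x ∂ν, 0 ≤ x)
    (h1 : Integrable (fun x : ℝ => x) ν) (hν : ∀ a, ν {a} = 0) {N : ℕ} {M : ℝ} :
    FN ν N M (fun _ => 1 / ((N : ℝ) + 1)) = ((N : ℝ) + 1) * ∑ j, WW ν N M j := by
  have hi : ∀ j : Fin (N + 1), Integrable (fun y => QQ M j y) (PN ν N) := fun j =>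
    int_QQ h0 h1 M j
  have : ((N : ℝ) + 1) * ∑ j, WW ν N M j = ∫ y, ((N : ℝ) + 1) * ∑ j, QQ M j y ∂PN ν N := by
    rw [integral_const_mul, integral_finsetSum _ fun j _ => hi j]
    congr 1
    exact Finset.sum_congr rfl fun j _ => (integral_QQ h0 h1 M j).symm
  rw [this]
  unfold FN
  refine integral_congr_ae ?_
  filter_upwards [ae_mem hν N] with y ⟨c, hc⟩
  have e : (fun _ : Fin (N + 1) => (1 / ((N : ℝ) + 1))⁻¹) = fun _ => (N : ℝ) + 1 := by
    ext; rw [one_div, inv_inv]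
  show ZZ (XM M y) (fun _ => (1 / ((N : ℝ) + 1))⁻¹) = ((N : ℝ) + 1) * ∑ j, QQ M j y
  rw [e, ZZ_const (AA_shift M hc) (by positivity)]
  unfold V1
  congr 1
  exact Finset.sum_congr rfl fun j _ => (QQ_eq M hc j).symm

/-- Chebyshev: an allocation ordered oppositely to the expected works is not better than equal
speeds. -/
lemma FN_cheb {ν : Measure ℝ} [IsProbabilityMeasure ν] (h0 : ∀ᵐ x ∂ν, 0 ≤ x)
    (h1 : Integrable (fun x : ℝ => x) ν) (hν : ∀ a, ν {a} = 0) {N : ℕ} {M : ℝ} (hM : 0 ≤ M)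
    {s : Fin (N + 1) → ℝ} (hs : s ∈ allocations (N + 1))
    (hanti : ∀ i j, s i < s j → WW ν N M j ≤ WW ν N M i) :
    FN ν N M (fun _ => 1 / ((N : ℝ) + 1)) ≤ FN ν N M s := by
  have hW : ∀ j, 0 ≤ WW ν N M j := fun j => by
    have := (rr_bounds h0 h1 hν j).1
    have h2 : 0 ≤ M * (PN ν N).real (AA j) := mul_nonneg hM measureReal_nonneg
    unfold WW
    linarith
  have hA : Antivary (WW ν N M) s := fun i j h => hanti i j h
  have hC := hA.card_mul_sum_le_sum_mul_sum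
  rw [Fintype.card_fin, hs.2, mul_one] at hC
  push_cast at hC
  have hge := FN_ge h0 h1 hν hM hs.1
  rw [FN_eq h0 h1 hν]
  have hm : (0 : ℝ) < (N : ℝ) + 1 := by positivity
  have hterm : ∀ j, (2 * ((N : ℝ) + 1) - ((N : ℝ) + 1) ^ 2 * s j) * WW ν N M j ≤
      (s j)⁻¹ * WW ν N M j := by
    intro j
    refine mul_le_mul_of_nonneg_right ?_ (hW j)
    have hp := hs.1 j
    rw [← one_div, le_div_iff₀ hp]
    nlinarith [sq_nonneg (((N : ℝ) + 1) * s j - 1)]
  have hsum := Finset.sum_le_sum fun j (_ : j ∈ Finset.univ) => hterm j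
  have e : ∑ j, (2 * ((N : ℝ) + 1) - ((N : ℝ) + 1) ^ 2 * s j) * WW ν N M j =
      2 * ((N : ℝ) + 1) * ∑ j, WW ν N M j - ((N : ℝ) + 1) ^ 2 * ∑ j, WW ν N M j * s j := by
    rw [Finset.mul_sum, Finset.mul_sum, ← Finset.sum_sub_distrib]
    exact Finset.sum_congr rfl fun j _ => by ring
  rw [e] at hsum
  have h5 : ((N : ℝ) + 1) ^ 2 * ∑ j, WW ν N M j * s j ≤ ((N : ℝ) + 1) * ∑ j, WW ν N M j := by
    have := mul_le_mul_of_nonneg_left hC hm.le
    calc _ = ((N : ℝ) + 1) * (((N : ℝ) + 1) * ∑ j, WW ν N M j * s j) := by ring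
      _ ≤ _ := this
  linarith

end Pool.Agent.Y168.Bowl
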