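import Mathlib
import Pool.Agent.Y168.Bowl.An

set_option autoImplicit false

namespace Pool.Agent.Y168.Bowl

open MeasureTheory Filter Topology ProbabilityTheory Finset
open Pool.Agent.Results.MP_eb4cdf_pr.InvertedBowl

/-- departure times of the second job, communications blocking with no buffer -/
noncomputable def CS (T : ℕ → ℕ → ℝ) : ℕ → ℝ
  | 0 => 0
  | j + 1 => max (CS T j) (PS T (j + 2)) + T 2 (j + 1)

lemma dep2_c0 {T : ℕ → ℕ → ℝ} (hT : ∀ i j, 0 ≤ T i j) (m : ℕ) (j : ℕ) (hj : j < m) :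
    depart T m (.communications 0) 2 j = CS T j := by
  induction j with
  | zero => rw [depz]; simp [CS]
  | succ j ih =>
    have e : (2 : ℕ) = 1 + 1 := rfl
    rw [e, depart, dep1 hT, Nat.sub_zero, dep1 hT, if_pos hj]
    rw [show depart T m (.communications 0) (1 + 1) j = CS T j from ih (by omega)]
    show max (max (CS T j) (PS T (j + 1))) (PS T (j + 2)) + T 2 (j + 1) =
      max (CS T j) (PS T (j + 2)) + T 2 (j + 1)
    congr 1
    rw [max_assoc]
    congr 1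
    apply max_eq_right
    rw [PS_succ T (j + 1)]
    have := hT 1 (j + 1 + 1)
    linarith

lemma dep2_c0_last {T : ℕ → ℕ → ℝ} (hT : ∀ i j, 0 ≤ T i j) (n : ℕ) :
    depart T (n + 1 + 1) (.communications 0) 2 (n + 1 + 1) = CS T (n + 1) + T 2 (n + 1 + 1) := by
  have e : (2 : ℕ) = 1 + 1 := rfl
  rw [e, depart, dep1 hT, if_neg (lt_irrefl _)]
  rw [show depart T (n + 1 + 1) (.communications 0) (1 + 1) (n + 1) = CS T (n + 1) from
    dep2_c0 hT _ _ (by omega)]
  have h1 : PS T (n + 1 + 1) ≤ CS T (n + 1) := by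
    have h2 := le_max_right (CS T n) (PS T (n + 2))
    have h3 := hT 2 (n + 1)
    show PS T (n + 2) ≤ max (CS T n) (PS T (n + 2)) + T 2 (n + 1)
    linarith
  have h4 := PS_nonneg hT (n + 1 + 1)
  rw [max_eq_left h1, max_eq_left (h4.trans h1)]

/-- length of a path up to station `j` -/
noncomputable def US (T : ℕ → ℕ → ℝ) (j c : ℕ) : ℝ :=
  PS T (c + 2) + ∑ i ∈ range j, (if c ≤ i then T 2 (i + 1) else 0)

lemma US_succ (T : ℕ → ℕ → ℝ) {j c : ℕ} (h : c ≤ j) :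
    US T (j + 1) c = US T j c + T 2 (j + 1) := by
  unfold US
  rw [Finset.sum_range_succ, if_pos h]; ring

lemma US_self (T : ℕ → ℕ → ℝ) (j : ℕ) : US T j j = PS T (j + 2) := by
  unfold US
  have : ∑ i ∈ range j, (if j ≤ i then T 2 (i + 1) else 0) = 0 := by
    refine Finset.sum_eq_zero fun i hi => ?_
    have := Finset.mem_range.mp hi
    rw [if_neg (by omega)]
  rw [this, add_zero]

lemma US_le_CS (T : ℕ → ℕ → ℝ) (j : ℕ) : ∀ c < j, US T j c ≤ CS T j := by
  induction j with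
  | zero => intro c hc; omega
  | succ j ih =>
    intro c hc
    have hCS : CS T (j + 1) = max (CS T j) (PS T (j + 2)) + T 2 (j + 1) := rfl
    rw [hCS, US_succ T (show c ≤ j by omega)]
    rcases Nat.lt_succ_iff_lt_or_eq.mp hc with h | h
    · have := ih c h
      have := le_max_left (CS T j) (PS T (j + 2))
      linarith
    · subst h
      rw [US_self]
      have := le_max_right (CS T c) (PS T (c + 2))
      linarith

lemma exists_US {T : ℕ → ℕ → ℝ} (hT : ∀ i j, 0 ≤ T i j) (j : ℕ) :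
    ∃ c < j + 1, CS T (j + 1) = US T (j + 1) c := by
  induction j with
  | zero =>
    refine ⟨0, by norm_num, ?_⟩
    have hCS : CS T (0 + 1) = max 0 (PS T (0 + 2)) + T 2 (0 + 1) := rfl
    rw [hCS, max_eq_right (PS_nonneg hT _), US_succ T le_rfl, US_self]
  | succ j ih =>
    obtain ⟨c, hc, h⟩ := ih
    have hCS : CS T (j + 1 + 1) = max (CS T (j + 1)) (PS T (j + 1 + 2)) + T 2 (j + 1 + 1) := rfl
    rcases max_choice (CS T (j + 1)) (PS T (j + 1 + 2)) with h' | h'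
    · exact ⟨c, by omega, by rw [hCS, h', US_succ T (show c ≤ j + 1 by omega), h]⟩
    · exact ⟨j + 1, by omega, by rw [hCS, h', US_succ T le_rfl, US_self]⟩

/-- the work of path `c` at station `j` -/
def w0 {n : ℕ} (x : Fin 2 → Fin (n + 1 + 1) → ℝ) (c : Fin (n + 1)) (j : Fin (n + 1 + 1)) : ℝ :=
  (if (j : ℕ) ≤ c + 1 then x 0 j else 0) + (if (c : ℕ) ≤ j then x 1 j else 0)

/-- weighted length of path `c` -/
noncomputable def V0 {n : ℕ} (x : Fin 2 → Fin (n + 1 + 1) → ℝ) (u : Fin (n + 1 + 1) → ℝ)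
    (c : Fin (n + 1)) : ℝ := ∑ j, w0 x c j * u j

/-- largest weighted length -/
noncomputable def Z0 {n : ℕ} (x : Fin 2 → Fin (n + 1 + 1) → ℝ) (u : Fin (n + 1 + 1) → ℝ) : ℝ :=
  Finset.univ.sup' Finset.univ_nonempty (V0 x u)

lemma V0_le_Z0 {n : ℕ} (x : Fin 2 → Fin (n + 1 + 1) → ℝ) (u : Fin (n + 1 + 1) → ℝ)
    (c : Fin (n + 1)) : V0 x u c ≤ Z0 x u := Finset.le_sup' _ (Finset.mem_univ c)

lemma Z0_le {n : ℕ} {x : Fin 2 → Fin (n + 1 + 1) → ℝ} {u : Fin (n + 1 + 1) → ℝ} {B : ℝ}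
    (h : ∀ c, V0 x u c ≤ B) : Z0 x u ≤ B := Finset.sup'_le _ _ fun c _ => h c

lemma US_occ {n : ℕ} (x : Fin 2 → Fin (n + 1 + 1) → ℝ) (s : Fin (n + 1 + 1) → ℝ)
    (c : Fin (n + 1)) : US (occ x s) (n + 1 + 1) c = V0 x (fun j => (s j)⁻¹) c := by
  have hP : PS (occ x s) ((c : ℕ) + 2) =
      ∑ i ∈ range (n + 1 + 1), (if i ≤ (c : ℕ) + 1 then occ x s 1 (i + 1) else 0) := by
    unfold PS
    rw [← Finset.sum_filter]
    refine Finset.sum_congr ?_ fun _ _ => rfl
    ext i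
    simp only [Finset.mem_range, Finset.mem_filter]
    omega
  unfold US V0
  rw [hP, ← Finset.sum_add_distrib,
    ← Fin.sum_univ_eq_sum_range (fun i => ((if i ≤ (c : ℕ) + 1 then occ x s 1 (i + 1) else 0) +
    (if (c : ℕ) ≤ i then occ x s 2 (i + 1) else 0))) (n + 1 + 1)]
  refine Finset.sum_congr rfl fun j _ => ?_
  have e1 : occ x s 1 ((j : ℕ) + 1) = x 0 j * (s j)⁻¹ := by
    unfold occ
    rw [dif_pos ⟨⟨le_rfl, by norm_num⟩, by omega, by omega⟩, div_eq_mul_inv]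
    rfl
  have e2 : occ x s 2 ((j : ℕ) + 1) = x 1 j * (s j)⁻¹ := by
    unfold occ
    rw [dif_pos ⟨⟨by norm_num, by norm_num⟩, by omega, by omega⟩, div_eq_mul_inv]
    rfl
  rw [e1, e2]
  unfold w0
  split_ifs <;> ring

lemma depart_eq_Z0 {n : ℕ} (x : Fin 2 → Fin (n + 1 + 1) → ℝ) (hx : ∀ i j, 0 ≤ x i j)
    (s : Fin (n + 1 + 1) → ℝ) (hs : ∀ j, 0 < s j) :
    depart (occ x s) (n + 1 + 1) (.communications 0) 2 (n + 1 + 1) =
      Z0 x (fun j => (s j)⁻¹) := by
  have hT := occ_nonneg hx hs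
  rw [dep2_c0_last hT]
  apply le_antisymm
  · obtain ⟨c, hc, h⟩ := exists_US hT n
    rw [h, ← US_succ _ (show c ≤ n + 1 by omega)]
    have := US_occ x s ⟨c, hc⟩
    simp only at this
    rw [this]
    exact V0_le_Z0 _ _ _
  · refine Z0_le fun c => ?_
    rw [← US_occ, US_succ _ (show (c : ℕ) ≤ n + 1 by omega)]
    have := US_le_CS (occ x s) (n + 1) c c.2
    linarith

lemma meas_w0 {n : ℕ} (c : Fin (n + 1)) (j : Fin (n + 1 + 1)) :
    Measurable (fun x : Fin 2 → Fin (n + 1 + 1) → ℝ => w0 x c j) := by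
  unfold w0
  have m : ∀ i, Measurable (fun x : Fin 2 → Fin (n + 1 + 1) → ℝ => x i j) := by
    intro i; fun_prop
  by_cases h1 : (j : ℕ) ≤ c + 1
  · by_cases h2 : (c : ℕ) ≤ j
    · simp only [if_pos h1, if_pos h2]; exact (m 0).add (m 1)
    · simp only [if_pos h1, if_neg h2]; exact (m 0).add measurable_const
  · by_cases h2 : (c : ℕ) ≤ j
    · simp only [if_neg h1, if_pos h2]; exact measurable_const.add (m 1)
    · simp only [if_neg h1, if_neg h2]; exact measurable_const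

lemma meas_Z0 {n : ℕ} (u : Fin (n + 1 + 1) → ℝ) :
    Measurable (fun x : Fin 2 → Fin (n + 1 + 1) → ℝ => Z0 x u) := by
  have hV : ∀ c, Measurable (fun x : Fin 2 → Fin (n + 1 + 1) → ℝ => V0 x u c) := by
    intro c
    unfold V0
    exact Finset.measurable_fun_sum _ fun j _ => (meas_w0 c j).mul_const _
  have h := Finset.measurable_sup' (s := (Finset.univ : Finset (Fin (n + 1))))
    Finset.univ_nonempty (f := fun c (x : Fin 2 → Fin (n + 1 + 1) → ℝ) => V0 x u c)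
    (fun c _ => hV c)
  have e : (fun x : Fin 2 → Fin (n + 1 + 1) → ℝ => Z0 x u) =
      Finset.univ.sup' Finset.univ_nonempty
      (fun c (x : Fin 2 → Fin (n + 1 + 1) → ℝ) => V0 x u c) := by
    ext x
    rw [Finset.sup'_apply]
    rfl
  rw [e]; exact h

lemma w0_nonneg {n : ℕ} {x : Fin 2 → Fin (n + 1 + 1) → ℝ} (hx : ∀ i j, 0 ≤ x i j)
    (c : Fin (n + 1)) (j : Fin (n + 1 + 1)) : 0 ≤ w0 x c j := by
  unfold w0
  have h0 := hx 0 j
  have h1 := hx 1 j
  split_ifs <;> linarith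

lemma w0_le {n : ℕ} {x : Fin 2 → Fin (n + 1 + 1) → ℝ} (hx : ∀ i j, 0 ≤ x i j)
    (c : Fin (n + 1)) (j : Fin (n + 1 + 1)) : w0 x c j ≤ x 0 j + x 1 j := by
  unfold w0
  have h0 := hx 0 j
  have h1 := hx 1 j
  split_ifs <;> linarith

lemma V0_nonneg {n : ℕ} {x : Fin 2 → Fin (n + 1 + 1) → ℝ} (hx : ∀ i j, 0 ≤ x i j)
    {u : Fin (n + 1 + 1) → ℝ} (hu : ∀ j, 0 ≤ u j) (c : Fin (n + 1)) : 0 ≤ V0 x u c :=
  Finset.sum_nonneg fun j _ => mul_nonneg (w0_nonneg hx c j) (hu j)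

lemma V0_le_tt {n : ℕ} {x : Fin 2 → Fin (n + 1 + 1) → ℝ} (hx : ∀ i j, 0 ≤ x i j)
    {u : Fin (n + 1 + 1) → ℝ} {C : ℝ} (hC : 0 ≤ C) (hu : ∀ j, u j ≤ C) (c : Fin (n + 1)) :
    V0 x u c ≤ C * tt x := by
  unfold V0 tt
  rw [Finset.mul_sum]
  refine Finset.sum_le_sum fun j _ => ?_
  have h1 := w0_nonneg hx c j
  have h2 := w0_le hx c j
  have h3 := mul_le_mul_of_nonneg_left (hu j) h1
  have h4 := mul_le_mul_of_nonneg_left h2 hC
  linarith

lemma V0_shift {n : ℕ} (M : ℝ) (y : Fin 2 → Fin (n + 1 + 1) → ℝ) (u : Fin (n + 1 + 1) → ℝ)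
    (c : Fin (n + 1)) :
    V0 (XM M y) u c = M * (∑ j, u j + u c.castSucc + u c.succ) + V0 y u c := by
  have h : ∀ j, w0 (XM M y) c j * u j = M * u j + ((if j = c.castSucc then M * u j else 0) +
      (if j = c.succ then M * u j else 0)) + w0 y c j * u j := by
    intro j
    unfold w0 XM
    simp only [Fin.ext_iff, Fin.val_castSucc, Fin.val_succ]
    split_ifs <;> first | ring1 | (exfalso; omega)
  unfold V0
  rw [Finset.sum_congr rfl fun j _ => h j, Finset.sum_add_distrib, Finset.sum_add_distrib,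
    Finset.sum_add_distrib, Finset.sum_ite_eq', Finset.sum_ite_eq', if_pos (Finset.mem_univ _),
    if_pos (Finset.mem_univ _), ← Finset.mul_sum]
  ring

/-- expected makespan, communications blocking with no buffer, shifted law -/
noncomputable def FC (ν : Measure ℝ) (n : ℕ) (M : ℝ) (s : Fin (n + 1 + 1) → ℝ) : ℝ :=
  ∫ y, Z0 (XM M y) (fun j => (s j)⁻¹) ∂PN ν (n + 1)

lemma exp_eqC {ν : Measure ℝ} [IsProbabilityMeasure ν] (h0 : ∀ᵐ x ∂ν, 0 ≤ x) {n : ℕ} {M : ℝ}
    (hM : 0 ≤ M) (s : Fin (n + 1 + 1) → ℝ) (hs : ∀ j, 0 < s j) :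
    expMakespan (shiftLaw ν M) (.communications 0) 2 (n + 1 + 1) s = FC ν n M s := by
  have h1 : expMakespan (shiftLaw ν M) (.communications 0) 2 (n + 1 + 1) s =
      ∫ x, Z0 x (fun j => (s j)⁻¹) ∂PN (shiftLaw ν M) (n + 1) := by
    refine integral_congr_ae ?_
    filter_upwards [ae_nnN (shift_nn h0 hM) (n + 1)] with x hx
    exact depart_eq_Z0 x hx s hs
  rw [h1, ← (mp_XM ν (n + 1) M).map_eq]
  exact integral_map (mp_XM ν (n + 1) M).measurable.aemeasurable
    (meas_Z0 _).aestronglyMeasurable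

lemma int_Z0 {ν : Measure ℝ} [IsProbabilityMeasure ν] (h0 : ∀ᵐ x ∂ν, 0 ≤ x)
    (h1 : Integrable (fun x : ℝ => x) ν) {n : ℕ} {M : ℝ} (hM : 0 ≤ M)
    {u : Fin (n + 1 + 1) → ℝ} (hu : ∀ j, 0 ≤ u j) :
    Integrable (fun y => Z0 (XM M y) u) (PN ν (n + 1)) := by
  have hi : Integrable (fun y : Fin 2 → Fin (n + 1 + 1) → ℝ => (∑ j, u j) * tt (XM M y))
      (PN ν (n + 1)) := by
    simp only [tt_shift]
    exact ((integrable_const _).add (int_tt h1 (n + 1))).const_mul _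
  refine Integrable.mono' hi ((meas_Z0 u).comp (meas_XM M)).aestronglyMeasurable ?_
  filter_upwards [ae_nnN h0 (n + 1)] with y hy
  have hx : ∀ i j, 0 ≤ XM M y i j := fun i j => add_nonneg hM (hy i j)
  show ‖Z0 (XM M y) u‖ ≤ _
  rw [Real.norm_of_nonneg ((V0_nonneg hx hu 0).trans (V0_le_Z0 _ _ _))]
  exact Z0_le fun c => V0_le_tt hx (Finset.sum_nonneg fun j _ => hu j) (fun j =>
    Finset.single_le_sum (f := u) (fun i _ => hu i) (Finset.mem_univ j)) c

lemma exists_opt_FC {ν : Measure ℝ} [IsProbabilityMeasure ν] (h0 : ∀ᵐ x ∂ν, 0 ≤ x)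
    (h1 : Integrable (fun x : ℝ => x) ν) {n : ℕ} {M : ℝ} (hM : 0 < M) :
    ∃ s ∈ allocations (n + 1 + 1), ∀ s' ∈ allocations (n + 1 + 1), FC ν n M s ≤ FC ν n M s' := by
  have hm : (0 : ℝ) < (n : ℝ) + 1 + 1 := by positivity
  set eq : Fin (n + 1 + 1) → ℝ := fun _ => 1 / ((n : ℝ) + 1 + 1) with heq
  have heqmem : eq ∈ allocations (n + 1 + 1) := by
    refine ⟨fun j => by positivity, ?_⟩
    simp only [heq, Finset.sum_const, Finset.card_univ, Fintype.card_fin, nsmul_eq_mul]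
    push_cast
    field_simp
  set B := FC ν n M eq with hB
  have hBnn : 0 ≤ B := by
    refine integral_nonneg_of_ae ?_
    filter_upwards [ae_nnN h0 (n + 1)] with y hy
    exact (V0_nonneg (fun i j => add_nonneg hM.le (hy i j))
      (fun j => (inv_pos.mpr (heqmem.1 j)).le) 0).trans (V0_le_Z0 _ _ _)
  have hlow : ∀ s ∈ allocations (n + 1 + 1), ∀ j, M * (s j)⁻¹ ≤ FC ν n M s := by
    intro s hs j
    have hc : M * (s j)⁻¹ = ∫ _ : Fin 2 → Fin (n + 1 + 1) → ℝ, M * (s j)⁻¹ ∂PN ν (n + 1) := by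
      simp
    rw [hc]
    refine integral_mono_ae (integrable_const _)
      (int_Z0 h0 h1 hM.le fun j => (inv_pos.mpr (hs.1 j)).le) ?_
    filter_upwards [ae_nnN h0 (n + 1)] with y hy
    show M * (s j)⁻¹ ≤ Z0 (XM M y) (fun j => (s j)⁻¹)
    refine le_trans ?_ (V0_le_Z0 (XM M y) (fun j => (s j)⁻¹) 0)
    have hu : ∀ j, 0 ≤ (s j)⁻¹ := fun j => (inv_pos.mpr (hs.1 j)).le
    rw [V0_shift]
    have h2 : (s j)⁻¹ ≤ ∑ j, (s j)⁻¹ :=
      Finset.single_le_sum (f := fun j => (s j)⁻¹) (fun i _ => hu i) (Finset.mem_univ j)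
    have h3 := V0_nonneg hy hu (0 : Fin (n + 1))
    have h4 := hu (Fin.castSucc (0 : Fin (n + 1)))
    have h5 := hu (Fin.succ (0 : Fin (n + 1)))
    have h6 := mul_le_mul_of_nonneg_left (show (s j)⁻¹ ≤ ∑ j, (s j)⁻¹ +
      (s (Fin.castSucc (0 : Fin (n + 1))))⁻¹ + (s (Fin.succ (0 : Fin (n + 1))))⁻¹ by linarith)
      hM.le
    linarith
  set η : ℝ := min (1 / ((n : ℝ) + 1 + 1)) (M / (B + 1)) with hη
  have hηpos : 0 < η := lt_min (by positivity) (by positivity)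
  have hη3 : η ≤ 1 / ((n : ℝ) + 1 + 1) := min_le_left _ _
  set K : Set (Fin (n + 1 + 1) → ℝ) := Set.Icc (fun _ => η) (fun _ => 1) ∩ {s | ∑ j, s j = 1}
    with hK
  have hKc : IsCompact K := isCompact_Icc.inter_right
    (isClosed_eq (by fun_prop) continuous_const)
  have hle1 : ∀ s ∈ allocations (n + 1 + 1), ∀ j, s j ≤ 1 := fun s hs j => by
    rw [← hs.2]
    exact Finset.single_le_sum (fun i _ => (hs.1 i).le) (Finset.mem_univ j)
  have hKe : eq ∈ K := ⟨⟨fun j => hη3, fun j => hle1 eq heqmem j⟩, heqmem.2⟩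
  have hKpos : ∀ s ∈ K, ∀ j, 0 < s j := fun s hs j => by
    have := hs.1.1 j
    simp only at this
    linarith
  have hcont : ContinuousOn (FC ν n M) K := by
    refine continuousOn_of_dominated (bound := fun y => η⁻¹ * tt (XM M y)) ?_ ?_ ?_ ?_
    · intro s _
      exact ((meas_Z0 _).comp (meas_XM M)).aestronglyMeasurable
    · intro s hs
      have hinv : ∀ j, (s j)⁻¹ ≤ η⁻¹ := fun j => by
        have := hs.1.1 j
        simp only at this
        exact inv_anti₀ hηpos this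
      filter_upwards [ae_nnN h0 (n + 1)] with y hy
      have hx : ∀ i j, 0 ≤ XM M y i j := fun i j => add_nonneg hM.le (hy i j)
      rw [Real.norm_of_nonneg ((V0_nonneg hx (fun j => (inv_pos.mpr (hKpos s hs j)).le) 0).trans
        (V0_le_Z0 _ _ _))]
      exact Z0_le fun c => V0_le_tt hx (inv_pos.mpr hηpos).le hinv c
    · simp only [tt_shift]
      exact ((integrable_const _).add (int_tt h1 (n + 1))).const_mul _
    · refine Eventually.of_forall fun y => ?_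
      have hinv : ∀ j : Fin (n + 1 + 1), ContinuousOn
          (fun s : Fin (n + 1 + 1) → ℝ => (s j)⁻¹) K :=
        fun j => (continuous_apply j).continuousOn.inv₀ (fun s hs => (hKpos s hs j).ne')
      unfold Z0
      refine ContinuousOn.finset_sup'_apply Finset.univ_nonempty fun c _ => ?_
      unfold V0
      exact continuousOn_finsetSum _ fun j _ => continuousOn_const.mul (hinv j)
  obtain ⟨s0, hs0, hmin⟩ := hKc.exists_isMinOn ⟨eq, hKe⟩ hcont
  refine ⟨s0, ⟨hKpos s0 hs0, hs0.2⟩, fun s' hs' => ?_⟩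
  by_cases h : s' ∈ K
  · exact hmin h
  · have : ∃ j, s' j < η := by
      by_contra hcon
      push Not at hcon
      exact h ⟨⟨hcon, hle1 s' hs'⟩, hs'.2⟩
    obtain ⟨j, hj⟩ := this
    have g1 : FC ν n M s0 ≤ B := hmin hKe
    have g2 := hlow s' hs' j
    have g3 : B + 1 ≤ M * (s' j)⁻¹ := by
      have g4 : s' j ≤ M / (B + 1) := hj.le.trans (min_le_right _ _)
      rw [le_div_iff₀ (by linarith)] at g4
      rw [← div_eq_mul_inv, le_div_iff₀ (hs'.1 j)]
      linarith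
    linarith

end Pool.Agent.Y168.Bowl
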