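import Mathlib
import Pool.Agent.Y168.Bowl.Comm

set_option autoImplicit false

namespace Pool.Agent.Y168.Bowl

open MeasureTheory Filter Topology ProbabilityTheory Finset
open Pool.Agent.Results.MP_eb4cdf_pr.InvertedBowl

/-- alternating sequence -/
noncomputable def alt (p q : ℝ) (j : ℕ) : ℝ := if j % 2 = 0 then p else q

lemma alt_even (p q : ℝ) (k : ℕ) : alt p q (2 * k) = p := if_pos (by omega)
lemma alt_odd (p q : ℝ) (k : ℕ) : alt p q (2 * k + 1) = q := if_neg (by omega)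

lemma sum_alt (p q : ℝ) (t : ℕ) :
    ∑ j ∈ range (2 * t + 1), alt p q j = ((t : ℝ) + 1) * p + t * q := by
  induction t with
  | zero => simp [alt]
  | succ t ih =>
    have e : 2 * (t + 1) + 1 = 2 * t + 1 + 1 + 1 := by ring
    rw [e, Finset.sum_range_succ, Finset.sum_range_succ, ih, alt_odd]
    have e2 : 2 * t + 1 + 1 = 2 * (t + 1) := by ring
    rw [e2, alt_even]
    push_cast
    ring

/-- dual weights -/
noncomputable def wt (κ c : ℕ) : ℝ :=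
  (if c % 2 = 0 then ((κ : ℝ) + 1 - (c / 2 : ℕ)) else ((c / 2 : ℕ) : ℝ) + 1) /
    (((κ : ℝ) + 1) * (κ + 2))

lemma wt_even (κ k : ℕ) : wt κ (2 * k) = ((κ : ℝ) + 1 - k) / (((κ : ℝ) + 1) * (κ + 2)) := by
  have h1 : 2 * k % 2 = 0 := by omega
  have h2 : 2 * k / 2 = k := by omega
  unfold wt
  rw [if_pos h1, h2]

lemma wt_odd (κ k : ℕ) : wt κ (2 * k + 1) = ((k : ℝ) + 1) / (((κ : ℝ) + 1) * (κ + 2)) := by
  have h1 : ¬ (2 * k + 1) % 2 = 0 := by omega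
  have h2 : (2 * k + 1) / 2 = k := by omega
  unfold wt
  rw [if_neg h1, h2]

lemma wt_nonneg (κ c : ℕ) (hc : c < 2 * κ + 1 + 1) : 0 ≤ wt κ c := by
  obtain ⟨k, hk | hk⟩ := Nat.even_or_odd' c
  · rw [hk, wt_even]
    have : (k : ℝ) ≤ κ := by exact_mod_cast (show k ≤ κ by omega)
    exact div_nonneg (by linarith) (by positivity)
  · rw [hk, wt_odd]
    positivity

lemma wt_add (κ c : ℕ) :
    wt κ c + wt κ (c + 1) = alt (1 / ((κ : ℝ) + 2)) (1 / ((κ : ℝ) + 1)) (c + 1) := by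
  obtain ⟨k, hk | hk⟩ := Nat.even_or_odd' c
  · rw [hk, wt_even, wt_odd, alt_odd]
    field_simp
    ring
  · have e : 2 * k + 1 + 1 = 2 * (k + 1) := by ring
    rw [hk, wt_odd, e, wt_even, alt_even]
    push_cast
    field_simp
    ring

lemma wt_sum (κ : ℕ) (u : ℕ → ℝ) (t : ℕ) :
    ∑ c ∈ range (t + 1), wt κ c * (u c + u (c + 1)) =
      ∑ j ∈ range (t + 1), alt (1 / ((κ : ℝ) + 2)) (1 / ((κ : ℝ) + 1)) j * u j +
        wt κ t * u (t + 1) := by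
  induction t with
  | zero =>
    have h0 : wt κ 0 = 1 / ((κ : ℝ) + 2) := by
      have := wt_even κ 0
      simp only [mul_zero, Nat.cast_zero, sub_zero] at this
      rw [this]
      field_simp
    have h1 : alt (1 / ((κ : ℝ) + 2)) (1 / ((κ : ℝ) + 1)) 0 = 1 / ((κ : ℝ) + 2) := alt_even _ _ 0
    simp only [zero_add, Finset.sum_range_one]
    rw [h1, h0]; ring
  | succ t ih =>
    rw [Finset.sum_range_succ, ih, Finset.sum_range_succ _ (t + 1), ← wt_add κ t]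
    ring

lemma wt_sum_full (κ : ℕ) (u : ℕ → ℝ) :
    ∑ c ∈ range (2 * κ + 1 + 1), wt κ c * (u c + u (c + 1)) =
      ∑ j ∈ range (2 * κ + 1 + 1 + 1),
        alt (1 / ((κ : ℝ) + 2)) (1 / ((κ : ℝ) + 1)) j * u j := by
  rw [wt_sum, Finset.sum_range_succ _ (2 * κ + 1 + 1)]
  congr 1
  have e : 2 * κ + 1 + 1 = 2 * (κ + 1) := by ring
  have h1 : alt (1 / ((κ : ℝ) + 2)) (1 / ((κ : ℝ) + 1)) (2 * κ + 1 + 1) = 1 / ((κ : ℝ) + 2) := by
    rw [e]; exact alt_even _ _ (κ + 1)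
  rw [h1, wt_odd]
  congr 1
  field_simp

lemma wt_total (κ : ℕ) : ∑ c ∈ range (2 * κ + 1 + 1), wt κ c = 1 := by
  have h := wt_sum_full κ (fun _ => 1)
  have e : 2 * κ + 1 + 1 + 1 = 2 * (κ + 1) + 1 := by ring
  rw [e] at h
  simp only [mul_one] at h
  rw [sum_alt] at h
  have h2 : ∑ c ∈ range (2 * κ + 1 + 1), wt κ c * (1 + 1) =
      2 * ∑ c ∈ range (2 * κ + 1 + 1), wt κ c := by
    rw [Finset.mul_sum]
    exact Finset.sum_congr rfl fun _ _ => by ring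
  rw [h2] at h
  have h3 : (((κ + 1 : ℕ) : ℝ) + 1) * (1 / ((κ : ℝ) + 2)) + ((κ + 1 : ℕ) : ℝ) *
      (1 / ((κ : ℝ) + 1)) = 2 := by
    push_cast
    field_simp
    ring
  rw [h3] at h
  linarith

/-- coefficients of the dual bound -/
noncomputable def AC (κ : ℕ) : ℝ := ((κ : ℝ) + 3) / (κ + 2)
noncomputable def BC (κ : ℕ) : ℝ := ((κ : ℝ) + 2) / (κ + 1)

lemma AC_eq (κ : ℕ) : AC κ = 1 + 1 / ((κ : ℝ) + 2) := by
  unfold AC; field_simp; ring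

lemma BC_eq (κ : ℕ) : BC κ = 1 + 1 / ((κ : ℝ) + 1) := by
  unfold BC; field_simp; ring

lemma AC_lt_BC (κ : ℕ) : AC κ < BC κ := by
  unfold AC BC
  rw [div_lt_div_iff₀ (by positivity) (by positivity)]
  nlinarith

lemma AC_pos (κ : ℕ) : 0 < AC κ := by unfold AC; positivity
lemma BC_pos (κ : ℕ) : 0 < BC κ := by unfold BC; positivity

/-- pointwise lower bound -/
lemma Z0_lower {κ : ℕ} {M : ℝ} {y : Fin 2 → Fin (2 * κ + 1 + 1 + 1) → ℝ}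
    (hy : ∀ i j, 0 ≤ y i j) {u : Fin (2 * κ + 1 + 1 + 1) → ℝ} (hu : ∀ j, 0 ≤ u j) :
    M * ∑ j : Fin (2 * κ + 1 + 1 + 1), alt (AC κ) (BC κ) j * u j ≤ Z0 (n := 2 * κ + 1) (XM M y) u := by
  set Z := Z0 (n := 2 * κ + 1) (XM M y) u with hZ
  have hc : ∀ c : Fin (2 * κ + 1 + 1), M * (∑ j, u j + (xt u c + xt u (c + 1))) ≤ Z := by
    intro c
    have h1 := V0_le_Z0 (n := 2 * κ + 1) (XM M y) u c
    rw [V0_shift] at h1
    have h2 := V0_nonneg (n := 2 * κ + 1) hy hu c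
    have e1 : xt u c = u c.castSucc := by
      rw [xt_of_lt u (show (c : ℕ) < 2 * κ + 1 + 1 + 1 by omega)]; rfl
    have e2 : xt u (c + 1) = u c.succ := by
      rw [xt_of_lt u (show (c : ℕ) + 1 < 2 * κ + 1 + 1 + 1 by omega)]; rfl
    rw [e1, e2, ← add_assoc]
    linarith
  have h1 : ∑ c : Fin (2 * κ + 1 + 1), wt κ c * (M * (∑ j, u j + (xt u c + xt u (c + 1)))) ≤
      ∑ c : Fin (2 * κ + 1 + 1), wt κ c * Z :=
    Finset.sum_le_sum fun c _ => mul_le_mul_of_nonneg_left (hc c) (wt_nonneg κ c c.2)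
  have h2 : ∑ c : Fin (2 * κ + 1 + 1), wt κ c = 1 := by
    rw [Fin.sum_univ_eq_sum_range (fun c => wt κ c), wt_total]
  rw [← Finset.sum_mul, h2, one_mul] at h1
  refine le_trans (le_of_eq ?_) h1
  have e1 : ∀ c : Fin (2 * κ + 1 + 1), wt κ c * (M * (∑ j, u j + (xt u c + xt u (c + 1)))) =
      M * (∑ j, u j) * wt κ c + M * (wt κ c * (xt u c + xt u (c + 1))) := fun c => by ring
  rw [Finset.sum_congr rfl fun c _ => e1 c, Finset.sum_add_distrib, ← Finset.mul_sum, h2,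
    ← Finset.mul_sum,
    Fin.sum_univ_eq_sum_range (fun c => wt κ c * (xt u c + xt u (c + 1))) (2 * κ + 1 + 1),
    wt_sum_full]
  rw [← Fin.sum_univ_eq_sum_range (fun j => alt (1 / ((κ : ℝ) + 2)) (1 / ((κ : ℝ) + 1)) j *
    xt u j) (2 * κ + 1 + 1 + 1)]
  have e2 : ∀ j : Fin (2 * κ + 1 + 1 + 1), alt (AC κ) (BC κ) j * u j = u j +
      alt (1 / ((κ : ℝ) + 2)) (1 / ((κ : ℝ) + 1)) j * xt u j := by
    intro j
    rw [xt_of_lt u j.2]
    have : alt (AC κ) (BC κ) j = 1 + alt (1 / ((κ : ℝ) + 2)) (1 / ((κ : ℝ) + 1)) j := by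
      unfold alt
      rw [AC_eq, BC_eq]
      split_ifs <;> rfl
    rw [this]; ring
  rw [Finset.sum_congr rfl fun j _ => e2 j, Finset.sum_add_distrib]
  ring

/-- normalising constant -/
noncomputable def SS (κ : ℕ) : ℝ :=
  ((κ : ℝ) + 2) * Real.sqrt (AC κ) + ((κ : ℝ) + 1) * Real.sqrt (BC κ)

/-- the alternating allocation -/
noncomputable def sA (κ : ℕ) (j : Fin (2 * κ + 1 + 1 + 1)) : ℝ :=
  alt (Real.sqrt (AC κ) / SS κ) (Real.sqrt (BC κ) / SS κ) j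

lemma SS_pos (κ : ℕ) : 0 < SS κ := by
  have h1 := Real.sqrt_pos.mpr (AC_pos κ)
  have h2 := Real.sqrt_pos.mpr (BC_pos κ)
  unfold SS
  positivity

lemma sA_pos (κ : ℕ) (j : Fin (2 * κ + 1 + 1 + 1)) : 0 < sA κ j := by
  have h1 := Real.sqrt_pos.mpr (AC_pos κ)
  have h2 := Real.sqrt_pos.mpr (BC_pos κ)
  have h3 := SS_pos κ
  unfold sA alt
  split_ifs <;> positivity

lemma sum_altFin (κ : ℕ) (p q : ℝ) :
    ∑ j : Fin (2 * κ + 1 + 1 + 1), alt p q j = ((κ : ℝ) + 2) * p + ((κ : ℝ) + 1) * q := by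
  rw [Fin.sum_univ_eq_sum_range (fun j => alt p q j) (2 * κ + 1 + 1 + 1)]
  have e : 2 * κ + 1 + 1 + 1 = 2 * (κ + 1) + 1 := by ring
  rw [e, sum_alt]
  push_cast
  ring

lemma sA_mem (κ : ℕ) : sA κ ∈ allocations (2 * κ + 1 + 1 + 1) := by
  refine ⟨sA_pos κ, ?_⟩
  unfold sA
  rw [sum_altFin]
  have h3 := (SS_pos κ).ne'
  field_simp
  unfold SS
  ring

lemma inv_sA (κ : ℕ) (j : Fin (2 * κ + 1 + 1 + 1)) :
    (sA κ j)⁻¹ = alt (SS κ / Real.sqrt (AC κ)) (SS κ / Real.sqrt (BC κ)) j := by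
  unfold sA alt
  split_ifs <;> rw [inv_div]

lemma alt_consec (p q : ℝ) (c : ℕ) : alt p q c + alt p q (c + 1) = p + q := by
  obtain ⟨k, hk | hk⟩ := Nat.even_or_odd' c
  · rw [hk, alt_even, alt_odd]
  · have e : 2 * k + 1 + 1 = 2 * (k + 1) := by ring
    rw [hk, alt_odd, e, alt_even, add_comm]

/-- upper bound at the alternating allocation -/
lemma Z0_upper {κ : ℕ} {M : ℝ} {y : Fin 2 → Fin (2 * κ + 1 + 1 + 1) → ℝ}
    (hy : ∀ i j, 0 ≤ y i j) :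
    Z0 (n := 2 * κ + 1) (XM M y) (fun j => (sA κ j)⁻¹) ≤
      M * SS κ ^ 2 + (∑ j, (sA κ j)⁻¹) * tt y := by
  have hu : ∀ j, 0 ≤ (sA κ j)⁻¹ := fun j => (inv_pos.mpr (sA_pos κ j)).le
  refine Z0_le fun c => ?_
  rw [V0_shift]
  have h1 := V0_le_tt (n := 2 * κ + 1) hy (Finset.sum_nonneg fun j _ => hu j)
    (fun j => Finset.single_le_sum (f := fun j => (sA κ j)⁻¹) (fun i _ => hu i)
      (Finset.mem_univ j)) c
  have h2 : ∑ j, (sA κ j)⁻¹ + (sA κ c.castSucc)⁻¹ + (sA κ c.succ)⁻¹ = SS κ ^ 2 := by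
    simp only [inv_sA]
    rw [sum_altFin, add_assoc]
    have e := alt_consec (SS κ / Real.sqrt (AC κ)) (SS κ / Real.sqrt (BC κ)) c
    have e' : alt (SS κ / Real.sqrt (AC κ)) (SS κ / Real.sqrt (BC κ))
        ((c.castSucc : Fin (2 * κ + 1 + 1 + 1)) : ℕ) +
        alt (SS κ / Real.sqrt (AC κ)) (SS κ / Real.sqrt (BC κ))
        ((c.succ : Fin (2 * κ + 1 + 1 + 1)) : ℕ) =
        SS κ / Real.sqrt (AC κ) + SS κ / Real.sqrt (BC κ) := by
      rw [Fin.val_castSucc, Fin.val_succ]; exact e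
    rw [e']
    have ha := Real.sqrt_pos.mpr (AC_pos κ)
    have hb := Real.sqrt_pos.mpr (BC_pos κ)
    have ha2 : Real.sqrt (AC κ) * Real.sqrt (AC κ) = AC κ := Real.mul_self_sqrt (AC_pos κ).le
    have hb2 : Real.sqrt (BC κ) * Real.sqrt (BC κ) = BC κ := Real.mul_self_sqrt (BC_pos κ).le
    have hA : ((κ : ℝ) + 3) / Real.sqrt (AC κ) = ((κ : ℝ) + 2) * Real.sqrt (AC κ) := by
      rw [div_eq_iff ha.ne', mul_assoc, ha2]
      unfold AC
      field_simp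
    have hB : ((κ : ℝ) + 2) / Real.sqrt (BC κ) = ((κ : ℝ) + 1) * Real.sqrt (BC κ) := by
      rw [div_eq_iff hb.ne', mul_assoc, hb2]
      unfold BC
      field_simp
    calc ((κ : ℝ) + 2) * (SS κ / Real.sqrt (AC κ)) + ((κ : ℝ) + 1) * (SS κ / Real.sqrt (BC κ)) +
        (SS κ / Real.sqrt (AC κ) + SS κ / Real.sqrt (BC κ))
        = SS κ * (((κ : ℝ) + 3) / Real.sqrt (AC κ) + ((κ : ℝ) + 2) / Real.sqrt (BC κ)) := by ring
      _ = SS κ * SS κ := by rw [hA, hB]; rfl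
      _ = SS κ ^ 2 := by ring
  rw [h2]
  linarith

/-- the gap between bowl-shaped allocations and the alternating one -/
lemma dual_gap {κ : ℕ} (hκ : 1 ≤ κ) {s : Fin (2 * κ + 1 + 1 + 1) → ℝ}
    (hs : s ∈ allocations (2 * κ + 1 + 1 + 1)) (hb : BowlShaped s) :
    SS κ ^ 2 + (Real.sqrt (BC κ) - Real.sqrt (AC κ)) ^ 2 / 2 ≤
      ∑ j : Fin (2 * κ + 1 + 1 + 1), alt (AC κ) (BC κ) j * (s j)⁻¹ := by
  have hS := SS_pos κ
  have hle1 : ∀ j, s j ≤ 1 := fun j => by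
    rw [← hs.2]
    exact Finset.single_le_sum (fun i _ => (hs.1 i).le) (Finset.mem_univ j)
  have hC : ∀ j : Fin (2 * κ + 1 + 1 + 1), alt (AC κ) (BC κ) j = SS κ ^ 2 * sA κ j ^ 2 := by
    intro j
    unfold sA alt
    split_ifs
    · rw [div_pow, Real.sq_sqrt (AC_pos κ).le]; field_simp
    · rw [div_pow, Real.sq_sqrt (BC_pos κ).le]; field_simp
  have hterm : ∀ j, SS κ ^ 2 * (2 * sA κ j - s j + (s j - sA κ j) ^ 2) ≤
      alt (AC κ) (BC κ) j * (s j)⁻¹ := by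
    intro j
    rw [hC j, mul_assoc]
    refine mul_le_mul_of_nonneg_left ?_ (by positivity)
    have hp := hs.1 j
    rw [← div_eq_mul_inv, le_div_iff₀ hp]
    have h1 := hle1 j
    have h2 : (s j - sA κ j) ^ 2 * s j ≤ (s j - sA κ j) ^ 2 := by
      have := mul_le_mul_of_nonneg_left h1 (sq_nonneg (s j - sA κ j))
      linarith
    nlinarith
  have hsum := Finset.sum_le_sum fun j (_ : j ∈ Finset.univ) => hterm j
  have e : ∑ j, SS κ ^ 2 * (2 * sA κ j - s j + (s j - sA κ j) ^ 2) =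
      SS κ ^ 2 + SS κ ^ 2 * ∑ j, (s j - sA κ j) ^ 2 := by
    rw [← Finset.mul_sum, Finset.sum_add_distrib, Finset.sum_sub_distrib, ← Finset.mul_sum,
      hs.2, (sA_mem κ).2]
    ring
  rw [e] at hsum
  set j1 : Fin (2 * κ + 1 + 1 + 1) := ⟨1, by omega⟩ with hj1
  set j2 : Fin (2 * κ + 1 + 1 + 1) := ⟨2, by omega⟩ with hj2
  have hs12 : s j1 ≤ s j2 := hb.2 j1 j2 (by
    show (1 : ℕ) ≤ 2
    norm_num) (by
    show 2 + 1 ≤ (2 * κ + 1 + 1 + 1 + 1) / 2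
    omega)
  have h12 : (s j1 - sA κ j1) ^ 2 + (s j2 - sA κ j2) ^ 2 ≤ ∑ j, (s j - sA κ j) ^ 2 := by
    have hne : j1 ≠ j2 := by
      intro hcon
      have := congrArg Fin.val hcon
      simp [hj1, hj2] at this
    rw [← Finset.sum_pair (f := fun j => (s j - sA κ j) ^ 2) hne]
    exact Finset.sum_le_sum_of_subset_of_nonneg (Finset.subset_univ _)
      (fun j _ _ => sq_nonneg _)
  have hv1 : sA κ j1 = Real.sqrt (BC κ) / SS κ := alt_odd _ _ 0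
  have hv2 : sA κ j2 = Real.sqrt (AC κ) / SS κ := alt_even _ _ 1
  have hab : Real.sqrt (AC κ) < Real.sqrt (BC κ) :=
    Real.sqrt_lt_sqrt (AC_pos κ).le (AC_lt_BC κ)
  have hσ : sA κ j2 < sA κ j1 := by
    rw [hv1, hv2]
    exact div_lt_div_of_pos_right hab hS
  have h3 : (sA κ j1 - sA κ j2) ^ 2 / 2 ≤ (s j1 - sA κ j1) ^ 2 + (s j2 - sA κ j2) ^ 2 := by
    nlinarith [sq_nonneg ((s j1 - sA κ j1) + (s j2 - sA κ j2)),
      mul_nonneg (sub_nonneg.mpr hs12) (sub_nonneg.mpr hσ.le), sq_nonneg (s j2 - s j1)]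
  have h4 : SS κ ^ 2 * ((sA κ j1 - sA κ j2) ^ 2 / 2) =
      (Real.sqrt (BC κ) - Real.sqrt (AC κ)) ^ 2 / 2 := by
    rw [hv1, hv2]
    field_simp
  have h5 : SS κ ^ 2 * ((sA κ j1 - sA κ j2) ^ 2 / 2) ≤ SS κ ^ 2 * ∑ j, (s j - sA κ j) ^ 2 :=
    mul_le_mul_of_nonneg_left (h3.trans h12) (by positivity)
  rw [h4] at h5
  linarith

lemma FC_lower {ν : Measure ℝ} [IsProbabilityMeasure ν] (h0 : ∀ᵐ x ∂ν, 0 ≤ x)
    (h1 : Integrable (fun x : ℝ => x) ν) {κ : ℕ} {M : ℝ} (hM : 0 ≤ M)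
    {s : Fin (2 * κ + 1 + 1 + 1) → ℝ} (hs : ∀ j, 0 < s j) :
    M * ∑ j : Fin (2 * κ + 1 + 1 + 1), alt (AC κ) (BC κ) j * (s j)⁻¹ ≤
      FC ν (2 * κ + 1) M s := by
  have hu : ∀ j, 0 ≤ (s j)⁻¹ := fun j => (inv_pos.mpr (hs j)).le
  have hc : M * ∑ j : Fin (2 * κ + 1 + 1 + 1), alt (AC κ) (BC κ) j * (s j)⁻¹ =
      ∫ _ : Fin 2 → Fin (2 * κ + 1 + 1 + 1) → ℝ,
        M * ∑ j : Fin (2 * κ + 1 + 1 + 1), alt (AC κ) (BC κ) j * (s j)⁻¹
          ∂PN ν (2 * κ + 1 + 1) := by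
    simp
  rw [hc]
  refine integral_mono_ae (integrable_const _) (int_Z0 h0 h1 hM hu) ?_
  filter_upwards [ae_nnN h0 (2 * κ + 1 + 1)] with y hy
  exact Z0_lower hy hu

lemma FC_upper {ν : Measure ℝ} [IsProbabilityMeasure ν] (h0 : ∀ᵐ x ∂ν, 0 ≤ x)
    (h1 : Integrable (fun x : ℝ => x) ν) {κ : ℕ} {M : ℝ} (hM : 0 ≤ M) :
    FC ν (2 * κ + 1) M (sA κ) ≤ M * SS κ ^ 2 +
      (∑ j, (sA κ j)⁻¹) * ∫ y, tt y ∂PN ν (2 * κ + 1 + 1) := by
  have hu : ∀ j, 0 ≤ (sA κ j)⁻¹ := fun j => (inv_pos.mpr (sA_pos κ j)).le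
  have hi : Integrable (fun y : Fin 2 → Fin (2 * κ + 1 + 1 + 1) → ℝ =>
      (∑ j, (sA κ j)⁻¹) * tt y) (PN ν (2 * κ + 1 + 1)) := (int_tt h1 _).const_mul _
  have hc : M * SS κ ^ 2 + (∑ j, (sA κ j)⁻¹) * ∫ y, tt y ∂PN ν (2 * κ + 1 + 1) =
      ∫ y, (M * SS κ ^ 2 + (∑ j, (sA κ j)⁻¹) * tt y) ∂PN ν (2 * κ + 1 + 1) := by
    rw [integral_add (integrable_const _) hi,
      integral_const_mul (∑ j, (sA κ j)⁻¹) (fun y => tt y)]
    simp
  rw [hc]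
  refine integral_mono_ae (int_Z0 h0 h1 hM hu) ((integrable_const _).add hi) ?_
  filter_upwards [ae_nnN h0 (2 * κ + 1 + 1)] with y hy
  exact Z0_upper hy

end Pool.Agent.Y168.Bowl
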