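import Mathlib
import Pool.Agent.Y168.Bowl.Comm
import Pool.Agent.Y168.Bowl.Crit

set_option autoImplicit false

namespace Pool.Agent.Y168.Bowl

open MeasureTheory Filter Topology
open Pool.Agent.Results.MP_eb4cdf_pr.InvertedBowl

/-- makespan of two jobs on three stations, communications blocking with no buffer -/
noncomputable def LC (x : Fin 2 → Fin 3 → ℝ) (α β γ : ℝ) : ℝ :=
  x 0 0 * α + x 1 2 * γ + (x 0 1 + x 1 1) * β + max (x 1 0 * α) (x 0 2 * γ)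

lemma depart_eq_LC (x : Fin 2 → Fin 3 → ℝ) (hx : ∀ i j, 0 ≤ x i j)
    (s : Fin 3 → ℝ) (hs : ∀ j, 0 < s j) :
    depart (occ x s) 3 (.communications 0) 2 3 = LC x (s 0)⁻¹ (s 1)⁻¹ (s 2)⁻¹ := by
  have h := depart_eq_Z0 (n := 1) x hx s hs
  have hd : depart (occ x s) 3 (.communications 0) 2 3 =
      Z0 (n := 1) x (fun j => (s j)⁻¹) := h
  rw [hd]
  have v0 : V0 (n := 1) x (fun j => (s j)⁻¹) 0 =
      (x 0 0 + x 1 0) * (s 0)⁻¹ + (x 0 1 + x 1 1) * (s 1)⁻¹ + (0 + x 1 2) * (s 2)⁻¹ := by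
    unfold V0
    rw [Fin.sum_univ_three]
    rfl
  have v1 : V0 (n := 1) x (fun j => (s j)⁻¹) 1 =
      (x 0 0 + 0) * (s 0)⁻¹ + (x 0 1 + x 1 1) * (s 1)⁻¹ + (x 0 2 + x 1 2) * (s 2)⁻¹ := by
    unfold V0
    rw [Fin.sum_univ_three]
    rfl
  have hmax : x 1 0 * (s 0)⁻¹ ≤ max (x 1 0 * (s 0)⁻¹) (x 0 2 * (s 2)⁻¹) := le_max_left _ _
  have hmax2 : x 0 2 * (s 2)⁻¹ ≤ max (x 1 0 * (s 0)⁻¹) (x 0 2 * (s 2)⁻¹) := le_max_right _ _
  have g0 := V0_le_Z0 (n := 1) x (fun j => (s j)⁻¹) 0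
  have g1 := V0_le_Z0 (n := 1) x (fun j => (s j)⁻¹) 1
  rw [v0] at g0
  rw [v1] at g1
  apply le_antisymm
  · refine Z0_le fun c => ?_
    have hc : c = 0 ∨ c = 1 := by
      rcases c with ⟨c, hc⟩
      have : c = 0 ∨ c = 1 := by omega
      rcases this with rfl | rfl
      · left; rfl
      · right; rfl
    unfold LC
    rcases hc with rfl | rfl
    · rw [v0]; linarith
    · rw [v1]; linarith
  · unfold LC
    rcases max_choice (x 1 0 * (s 0)⁻¹) (x 0 2 * (s 2)⁻¹) with h' | h'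
    · rw [h']; linarith
    · rw [h']; linarith

lemma LC_conv (x : Fin 2 → Fin 3 → ℝ) (hx : ∀ i j, 0 ≤ x i j) {t : ℝ} (ht : 0 ≤ t) (ht1 : t ≤ 1)
    {α β γ α₁ β₁ γ₁ α₂ β₂ γ₂ : ℝ} (hα : α ≤ t * α₁ + (1 - t) * α₂)
    (hβ : β ≤ t * β₁ + (1 - t) * β₂) (hγ : γ ≤ t * γ₁ + (1 - t) * γ₂) :
    LC x α β γ ≤ t * LC x α₁ β₁ γ₁ + (1 - t) * LC x α₂ β₂ γ₂ := by
  have h1t : 0 ≤ 1 - t := by linarith
  simp only [LC]
  have a00 := mul_le_mul_of_nonneg_left hα (hx 0 0)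
  have a12 := mul_le_mul_of_nonneg_left hγ (hx 1 2)
  have a10 := mul_le_mul_of_nonneg_left hα (hx 1 0)
  have a11 := mul_le_mul_of_nonneg_left hβ (hx 1 1)
  have a01 := mul_le_mul_of_nonneg_left hβ (hx 0 1)
  have a02 := mul_le_mul_of_nonneg_left hγ (hx 0 2)
  set M₁ := max (x 1 0 * α₁) (x 0 2 * γ₁) with hM₁
  set M₂ := max (x 1 0 * α₂) (x 0 2 * γ₂) with hM₂
  have b1 : x 1 0 * α₁ ≤ M₁ := le_max_left _ _
  have b2 : x 0 2 * γ₁ ≤ M₁ := le_max_right _ _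
  have c1 : x 1 0 * α₂ ≤ M₂ := le_max_left _ _
  have c2 : x 0 2 * γ₂ ≤ M₂ := le_max_right _ _
  have b1' := mul_le_mul_of_nonneg_left b1 ht
  have b2' := mul_le_mul_of_nonneg_left b2 ht
  have c1' := mul_le_mul_of_nonneg_left c1 h1t
  have c2' := mul_le_mul_of_nonneg_left c2 h1t
  have d : max (x 1 0 * α) (x 0 2 * γ) ≤ t * M₁ + (1 - t) * M₂ := by
    refine max_le ?_ ?_ <;> linarith
  linarith

lemma LC_le_tot {x : Fin 2 → Fin 3 → ℝ} (hx : ∀ i j, 0 ≤ x i j) {α β γ C : ℝ}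
    (hα : α ≤ C) (hβ : β ≤ C) (hγ : γ ≤ C) (hC : 0 ≤ C) : LC x α β γ ≤ C * tot x := by
  unfold LC tot
  have a00 := mul_le_mul_of_nonneg_left hα (hx 0 0)
  have a12 := mul_le_mul_of_nonneg_left hγ (hx 1 2)
  have a10 := mul_le_mul_of_nonneg_left hα (hx 1 0)
  have a11 := mul_le_mul_of_nonneg_left hβ (hx 1 1)
  have a01 := mul_le_mul_of_nonneg_left hβ (hx 0 1)
  have a02 := mul_le_mul_of_nonneg_left hγ (hx 0 2)
  have p1 := mul_nonneg (hx 1 0) hC
  have p4 := mul_nonneg (hx 0 2) hC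
  have : max (x 1 0 * α) (x 0 2 * γ) ≤ x 1 0 * C + x 0 2 * C := by
    refine max_le ?_ ?_ <;> linarith
  linarith

lemma LC_nonneg {x : Fin 2 → Fin 3 → ℝ} (hx : ∀ i j, 0 ≤ x i j) {α β γ : ℝ}
    (hα : 0 ≤ α) (hβ : 0 ≤ β) (hγ : 0 ≤ γ) : 0 ≤ LC x α β γ := by
  unfold LC
  have a00 := mul_nonneg (hx 0 0) hα
  have a12 := mul_nonneg (hx 1 2) hγ
  have a11 := mul_nonneg (hx 1 1) hβ
  have a01 := mul_nonneg (hx 0 1) hβ
  have : 0 ≤ max (x 1 0 * α) (x 0 2 * γ) := le_max_of_le_left (mul_nonneg (hx 1 0) hα)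
  linarith

lemma LC_ge_one {x : Fin 2 → Fin 3 → ℝ} (hx : ∀ i j, 0 ≤ x i j) {s : Fin 3 → ℝ}
    (hs : ∀ j, 0 < s j) (j : Fin 3) :
    ![x 0 0, x 0 1, x 1 2] j * (s j)⁻¹ ≤ LC x (s 0)⁻¹ (s 1)⁻¹ (s 2)⁻¹ := by
  have p0 : 0 < (s 0)⁻¹ := inv_pos.mpr (hs 0)
  have p1 : 0 < (s 1)⁻¹ := inv_pos.mpr (hs 1)
  have p2 : 0 < (s 2)⁻¹ := inv_pos.mpr (hs 2)
  have a0 := mul_nonneg (hx 0 0) p0.le
  have a1 := mul_nonneg (hx 0 1) p1.le
  have a2 := mul_nonneg (hx 1 1) p1.le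
  have a3 := mul_nonneg (hx 1 2) p2.le
  have b : 0 ≤ max (x 1 0 * (s 0)⁻¹) (x 0 2 * (s 2)⁻¹) :=
    le_max_of_le_left (mul_nonneg (hx 1 0) p0.le)
  simp only [LC]
  fin_cases j
  · show x 0 0 * (s 0)⁻¹ ≤ _; linarith
  · show x 0 1 * (s 1)⁻¹ ≤ _; linarith
  · show x 1 2 * (s 2)⁻¹ ≤ _; linarith

lemma LC_rev (x : Fin 2 → Fin 3 → ℝ) (α β γ : ℝ) :
    LC (fun i j => x (Fin.rev i) (Fin.rev j)) α β γ = LC x γ β α := by
  have e0 : Fin.rev (0 : Fin 2) = 1 := rfl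
  have e1 : Fin.rev (1 : Fin 2) = 0 := rfl
  have f0 : Fin.rev (0 : Fin 3) = 2 := rfl
  have f1 : Fin.rev (1 : Fin 3) = 1 := rfl
  have f2 : Fin.rev (2 : Fin 3) = 0 := rfl
  simp only [LC, e0, e1, f0, f1, f2]
  rw [max_comm (x 0 2 * α) (x 1 0 * γ)]
  ring

lemma meas_LC (α β γ : ℝ) : Measurable (fun x : Fin 2 → Fin 3 → ℝ => LC x α β γ) := by
  unfold LC; fun_prop

lemma int_LC {μ : Measure ℝ} [IsProbabilityMeasure μ] (h0 : ∀ᵐ x ∂μ, 0 ≤ x)
    (h1 : Integrable (fun x : ℝ => x) μ) {α β γ : ℝ} (hα : 0 ≤ α) (hβ : 0 ≤ β) (hγ : 0 ≤ γ) :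
    Integrable (fun x => LC x α β γ) (PP μ) := by
  refine Integrable.mono' ((int_tot h1).const_mul (α + β + γ))
    (meas_LC α β γ).aestronglyMeasurable ?_
  filter_upwards [ae_nn h0] with x hx
  rw [Real.norm_of_nonneg (LC_nonneg hx hα hβ hγ)]
  exact LC_le_tot hx (by linarith) (by linarith) (by linarith) (by linarith)

/-- the expected makespan for communications blocking with no buffer -/
noncomputable def FD (μ : Measure ℝ) (s : Fin 3 → ℝ) : ℝ :=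
  ∫ x, LC x (s 0)⁻¹ (s 1)⁻¹ (s 2)⁻¹ ∂PP μ

lemma exp_eqD {μ : Measure ℝ} [IsProbabilityMeasure μ] (h0 : ∀ᵐ x ∂μ, 0 ≤ x)
    (s : Fin 3 → ℝ) (hs : ∀ j, 0 < s j) :
    expMakespan μ (.communications 0) 2 3 s = FD μ s := by
  refine integral_congr_ae ?_
  filter_upwards [ae_nn h0] with x hx
  exact depart_eq_LC x hx s hs

lemma FD_conv {μ : Measure ℝ} [IsProbabilityMeasure μ] (h0 : ∀ᵐ x ∂μ, 0 ≤ x)
    (h1 : Integrable (fun x : ℝ => x) μ) {t : ℝ} (ht : 0 ≤ t) (ht1 : t ≤ 1) {p q : Fin 3 → ℝ}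
    (hp : ∀ j, 0 < p j) (hq : ∀ j, 0 < q j) :
    FD μ (fun j => t * p j + (1 - t) * q j) ≤ t * FD μ p + (1 - t) * FD μ q := by
  unfold FD
  have hpos : ∀ j, 0 ≤ (t * p j + (1 - t) * q j)⁻¹ := fun j =>
    inv_nonneg.mpr (add_nonneg (mul_nonneg ht (hp j).le)
      (mul_nonneg (by linarith) (hq j).le))
  have i1 := int_LC h0 h1 (hpos 0) (hpos 1) (hpos 2)
  have i2 := int_LC h0 h1 (inv_nonneg.mpr (hp 0).le) (inv_nonneg.mpr (hp 1).le)
    (inv_nonneg.mpr (hp 2).le)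
  have i3 := int_LC h0 h1 (inv_nonneg.mpr (hq 0).le) (inv_nonneg.mpr (hq 1).le)
    (inv_nonneg.mpr (hq 2).le)
  rw [← integral_const_mul, ← integral_const_mul, ← integral_add (i2.const_mul t)
    (i3.const_mul (1 - t))]
  refine integral_mono_ae i1 ((i2.const_mul t).add (i3.const_mul (1 - t))) ?_
  filter_upwards [ae_nn h0] with x hx
  exact LC_conv x hx ht ht1 (inv_conv ht ht1 (hp 0) (hq 0)) (inv_conv ht ht1 (hp 1) (hq 1))
      (inv_conv ht ht1 (hp 2) (hq 2))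

lemma FD_rev (μ : Measure ℝ) [IsProbabilityMeasure μ] (s : Fin 3 → ℝ) :
    FD μ (fun j => s (Fin.rev j)) = FD μ s := by
  have f0 : Fin.rev (0 : Fin 3) = 2 := rfl
  have f1 : Fin.rev (1 : Fin 3) = 1 := rfl
  have f2 : Fin.rev (2 : Fin 3) = 0 := rfl
  unfold FD
  simp only [f0, f1, f2]
  calc ∫ x, LC x (s 2)⁻¹ (s 1)⁻¹ (s 0)⁻¹ ∂PP μ
      = ∫ x, LC x (s 2)⁻¹ (s 1)⁻¹ (s 0)⁻¹ ∂(Measure.map
        (fun (x : Fin 2 → Fin 3 → ℝ) i j => x (Fin.rev i) (Fin.rev j)) (PP μ)) := by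
        rw [(mp_rev μ).map_eq]
    _ = ∫ x, LC (fun i j => x (Fin.rev i) (Fin.rev j)) (s 2)⁻¹ (s 1)⁻¹ (s 0)⁻¹ ∂PP μ :=
        integral_map (mp_rev μ).measurable.aemeasurable
          (meas_LC _ _ _).aestronglyMeasurable
    _ = _ := by simp only [LC_rev]

lemma FD_ge_one {μ : Measure ℝ} [IsProbabilityMeasure μ] (h0 : ∀ᵐ x ∂μ, 0 ≤ x)
    (h1 : Integrable (fun x : ℝ => x) μ) {s : Fin 3 → ℝ} (hs : ∀ j, 0 < s j) (j : Fin 3) :
    (∫ x, x ∂μ) * (s j)⁻¹ ≤ FD μ s := by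
  have hi : ∀ j : Fin 3, Integrable (fun x : Fin 2 → Fin 3 → ℝ => ![x 0 0, x 0 1, x 1 2] j)
      (PP μ) := by
    intro j
    fin_cases j
    · exact int_coord h1 0 0
    · exact int_coord h1 0 1
    · exact int_coord h1 1 2
  have hc : ∀ (i : Fin 2) (j : Fin 3), ∫ x, x i j ∂PP μ = ∫ x, x ∂μ := by
    intro i j
    have := (mp μ i j).map_eq
    calc ∫ x, x i j ∂PP μ = ∫ y, y ∂(Measure.map (fun x : Fin 2 → Fin 3 → ℝ => x i j) (PP μ)) :=
          (integral_map (f := fun y : ℝ => y) (mp μ i j).measurable.aemeasurable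
            measurable_id.aestronglyMeasurable).symm
      _ = _ := by rw [this]
  have hval : ∀ j : Fin 3, ∫ x : Fin 2 → Fin 3 → ℝ, ![x 0 0, x 0 1, x 1 2] j ∂PP μ =
      ∫ x, x ∂μ := by
    intro j
    fin_cases j
    · exact hc 0 0
    · exact hc 0 1
    · exact hc 1 2
  rw [← hval j, ← integral_mul_const]
  refine integral_mono_ae ((hi j).mul_const _) (int_LC h0 h1 (inv_nonneg.mpr (hs 0).le)
    (inv_nonneg.mpr (hs 1).le) (inv_nonneg.mpr (hs 2).le)) ?_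
  filter_upwards [ae_nn h0] with x hx
  exact LC_ge_one hx hs j

lemma FD_nonneg {μ : Measure ℝ} [IsProbabilityMeasure μ] (h0 : ∀ᵐ x ∂μ, 0 ≤ x)
    {s : Fin 3 → ℝ} (hs : ∀ j, 0 < s j) : 0 ≤ FD μ s := by
  refine integral_nonneg_of_ae ?_
  filter_upwards [ae_nn h0] with x hx
  exact LC_nonneg hx (inv_nonneg.mpr (hs 0).le) (inv_nonneg.mpr (hs 1).le)
    (inv_nonneg.mpr (hs 2).le)

lemma exists_opt_FD {μ : Measure ℝ} [IsProbabilityMeasure μ] (h0 : ∀ᵐ x ∂μ, 0 ≤ x)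
    (h1 : Integrable (fun x : ℝ => x) μ) :
    ∃ s ∈ allocations 3, ∀ s' ∈ allocations 3, FD μ s ≤ FD μ s' := by
  have hm : 0 ≤ ∫ x, x ∂μ := integral_nonneg_of_ae h0
  rcases eq_or_lt_of_le hm with hm0 | hmpos
  · -- all works vanish almost surely
    have hz : ∀ᵐ x ∂μ, x = 0 := by
      have := (integral_eq_zero_iff_of_nonneg_ae h0 h1).mp hm0.symm
      filter_upwards [this] with x hx using hx
    have hzz : ∀ᵐ x ∂PP μ, ∀ i j, x i j = 0 := by
      rw [ae_all_iff]; intro i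
      rw [ae_all_iff]; intro j
      exact (mp μ i j).quasiMeasurePreserving.ae hz
    have hF : ∀ s, FD μ s = 0 := by
      intro s
      unfold FD
      rw [← integral_zero (μ := PP μ) (α := Fin 2 → Fin 3 → ℝ) (G := ℝ)]
      refine integral_congr_ae ?_
      filter_upwards [hzz] with x hx
      simp [LC, hx]
    exact ⟨sE 0, sE_mem (by norm_num), fun s' _ => by rw [hF, hF]⟩
  · set m1 := ∫ x, x ∂μ with hm1
    set B := FD μ (sE 0) with hB
    have hBnn : 0 ≤ B := FD_nonneg h0 (sE_pos (by norm_num))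
    set η : ℝ := min (1 / 3) (m1 / (B + 1)) with hη
    have hηpos : 0 < η := lt_min (by norm_num) (by positivity)
    have hη3 : η ≤ 1 / 3 := min_le_left _ _
    set K : Set (Fin 3 → ℝ) := Set.Icc (fun _ => η) (fun _ => 1) ∩ {s | ∑ j, s j = 1} with hK
    have hKc : IsCompact K := isCompact_Icc.inter_right
      (isClosed_eq (by fun_prop) continuous_const)
    have hsE : ∀ j, sE 0 j = 1 / 3 := by
      intro j
      fin_cases j
      · show 1 / (3 - (0:ℝ)) = 1 / 3; norm_num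
      · show (1 - (0:ℝ)) / (3 - 0) = 1 / 3; norm_num
      · show 1 / (3 - (0:ℝ)) = 1 / 3; norm_num
    have hKe : sE 0 ∈ K := ⟨⟨fun j => by rw [hsE]; exact hη3, fun j => by rw [hsE]; norm_num⟩,
      (sE_mem (by norm_num)).2⟩
    have hKpos : ∀ s ∈ K, ∀ j, 0 < s j := fun s hs j => by
      have := hs.1.1 j
      simp only at this
      linarith
    have hcont : ContinuousOn (FD μ) K := by
      refine continuousOn_of_dominated (bound := fun x => η⁻¹ * tot x) ?_ ?_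
        ((int_tot h1).const_mul _) ?_
      · intro s _
        exact (meas_LC _ _ _).aestronglyMeasurable
      · intro s hs
        have hinv : ∀ j, (s j)⁻¹ ≤ η⁻¹ := fun j => by
          have := hs.1.1 j
          simp only at this
          exact inv_anti₀ hηpos this
        filter_upwards [ae_nn h0] with x hx
        rw [Real.norm_of_nonneg (LC_nonneg hx (inv_nonneg.mpr (hKpos s hs 0).le)
          (inv_nonneg.mpr (hKpos s hs 1).le) (inv_nonneg.mpr (hKpos s hs 2).le))]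
        exact LC_le_tot hx (hinv 0) (hinv 1) (hinv 2) (inv_nonneg.mpr hηpos.le)
      · refine Eventually.of_forall fun x => ?_
        have hinv : ∀ j : Fin 3, ContinuousOn (fun s : Fin 3 → ℝ => (s j)⁻¹) K := fun j =>
          (continuous_apply j).continuousOn.inv₀ (fun s hs => (hKpos s hs j).ne')
        have g0 := hinv 0
        have g1 := hinv 1
        have g2 := hinv 2
        unfold LC
        fun_prop
    obtain ⟨s0, hs0, hmin⟩ := hKc.exists_isMinOn ⟨sE 0, hKe⟩ hcont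
    refine ⟨s0, ⟨hKpos s0 hs0, hs0.2⟩, fun s' hs' => ?_⟩
    by_cases h : s' ∈ K
    · exact hmin h
    · have hle1 : ∀ j, s' j ≤ 1 := fun j => by
        rw [← hs'.2]
        exact Finset.single_le_sum (fun i _ => (hs'.1 i).le) (Finset.mem_univ j)
      have : ∃ j, s' j < η := by
        by_contra hcon
        push Not at hcon
        exact h ⟨⟨hcon, hle1⟩, hs'.2⟩
      obtain ⟨j, hj⟩ := this
      have g1 : FD μ s0 ≤ B := hmin hKe
      have g2 := FD_ge_one h0 h1 hs'.1 j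
      have g3 : B + 1 ≤ m1 * (s' j)⁻¹ := by
        have g4 : s' j ≤ m1 / (B + 1) := hj.le.trans (min_le_right _ _)
        rw [le_div_iff₀ (by linarith)] at g4
        rw [← div_eq_mul_inv, le_div_iff₀ (hs'.1 j)]
        linarith
      linarith


/-- at symmetric allocations with slower middle station the makespan is at least that for equal
speeds -/
lemma FD_mono {μ : Measure ℝ} [IsProbabilityMeasure μ] (h0 : ∀ᵐ x ∂μ, 0 ≤ x)
    (h1 : Integrable (fun x : ℝ => x) μ) {ε : ℝ} (hε0 : 0 ≤ ε) (hε : ε < 1) :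
    FD μ (sE 0) ≤ FD μ (sE ε) := by
  have e : ∀ ε : ℝ, FD μ (sE ε) = ∫ x, LC x (3 - ε) ((3 - ε) / (1 - ε)) (3 - ε) ∂PP μ := by
    intro ε
    unfold FD
    have e0 : (sE ε 0)⁻¹ = 3 - ε := by
      show (1 / (3 - ε))⁻¹ = _
      rw [one_div, inv_inv]
    have e1 : (sE ε 1)⁻¹ = (3 - ε) / (1 - ε) := by
      show ((1 - ε) / (3 - ε))⁻¹ = _
      rw [inv_div]
    have e2 : (sE ε 2)⁻¹ = 3 - ε := by
      show (1 / (3 - ε))⁻¹ = _
      rw [one_div, inv_inv]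
    rw [e0, e1, e2]
  have h1ε : 0 < 1 - ε := by linarith
  have hi := int_coord h1
  have hm : ∀ (i : Fin 2) (j : Fin 3), ∫ x, x i j ∂PP μ = ∫ x, x ∂μ := by
    intro i j
    have := (mp μ i j).map_eq
    calc ∫ x, x i j ∂PP μ = ∫ y, y ∂(Measure.map (fun x : Fin 2 → Fin 3 → ℝ => x i j) (PP μ)) :=
          (integral_map (f := fun y : ℝ => y) (mp μ i j).measurable.aemeasurable
            measurable_id.aestronglyMeasurable).symm
      _ = _ := by rw [this]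
  -- a lower bound whose expectation is explicit
  have hlow : ∀ᵐ x ∂PP μ, LC x 3 3 3 + ε * (2 * x 0 1 + 2 * x 1 1 - x 0 0 - x 1 2 - x 1 0 -
      x 0 2) ≤ LC x (3 - ε) ((3 - ε) / (1 - ε)) (3 - ε) := by
    filter_upwards [ae_nn h0] with x hx
    have hβ : 3 + 2 * ε ≤ (3 - ε) / (1 - ε) := by
      rw [le_div_iff₀ h1ε]; nlinarith
    have h2 := mul_le_mul_of_nonneg_left hβ (add_nonneg (hx 0 1) (hx 1 1))
    have hx10 := hx 1 0
    have hx02 := hx 0 2
    have p10 := mul_nonneg hε0 hx10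
    have p02 := mul_nonneg hε0 hx02
    have h3 : max (x 1 0 * 3) (x 0 2 * 3) - ε * (x 1 0 + x 0 2) ≤
        max (x 1 0 * (3 - ε)) (x 0 2 * (3 - ε)) := by
      rcases max_choice (x 1 0 * 3) (x 0 2 * 3) with h | h
      · rw [h]
        refine le_trans ?_ (le_max_left _ _)
        linarith
      · rw [h]
        refine le_trans ?_ (le_max_right _ _)
        linarith
    unfold LC
    linarith
  have iL : Integrable (fun x => LC x 3 3 3) (PP μ) :=
    int_LC h0 h1 (by norm_num) (by norm_num) (by norm_num)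
  have iR : Integrable (fun x : Fin 2 → Fin 3 → ℝ => 2 * x 0 1 + 2 * x 1 1 - x 0 0 - x 1 2 -
      x 1 0 - x 0 2) (PP μ) :=
    ((((((hi 0 1).const_mul 2).add ((hi 1 1).const_mul 2)).sub (hi 0 0)).sub (hi 1 2)).sub
      (hi 1 0)).sub (hi 0 2)
  have hR : ∫ x : Fin 2 → Fin 3 → ℝ, (2 * x 0 1 + 2 * x 1 1 - x 0 0 - x 1 2 -
      x 1 0 - x 0 2) ∂PP μ = 0 := by
    have a1 : Integrable (fun x : Fin 2 → Fin 3 → ℝ => 2 * x 0 1) (PP μ) := (hi 0 1).const_mul 2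
    have a2 : Integrable (fun x : Fin 2 → Fin 3 → ℝ => 2 * x 1 1) (PP μ) := (hi 1 1).const_mul 2
    have b1 : Integrable (fun x : Fin 2 → Fin 3 → ℝ => 2 * x 0 1 + 2 * x 1 1) (PP μ) := a1.add a2
    have b2 : Integrable (fun x : Fin 2 → Fin 3 → ℝ => 2 * x 0 1 + 2 * x 1 1 - x 0 0) (PP μ) :=
      b1.sub (hi 0 0)
    have b3 : Integrable (fun x : Fin 2 → Fin 3 → ℝ => 2 * x 0 1 + 2 * x 1 1 - x 0 0 - x 1 2)
      (PP μ) := b2.sub (hi 1 2)
    have b4 : Integrable (fun x : Fin 2 → Fin 3 → ℝ => 2 * x 0 1 + 2 * x 1 1 - x 0 0 - x 1 2 -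
      x 1 0) (PP μ) := b3.sub (hi 1 0)
    rw [integral_sub b4 (hi 0 2), integral_sub b3 (hi 1 0), integral_sub b2 (hi 1 2),
      integral_sub b1 (hi 0 0), integral_add a1 a2, integral_const_mul, integral_const_mul,
      hm, hm, hm, hm, hm, hm]
    ring
  have hint := integral_mono_ae (iL.add (iR.const_mul ε))
    (int_LC h0 h1 (by linarith) (div_nonneg (by linarith) h1ε.le) (by linarith)) hlow
  have hsum : ∫ x, (LC x 3 3 3 + ε * (2 * x 0 1 + 2 * x 1 1 - x 0 0 - x 1 2 - x 1 0 -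
      x 0 2)) ∂PP μ = ∫ x, LC x 3 3 3 ∂PP μ := by
    rw [integral_add iL (iR.const_mul ε), integral_const_mul, hR]
    ring
  have e00 : FD μ (sE 0) = ∫ x, LC x 3 3 3 ∂PP μ := by
    rw [e 0]
    norm_num
  rw [e00, e ε, ← hsum]
  exact hint

/-- some optimal allocation is bowl-shaped -/
lemma exists_bowl_D {μ : Measure ℝ} [IsProbabilityMeasure μ] (h0 : ∀ᵐ x ∂μ, 0 ≤ x)
    (h1 : Integrable (fun x : ℝ => x) μ) :
    ∃ s ∈ allocations 3, (∀ s' ∈ allocations 3, FD μ s ≤ FD μ s') ∧ BowlShaped s := by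
  obtain ⟨s, hs, hopt⟩ := exists_opt_FD h0 h1
  have hrev : ∀ j, 0 < s (Fin.rev j) := fun j => hs.1 _
  have hc := FD_conv h0 h1 (by norm_num : (0:ℝ) ≤ 1 / 2) (by norm_num) hs.1 hrev
  rw [FD_rev] at hc
  set u : Fin 3 → ℝ := fun j => 1 / 2 * s j + (1 - 1 / 2) * s (Fin.rev j) with hu
  have hupos : ∀ j, 0 < u j := fun j => by
    have := hs.1 j
    have := hrev j
    simp only [hu]
    linarith
  have f0 : Fin.rev (0 : Fin 3) = 2 := rfl
  have f1 : Fin.rev (1 : Fin 3) = 1 := rfl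
  have f2 : Fin.rev (2 : Fin 3) = 0 := rfl
  have hsum' : s 0 + s 1 + s 2 = 1 := by rw [← hs.2, Fin.sum_univ_three]
  have u0 : u 0 = (s 0 + s 2) / 2 := by simp only [hu, f0]; ring
  have u1 : u 1 = s 1 := by simp only [hu, f1]; ring
  have u2 : u 2 = (s 0 + s 2) / 2 := by simp only [hu, f2]; ring
  have husum : ∑ j, u j = 1 := by rw [Fin.sum_univ_three, u0, u1, u2]; linarith
  have huopt : ∀ s' ∈ allocations 3, FD μ u ≤ FD μ s' := fun s' hs' => by
    have := hopt s' hs'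
    linarith
  have hbowl : ∀ w : Fin 3 → ℝ, w 0 = w 2 → w 0 ≤ w 1 → BowlShaped w := by
    intro w hw hw1
    refine ⟨fun j => ?_, fun i j hij hj => ?_⟩
    · fin_cases j
      · exact hw
      · rfl
      · exact hw.symm
    · have hj2 : (j : ℕ) < 2 := by omega
      have hi2 : (i : ℕ) ≤ j := hij
      fin_cases i <;> fin_cases j
      · exact le_rfl
      · exact hw1
      · exact absurd hj2 (by decide)
      · exact absurd hi2 (by decide)
      · exact le_rfl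
      · exact absurd hj2 (by decide)
      · exact absurd hi2 (by decide)
      · exact absurd hi2 (by decide)
      · exact absurd hj2 (by decide)
  by_cases hcase : u 0 ≤ u 1
  · exact ⟨u, ⟨hupos, husum⟩, huopt, hbowl u (by rw [u0, u2]) hcase⟩
  · push Not at hcase
    -- the middle station is strictly slower: equal speeds are at least as good
    have hsu : u 0 + u 1 + u 2 = 1 := by rw [← husum, Fin.sum_univ_three]
    have h02 : u 0 = u 2 := by rw [u0, u2]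
    have ha3 : 1 / 3 < u 0 := by linarith
    have hp1 := hupos 1
    have hp0 := hupos 0
    set ε : ℝ := 3 - 1 / u 0 with hε
    have hε0 : 0 ≤ ε := by
      have : 1 / u 0 ≤ 3 := by
        rw [div_le_iff₀ hp0]; linarith
      linarith
    have hε1 : ε < 1 := by
      have : 2 < 1 / u 0 := by
        rw [lt_div_iff₀ hp0]; linarith
      linarith
    have h3ε : 3 - ε = 1 / u 0 := by rw [hε]; ring
    have hueq : u = sE ε := by
      ext j
      fin_cases j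
      · show u 0 = 1 / (3 - ε)
        rw [h3ε, one_div_one_div]
      · show u 1 = (1 - ε) / (3 - ε)
        rw [h3ε, hε, div_div_eq_mul_div, div_one]
        have : (1 - (3 - 1 / u 0)) * u 0 = 1 - 2 * u 0 := by
          field_simp
          ring
        rw [this]; linarith
      · show u 2 = 1 / (3 - ε)
        rw [h3ε, one_div_one_div, h02]
    have hle : FD μ (sE 0) ≤ FD μ u := by
      rw [hueq]
      exact FD_mono h0 h1 hε0 hε1
    refine ⟨sE 0, sE_mem (by norm_num), fun s' hs' => hle.trans (huopt s' hs'),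
      hbowl _ rfl ?_⟩
    show 1 / (3 - (0:ℝ)) ≤ (1 - 0) / (3 - 0)
    norm_num

end Pool.Agent.Y168.Bowl
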