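import Mathlib
import Pool.Agent.Y168.Bowl.An

set_option autoImplicit false

namespace Pool.Agent.Y168.Bowl

open MeasureTheory Filter Topology ProbabilityTheory Finset
open Pool.Agent.Results.MP_eb4cdf_pr.InvertedBowl

/-- increment of the inverse speed of the slower station -/
noncomputable def dT (N : ℕ) (τ : ℝ) : ℝ := τ + 2 * τ ^ 2 / ((N : ℝ) + 1 - 2 * τ)

/-- inverse speeds: station `0` faster, station `k` slower -/
noncomputable def uT (N : ℕ) (k : Fin (N + 1)) (τ : ℝ) (j : Fin (N + 1)) : ℝ :=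
  ((N : ℝ) + 1) + (if j = 0 then -τ else 0) + (if j = k then dT N τ else 0)

lemma VV_uT {N : ℕ} (x : Fin 2 → Fin (N + 1) → ℝ) (k c : Fin (N + 1)) (τ : ℝ) :
    VV x (uT N k τ) c = ((N : ℝ) + 1) * V1 x c + (-τ * ww x c 0 + dT N τ * ww x c k) := by
  unfold VV uT V1
  have h : ∀ j, ww x c j * (((N : ℝ) + 1) + (if j = 0 then -τ else 0) +
      (if j = k then dT N τ else 0)) = ((N : ℝ) + 1) * ww x c j +
      ((if j = 0 then -τ * ww x c j else 0) + (if j = k then dT N τ * ww x c j else 0)) := by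
    intro j
    split_ifs <;> ring
  rw [Finset.sum_congr rfl fun j _ => h j, Finset.sum_add_distrib, Finset.sum_add_distrib,
    Finset.sum_ite_eq', Finset.sum_ite_eq', if_pos (Finset.mem_univ _),
    if_pos (Finset.mem_univ _), Finset.mul_sum]

lemma dT_bounds {N : ℕ} (hN : 2 ≤ N) {τ : ℝ} (h0 : 0 < τ) (h1 : τ < 1 / 2) :
    τ ≤ dT N τ ∧ dT N τ ≤ 2 * τ := by
  have hN' : (2 : ℝ) ≤ N := by exact_mod_cast hN
  have hd : 0 < (N : ℝ) + 1 - 2 * τ := by linarith
  unfold dT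
  constructor
  · have : 0 ≤ 2 * τ ^ 2 / ((N : ℝ) + 1 - 2 * τ) := by positivity
    linarith
  · have : 2 * τ ^ 2 / ((N : ℝ) + 1 - 2 * τ) ≤ τ := by
      rw [div_le_iff₀ hd]
      nlinarith
    linarith

lemma uT_pos {N : ℕ} (hN : 2 ≤ N) {k : Fin (N + 1)} {τ : ℝ} (h0 : 0 < τ)
    (h1 : τ < 1 / 2) (j : Fin (N + 1)) : 0 < uT N k τ j := by
  have hN' : (2 : ℝ) ≤ N := by exact_mod_cast hN
  have hb := dT_bounds hN h0 h1
  unfold uT
  split_ifs <;> linarith

lemma uT_sum {N : ℕ} (hN : 2 ≤ N) {k : Fin (N + 1)} (hk : k ≠ 0) {τ : ℝ} (h0 : 0 < τ)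
    (h1 : τ < 1 / 2) : ∑ j, (uT N k τ j)⁻¹ = 1 := by
  have hN' : (2 : ℝ) ≤ N := by exact_mod_cast hN
  have hd : (N : ℝ) + 1 - 2 * τ ≠ 0 := by
    have : 0 < (N : ℝ) + 1 - 2 * τ := by linarith
    exact this.ne'
  have hd2 : (N : ℝ) + 1 - τ ≠ 0 := by
    have : 0 < (N : ℝ) + 1 - τ := by linarith
    exact this.ne'
  have hm : (N : ℝ) + 1 ≠ 0 := by positivity
  have h : ∀ j, (uT N k τ j)⁻¹ = ((N : ℝ) + 1)⁻¹ +
      ((if j = 0 then ((N : ℝ) + 1 - τ)⁻¹ - ((N : ℝ) + 1)⁻¹ else 0) +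
      (if j = k then ((N : ℝ) + 1 + dT N τ)⁻¹ - ((N : ℝ) + 1)⁻¹ else 0)) := by
    intro j
    unfold uT
    by_cases hj : j = 0
    · have hjk : j ≠ k := by rw [hj]; exact (Ne.symm hk)
      rw [if_pos hj, if_neg hjk, if_pos hj, if_neg hjk, add_zero, add_zero, ← sub_eq_add_neg]
      ring
    · by_cases hjk : j = k
      · rw [if_neg hj, if_pos hjk, if_neg hj, if_pos hjk, add_zero]
        ring
      · rw [if_neg hj, if_neg hjk, if_neg hj, if_neg hjk]
        simp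
  rw [Finset.sum_congr rfl fun j _ => h j, Finset.sum_add_distrib, Finset.sum_add_distrib,
    Finset.sum_ite_eq', Finset.sum_ite_eq', if_pos (Finset.mem_univ _),
    if_pos (Finset.mem_univ _)]
  simp only [Finset.sum_const, Finset.card_univ, Fintype.card_fin, nsmul_eq_mul]
  have e : (N : ℝ) + 1 + dT N τ = ((N : ℝ) + 1) * ((N : ℝ) + 1 - τ) / ((N : ℝ) + 1 - 2 * τ) := by
    have hq : 2 * τ ^ 2 / ((N : ℝ) + 1 - 2 * τ) * ((N : ℝ) + 1 - 2 * τ) = 2 * τ ^ 2 :=
      div_mul_cancel₀ _ hd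
    rw [eq_div_iff hd]
    unfold dT
    linear_combination hq
  rw [e, inv_div]
  push_cast
  field_simp
  ring

lemma dT_quot {N : ℕ} (a b : ℝ) :
    Tendsto (fun τ : ℝ => (-τ * a + dT N τ * b) / τ) (𝓝[>] 0) (𝓝 (b - a)) := by
  have hm : (N : ℝ) + 1 - 2 * 0 ≠ 0 := by
    have h2 : (N : ℝ) + 1 - 2 * 0 = N + 1 := by ring
    rw [h2]; positivity
  have hg : ContinuousAt (fun τ : ℝ => -a + (1 + 2 * τ / ((N : ℝ) + 1 - 2 * τ)) * b) 0 := by
    have : ContinuousAt (fun τ : ℝ => 2 * τ / ((N : ℝ) + 1 - 2 * τ)) 0 :=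
      ContinuousAt.div (by fun_prop) (by fun_prop) hm
    exact continuousAt_const.add ((continuousAt_const.add this).mul continuousAt_const)
  have h2 : Tendsto (fun τ : ℝ => -a + (1 + 2 * τ / ((N : ℝ) + 1 - 2 * τ)) * b) (𝓝[>] 0)
      (𝓝 (b - a)) := by
    have h3 := tendsto_nhdsWithin_of_tendsto_nhds (s := Set.Ioi (0 : ℝ)) hg.tendsto
    have e : -a + (1 + 2 * (0 : ℝ) / ((N : ℝ) + 1 - 2 * 0)) * b = b - a := by
      simp
      ring
    rw [e] at h3
    exact h3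
  refine h2.congr' ?_
  filter_upwards [self_mem_nhdsWithin] with τ hτ
  have hτ' : τ ≠ 0 := (show (0 : ℝ) < τ from hτ).ne'
  unfold dT
  rw [eq_div_iff hτ']
  ring

lemma dT_tendsto (N : ℕ) : Tendsto (fun τ : ℝ => dT N τ) (𝓝[>] 0) (𝓝 0) := by
  have hm : (N : ℝ) + 1 - 2 * 0 ≠ 0 := by
    have h2 : (N : ℝ) + 1 - 2 * 0 = N + 1 := by ring
    rw [h2]; positivity
  have hg : ContinuousAt (fun τ : ℝ => τ + 2 * τ ^ 2 / ((N : ℝ) + 1 - 2 * τ)) 0 := by
    have : ContinuousAt (fun τ : ℝ => 2 * τ ^ 2 / ((N : ℝ) + 1 - 2 * τ)) 0 :=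
      ContinuousAt.div (by fun_prop) (by fun_prop) hm
    exact continuousAt_id.add this
  have h3 := tendsto_nhdsWithin_of_tendsto_nhds (s := Set.Ioi (0 : ℝ)) hg.tendsto
  simpa [dT] using h3

lemma quot_tendsto {N : ℕ} {x : Fin 2 → Fin (N + 1) → ℝ} {c : Fin (N + 1)} (h : x ∈ AA c)
    (k : Fin (N + 1)) :
    Tendsto (fun τ : ℝ => (ZZ x (uT N k τ) - ZZ x (fun _ => (N : ℝ) + 1)) / τ) (𝓝[>] 0)
      (𝓝 (ww x c k - ww x c 0)) := by
  have hm : (0 : ℝ) < (N : ℝ) + 1 := by positivity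
  have hV : ∀ c', Tendsto (fun τ : ℝ => VV x (uT N k τ) c') (𝓝[>] 0)
      (𝓝 (((N : ℝ) + 1) * V1 x c')) := by
    intro c'
    have hid : Tendsto (fun τ : ℝ => τ) (𝓝[>] 0) (𝓝 0) :=
      tendsto_nhdsWithin_of_tendsto_nhds (f := fun ε : ℝ => ε) (fun _ h => h)
    have h1 : Tendsto (fun τ : ℝ => ((N : ℝ) + 1) * V1 x c' + (-τ * ww x c' 0 +
        dT N τ * ww x c' k)) (𝓝[>] 0) (𝓝 (((N : ℝ) + 1) * V1 x c' + (-0 * ww x c' 0 +
        0 * ww x c' k))) :=
      tendsto_const_nhds.add ((hid.neg.mul_const _).add ((dT_tendsto N).mul_const _))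
    simp only [neg_zero, zero_mul, add_zero] at h1
    refine h1.congr fun τ => ?_
    rw [VV_uT]
  have hev : ∀ᶠ τ : ℝ in 𝓝[>] 0, ∀ c', VV x (uT N k τ) c' ≤ VV x (uT N k τ) c := by
    rw [Filter.eventually_all]
    intro c'
    by_cases hc : c' = c
    · subst hc
      exact Eventually.of_forall fun _ => le_rfl
    · have hlt : ((N : ℝ) + 1) * V1 x c' < ((N : ℝ) + 1) * V1 x c :=
        mul_lt_mul_of_pos_left (h c' hc) hm
      exact ((hV c').eventually_lt (hV c) hlt).mono fun _ h => h.le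
  refine (dT_quot (N := N) (ww x c 0) (ww x c k)).congr' ?_
  filter_upwards [hev] with τ hτ
  have e1 : ZZ x (uT N k τ) = VV x (uT N k τ) c := le_antisymm (ZZ_le hτ) (VV_le_ZZ _ _ _)
  rw [e1, VV_uT, ZZ_const h hm.le]
  congr 1
  ring

lemma quot_bound {N : ℕ} (hN : 2 ≤ N) {x : Fin 2 → Fin (N + 1) → ℝ} (hx : ∀ i j, 0 ≤ x i j)
    (k : Fin (N + 1)) {τ : ℝ} (h0 : 0 < τ) (h1 : τ < 1 / 2) :
    ‖(ZZ x (uT N k τ) - ZZ x (fun _ => (N : ℝ) + 1)) / τ‖ ≤ 3 * tt x := by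
  have hb := dT_bounds hN h0 h1
  have hc : ∀ c, |VV x (uT N k τ) c - VV x (fun _ => (N : ℝ) + 1) c| ≤ 3 * tt x * τ := by
    intro c
    have e : VV x (fun _ => (N : ℝ) + 1) c = ((N : ℝ) + 1) * V1 x c := by
      unfold VV V1
      rw [Finset.mul_sum]
      exact Finset.sum_congr rfl fun j _ => mul_comm _ _
    rw [VV_uT, e, add_sub_cancel_left]
    have w0 := ww_nonneg hx c 0
    have wk := ww_nonneg hx c k
    have t0 := term_le_tt hx c 0
    have tk := term_le_tt hx c k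
    have p1 : 0 ≤ τ * ww x c 0 := mul_nonneg h0.le w0
    have p2 : τ * ww x c 0 ≤ τ * tt x := mul_le_mul_of_nonneg_left t0 h0.le
    have p3 : 0 ≤ dT N τ * ww x c k := mul_nonneg (by linarith) wk
    have p4 : dT N τ * ww x c k ≤ 2 * τ * tt x :=
      mul_le_mul hb.2 tk wk (by linarith)
    rw [abs_le]
    constructor <;> nlinarith
  rw [Real.norm_eq_abs, abs_div, abs_of_pos h0, div_le_iff₀ h0, abs_le]
  constructor
  · have : ZZ x (fun _ => (N : ℝ) + 1) ≤ ZZ x (uT N k τ) + 3 * tt x * τ := by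
      refine ZZ_le fun c => ?_
      have g1 := (abs_le.mp (hc c)).1
      have g2 := VV_le_ZZ x (uT N k τ) c
      linarith
    linarith
  · have : ZZ x (uT N k τ) ≤ ZZ x (fun _ => (N : ℝ) + 1) + 3 * tt x * τ := by
      refine ZZ_le fun c => ?_
      have g1 := (abs_le.mp (hc c)).2
      have g2 := VV_le_ZZ x (fun _ => (N : ℝ) + 1) c
      linarith
    linarith

lemma exists_betterN {ν : Measure ℝ} [IsProbabilityMeasure ν] (h0 : ∀ᵐ x ∂ν, 0 ≤ x)
    (h1 : Integrable (fun x : ℝ => x) ν) (hν : ∀ a, ν {a} = 0) {N : ℕ} (hN : 2 ≤ N) {M : ℝ}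
    (hM : 0 ≤ M) {k : Fin (N + 1)} (hk : k ≠ 0) (hW : WW ν N M k < WW ν N M 0) :
    ∃ s ∈ allocations (N + 1), FN ν N M s < FN ν N M (fun _ => 1 / ((N : ℝ) + 1)) := by
  have hm : (0 : ℝ) < (N : ℝ) + 1 := by positivity
  have hsmall : ∀ᶠ ε : ℝ in 𝓝[>] 0, ε < 1 / 2 :=
    tendsto_nhdsWithin_of_tendsto_nhds (f := fun ε : ℝ => ε) (fun _ h => h)
      |>.eventually_lt_const (by norm_num)
  have hlim : Tendsto (fun τ : ℝ => ∫ y, (ZZ (XM M y) (uT N k τ) -
      ZZ (XM M y) (fun _ => (N : ℝ) + 1)) / τ ∂PN ν N) (𝓝[>] 0)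
      (𝓝 (∫ y, (QQ M k y - QQ M 0 y) ∂PN ν N)) := by
    have hbi : Integrable (fun y => 3 * tt (XM M y)) (PN ν N) := by
      simp only [tt_shift]
      exact ((integrable_const _).add (int_tt h1 N)).const_mul _
    refine tendsto_integral_filter_of_dominated_convergence (fun y => 3 * tt (XM M y)) ?_ ?_
      hbi ?_
    · refine Eventually.of_forall fun τ => ?_
      exact ((((meas_ZZ _).comp (meas_XM M)).sub ((meas_ZZ _).comp (meas_XM M))).div_const
        τ).aestronglyMeasurable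
    · filter_upwards [hsmall, self_mem_nhdsWithin] with τ hs hpos
      filter_upwards [ae_nnN h0 N] with y hy
      exact quot_bound hN (fun i j => add_nonneg hM (hy i j)) k hpos hs
    · filter_upwards [ae_mem hν N] with y ⟨c, hc⟩
      rw [QQ_eq M hc, QQ_eq M hc]
      exact quot_tendsto (AA_shift M hc) k
  have hneg : ∫ y, (QQ M k y - QQ M 0 y) ∂PN ν N < 0 := by
    rw [integral_sub (int_QQ h0 h1 M k) (int_QQ h0 h1 M 0), integral_QQ h0 h1,
      integral_QQ h0 h1]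
    linarith
  obtain ⟨τ, hτ, hs, hpos⟩ := ((hlim.eventually_lt_const hneg).and
    (hsmall.and self_mem_nhdsWithin)).exists
  have hpos' : (0 : ℝ) < τ := hpos
  have i1 : Integrable (fun y => ZZ (XM M y) (uT N k τ)) (PN ν N) :=
    int_ZZ h0 h1 hM fun j => (uT_pos hN hpos' hs j).le
  have i2 : Integrable (fun y => ZZ (XM M y) (fun _ => (N : ℝ) + 1)) (PN ν N) :=
    int_ZZ h0 h1 hM fun _ => hm.le
  rw [integral_div, integral_sub i1 i2, div_lt_iff₀ hpos'] at hτ
  refine ⟨fun j => (uT N k τ j)⁻¹, ⟨fun j => inv_pos.mpr (uT_pos hN hpos' hs j),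
    uT_sum hN hk hpos' hs⟩, ?_⟩
  unfold FN
  simp only [inv_inv, one_div]
  linarith

/-! ### Existence of an optimal allocation -/

lemma exists_opt_FN {ν : Measure ℝ} [IsProbabilityMeasure ν] (h0 : ∀ᵐ x ∂ν, 0 ≤ x)
    (h1 : Integrable (fun x : ℝ => x) ν) {N : ℕ} {M : ℝ} (hM : 0 < M) :
    ∃ s ∈ allocations (N + 1), ∀ s' ∈ allocations (N + 1), FN ν N M s ≤ FN ν N M s' := by
  have hm : (0 : ℝ) < (N : ℝ) + 1 := by positivity
  set eq : Fin (N + 1) → ℝ := fun _ => 1 / ((N : ℝ) + 1) with heq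
  have heqmem : eq ∈ allocations (N + 1) := by
    refine ⟨fun j => by positivity, ?_⟩
    simp only [heq, Finset.sum_const, Finset.card_univ, Fintype.card_fin, nsmul_eq_mul]
    push_cast
    field_simp
  set B := FN ν N M eq with hB
  have hBnn : 0 ≤ B := by
    refine integral_nonneg_of_ae ?_
    filter_upwards [ae_nnN h0 N] with y hy
    exact ZZ_nonneg (fun i j => add_nonneg hM.le (hy i j))
      (fun j => (inv_pos.mpr (heqmem.1 j)).le)
  have hlow : ∀ s ∈ allocations (N + 1), ∀ j, M * (s j)⁻¹ ≤ FN ν N M s := by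
    intro s hs j
    have hc : M * (s j)⁻¹ = ∫ _ : Fin 2 → Fin (N + 1) → ℝ, M * (s j)⁻¹ ∂PN ν N := by simp
    rw [hc]
    refine integral_mono_ae (integrable_const _)
      (int_ZZ h0 h1 hM.le fun j => (inv_pos.mpr (hs.1 j)).le) ?_
    filter_upwards [ae_nnN h0 N] with y hy
    show M * (s j)⁻¹ ≤ ZZ (XM M y) (fun j => (s j)⁻¹)
    have hx : ∀ i j, 0 ≤ XM M y i j := fun i j => add_nonneg hM.le (hy i j)
    refine le_trans ?_ (VV_le_ZZ (XM M y) (fun j => (s j)⁻¹) 0)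
    have h2 : M ≤ ww (XM M y) 0 j := by
      rw [ww_shift]
      have := ww_nonneg hy 0 j
      split_ifs <;> linarith
    have h3 : ww (XM M y) 0 j * (s j)⁻¹ ≤ VV (XM M y) (fun j => (s j)⁻¹) 0 :=
      Finset.single_le_sum (f := fun j => ww (XM M y) 0 j * (s j)⁻¹)
        (fun i _ => mul_nonneg (ww_nonneg hx 0 i) (inv_pos.mpr (hs.1 i)).le)
        (Finset.mem_univ j)
    exact (mul_le_mul_of_nonneg_right h2 (inv_pos.mpr (hs.1 j)).le).trans h3
  set η : ℝ := min (1 / ((N : ℝ) + 1)) (M / (B + 1)) with hη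
  have hηpos : 0 < η := lt_min (by positivity) (by positivity)
  have hη3 : η ≤ 1 / ((N : ℝ) + 1) := min_le_left _ _
  set K : Set (Fin (N + 1) → ℝ) := Set.Icc (fun _ => η) (fun _ => 1) ∩ {s | ∑ j, s j = 1}
    with hK
  have hKc : IsCompact K := isCompact_Icc.inter_right
    (isClosed_eq (by fun_prop) continuous_const)
  have hle1 : ∀ s ∈ allocations (N + 1), ∀ j, s j ≤ 1 := fun s hs j => by
    rw [← hs.2]
    exact Finset.single_le_sum (fun i _ => (hs.1 i).le) (Finset.mem_univ j)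
  have hKe : eq ∈ K := ⟨⟨fun j => hη3, fun j => hle1 eq heqmem j⟩, heqmem.2⟩
  have hKpos : ∀ s ∈ K, ∀ j, 0 < s j := fun s hs j => by
    have := hs.1.1 j
    simp only at this
    linarith
  have hcont : ContinuousOn (FN ν N M) K := by
    refine continuousOn_of_dominated (bound := fun y => η⁻¹ * tt (XM M y)) ?_ ?_ ?_ ?_
    · intro s _
      exact ((meas_ZZ _).comp (meas_XM M)).aestronglyMeasurable
    · intro s hs
      have hinv : ∀ j, (s j)⁻¹ ≤ η⁻¹ := fun j => by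
        have := hs.1.1 j
        simp only at this
        exact inv_anti₀ hηpos this
      filter_upwards [ae_nnN h0 N] with y hy
      have hx : ∀ i j, 0 ≤ XM M y i j := fun i j => add_nonneg hM.le (hy i j)
      rw [Real.norm_of_nonneg (ZZ_nonneg hx fun j => (inv_pos.mpr (hKpos s hs j)).le)]
      exact ZZ_le_tt hx (inv_pos.mpr hηpos).le hinv
    · simp only [tt_shift]
      exact ((integrable_const _).add (int_tt h1 N)).const_mul _
    · refine Eventually.of_forall fun y => ?_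
      have hinv : ∀ j : Fin (N + 1), ContinuousOn (fun s : Fin (N + 1) → ℝ => (s j)⁻¹) K :=
        fun j => (continuous_apply j).continuousOn.inv₀ (fun s hs => (hKpos s hs j).ne')
      unfold ZZ
      refine ContinuousOn.finset_sup'_apply Finset.univ_nonempty fun c _ => ?_
      unfold VV
      exact continuousOn_finsetSum _ fun j _ => continuousOn_const.mul (hinv j)
  obtain ⟨s0, hs0, hmin⟩ := hKc.exists_isMinOn ⟨eq, hKe⟩ hcont
  refine ⟨s0, ⟨hKpos s0 hs0, hs0.2⟩, fun s' hs' => ?_⟩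
  by_cases h : s' ∈ K
  · exact hmin h
  · have : ∃ j, s' j < η := by
      by_contra hcon
      push Not at hcon
      exact h ⟨⟨hcon, hle1 s' hs'⟩, hs'.2⟩
    obtain ⟨j, hj⟩ := this
    have g1 : FN ν N M s0 ≤ B := hmin hKe
    have g2 := hlow s' hs' j
    have g3 : B + 1 ≤ M * (s' j)⁻¹ := by
      have g4 : s' j ≤ M / (B + 1) := hj.le.trans (min_le_right _ _)
      rw [le_div_iff₀ (by linarith)] at g4
      rw [← div_eq_mul_inv, le_div_iff₀ (hs'.1 j)]
      linarith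
    linarith

/-! ### Bowl-shaped allocations -/

lemma bowl_dist {N : ℕ} {s : Fin (N + 1) → ℝ} (hb : BowlShaped s) {i j : Fin (N + 1)}
    (h : s i < s j) : min (i : ℕ) (N - i) < min (j : ℕ) (N - j) := by
  by_contra hcon
  push Not at hcon
  obtain ⟨hsym, hmono⟩ := hb
  -- representatives in the first half
  have key : ∀ k : Fin (N + 1), s k = s ⟨min (k : ℕ) (N - k), by omega⟩ := by
    intro k
    rcases le_total (k : ℕ) (N - k) with h1 | h1
    · congr 1
      ext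
      simp only [min_eq_left h1]
    · rw [hsym k]
      congr 1
      ext
      simp only [min_eq_right h1, Fin.val_rev]
      omega
  rw [key i, key j] at h
  have := hmono ⟨min (j : ℕ) (N - j), by omega⟩ ⟨min (i : ℕ) (N - i), by omega⟩ hcon
    (by simp only; omega)
  linarith

/-- a constant beyond which the expected works are ordered like the path probabilities -/
lemma exists_M0 {ν : Measure ℝ} [IsProbabilityMeasure ν] (h0 : ∀ᵐ x ∂ν, 0 ≤ x)
    (h1 : Integrable (fun x : ℝ => x) ν) (hν : ∀ a, ν {a} = 0) (N : ℕ) :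
    ∃ M0 : ℝ, 0 < M0 ∧ ∀ M, M0 ≤ M → ∀ i j : Fin (N + 1),
      min (i : ℕ) (N - i) < min (j : ℕ) (N - j) → WW ν N M j < WW ν N M i := by
  set T := ∫ y, tt y ∂PN ν N with hT
  have hT0 : 0 ≤ T := (rr_bounds h0 h1 hν (0 : Fin (N + 1))).1.trans
    (rr_bounds h0 h1 hν (0 : Fin (N + 1))).2
  set g : Fin (N + 1) × Fin (N + 1) → ℝ := fun p =>
    T / |(PN ν N).real (AA p.1) - (PN ν N).real (AA p.2)| with hg
  have hg0 : ∀ p, 0 ≤ g p := fun p => div_nonneg hT0 (abs_nonneg _)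
  refine ⟨∑ p, g p + 1, by
    have := Finset.sum_nonneg fun p (_ : p ∈ Finset.univ) => hg0 p
    linarith, fun M hM i j hij => ?_⟩
  have hlt := AA_anti hν hij
  have h2 : g (i, j) ≤ ∑ p, g p :=
    Finset.single_le_sum (fun p _ => hg0 p) (Finset.mem_univ (i, j))
  have h3 : g (i, j) < M := by linarith
  have hpos : 0 < (PN ν N).real (AA i) - (PN ν N).real (AA j) := by linarith
  simp only [hg] at h3
  rw [abs_of_pos hpos, div_lt_iff₀ hpos] at h3
  have b1 := rr_bounds h0 h1 hν i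
  have b2 := rr_bounds h0 h1 hν j
  unfold WW
  rw [← hT] at b1 b2
  nlinarith

end Pool.Agent.Y168.Bowl
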